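import Pool.Agent.Lib.Ando.LevelE
import Pool.Agent.Lib.Ando.Fact2
import Pool.Agent.Lib.Ando.Struct
import Pool.Agent.Lib.AndoB.Fact1g

/-!
# MP_b1c9a2_co, count lemma for all diamond-free cubic graphs: definitions

Text: /team-store/b1c9a2_count_h68.md (helper68).  Library `Pool.Agent.Lib.Ando` (helper32).

Conventions: S = white vertices. Z / L = black vertices with sd = 0 / 1, O / U = white vertices
with sd = 0 / 1.  For v in L or U let v* be the member of `sm S v`.  `sites S` = vertices of U both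
of whose black neighbours are in Z.  `UN S b` = U-neighbours of the black vertex b.
For w in U: w = (b, l) means op S w = {b, l}.  w = (b, l) is ZL if b in Z, l in L.
A domino is a set {v, v*}.
-/

set_option autoImplicit false
set_option linter.unusedSectionVars false

namespace Pool.Agent.Lib.AndoC

open Pool.Agent.Lib.Ando

variable {V : Type*} [Fintype V] [DecidableEq V] (G : SimpleGraph V) [DecidableRel G.Adj]

/-- For every level colouring with imbalance `2 * k` and every triangle `l z z'` with `l` black of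
monochromatic degree one and `z`, `z'` white: no other triangle contains `z z'`. -/
def DL1 (k : ℕ) : Prop :=
  ∀ S : Finset V, Level G k S → ∀ l z z' : V, l ∉ S → sd G S l = 1 → z ∈ S → z' ∈ S →
    G.Adj l z → G.Adj l z' → G.Adj z z' → ∀ p, G.Adj p z → G.Adj p z' → p = l

/-- No level colouring with imbalance `2 * k` has a black vertex of monochromatic degree zero with
three pairwise non-adjacent white neighbours of monochromatic degree one. -/
def NoTriple (k : ℕ) : Prop :=
  ∀ S : Finset V, Level G k S → ∀ b u1 u2 u3 : V, b ∉ S → sd G S b = 0 →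
    u1 ∈ UN G S b → u2 ∈ UN G S b → u3 ∈ UN G S b → u1 ≠ u2 → u1 ≠ u3 → u2 ≠ u3 →
    (G.Adj u1 u2 ∨ G.Adj u1 u3 ∨ G.Adj u2 u3)

/-- `w` is a vertex of type ZL: white partner `v`, black neighbours `b` (in Z) and `l` (in L);
`m` is the partner of `l`, and `p` the third neighbour of `l`. -/
structure ZL (S : Finset V) (w v b l m p : V) : Prop where
  wS : w ∈ S
  sw : sm G S w = {v}
  ow : op G S w = {b, l}
  bl : b ≠ l
  sb : sd G S b = 0
  sl : sm G S l = {m}
  ol : op G S l = {w, p}
  pw : p ≠ w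

/-- The description of the colouring `T`, the slide of `S` at a ZL vertex `w`: the colours of `w`
and `l` are exchanged. -/
structure Slid (S T : Finset V) (w v b l m p : V) : Prop where
  eq : T = symmDiff S {w, l}
  wT : w ∉ T
  lT : l ∈ T
  bT : b ∉ T
  mT : m ∉ T
  pT : p ∈ T
  vT : v ∈ T
  smw : sm G T w = {b}
  smb : sm G T b = {w}
  sml : sm G T l = {p}
  smp : sm G T p = {l}
  smm : sm G T m = ∅
  smv : p ≠ v → sm G T v = ∅
  opw : op G T w = {l, v}
  opl : op G T l = {w, m}
  opb : op G T b = (op G S b).erase w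
  opm : op G T m = insert l (op G S m)
  opp : p ≠ v → op G T p = (op G S p).erase l
  opv : p ≠ v → op G T v = insert w (op G S v)
  opv' : p = v → op G T v = insert w ((op G S v).erase l)
  rest : ∀ x, x ≠ w → x ≠ v → x ≠ b → x ≠ l → x ≠ m → x ≠ p →
    (x ∈ T ↔ x ∈ S) ∧ sm G T x = sm G S x ∧ op G T x = op G S x

/-- `a` is the apex of a triangle `a z z'` with white members `z = (a, x)`, `z' = (a, x')` which
are both of type ZL. -/
structure Apx (S : Finset V) (a z z' x x' : V) : Prop where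
  aS : a ∉ S
  sa : sd G S a = 1
  oa : op G S a = {z, z'}
  zz : G.Adj z z'
  oz : op G S z = {a, x}
  oz' : op G S z' = {a, x'}
  ax : a ≠ x
  ax' : a ≠ x'
  sx : sd G S x = 0
  sx' : sd G S x' = 0
  xx : x ≠ x'

/-- The apexes of the triangles with one black and two white vertices, the black one of
monochromatic degree one, the two white ones of type ZL. -/
def upsA (S : Finset V) : Finset V :=
  Finset.univ.filter (fun a => a ∉ S ∧ sd G S a = 1 ∧
    ∃ z ∈ op G S a, ∃ z' ∈ op G S a, G.Adj z z' ∧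
      (∀ x ∈ op G S z, x ≠ a → sd G S x = 0) ∧ (∀ x ∈ op G S z', x ≠ a → sd G S x = 0))

/-- The apexes of all triangles with one black and two white vertices, the black one of
monochromatic degree one. -/
def tauA (S : Finset V) : Finset V :=
  Finset.univ.filter (fun a => a ∉ S ∧ sd G S a = 1 ∧
    ∃ z ∈ op G S a, ∃ z' ∈ op G S a, G.Adj z z')

/-- First obstruction for a slide at `w = (b, l)`, `m = l*`: `b` is the third neighbour of an
adjacent pair `e e'`, whose other black neighbours are in Z or equal to `m`. -/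
def Bad1 (S : Finset V) (w b m : V) : Prop :=
  ∃ e e' : V, e ∈ op G S b ∧ e' ∈ op G S b ∧ e ≠ w ∧ e' ≠ w ∧ G.Adj e e' ∧
    (∀ x ∈ op G S e, x = b ∨ x = m ∨ sd G S x = 0) ∧
    (∀ x ∈ op G S e', x = b ∨ x = m ∨ sd G S x = 0)

/-- Second obstruction for a slide at `w = (b, l)`, `m = l*`: a triangle `a e e'`, `a` in L,
`e = (a, m)`, the other black neighbour of `e'` in Z. -/
def Bad2 (S : Finset V) (m : V) : Prop :=
  ∃ a e e' : V, a ∉ S ∧ a ≠ m ∧ sd G S a = 1 ∧ e ∈ op G S a ∧ e' ∈ op G S a ∧ G.Adj e e' ∧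
    m ∈ op G S e ∧ (∀ x ∈ op G S e', x = a ∨ sd G S x = 0)

/-- A chain: `l i`, `m i` black partners, `w i` white with partner `w' i`, adjacent to `m i` and to
`l (i + 1)`, the last one to `m (n - 1)` and `y`, `y` in Z; all these dominoes are different; for
`i + 1 < n` all white neighbours of `m i` of monochromatic degree one are of type LL. -/
structure Chn (S : Finset V) (n : ℕ) (l m w w' : ℕ → V) (y : V) : Prop where
  hn : 1 ≤ n
  lS : ∀ i < n, l i ∉ S
  sl : ∀ i < n, sm G S (l i) = {m i}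
  sm' : ∀ i < n, sm G S (m i) = {l i}
  wS : ∀ i < n, w i ∈ S
  sw : ∀ i < n, sm G S (w i) = {w' i}
  ow : ∀ i, i + 1 < n → op G S (w i) = {m i, l (i + 1)}
  oy : op G S (w (n - 1)) = {m (n - 1), y}
  my : m (n - 1) ≠ y
  sy : sd G S y = 0
  dl : ∀ i < n, ∀ j < n, i ≠ j → l i ≠ l j ∧ l i ≠ m j
  dw : ∀ i < n, ∀ j < n, i ≠ j → w i ≠ w j ∧ w i ≠ w' j
  ll : ∀ i, i + 1 < n → ∀ u ∈ UN G S (m i), ∀ b ∈ op G S u, sd G S b = 1

/-- `y` is not the third neighbour of two adjacent sites different from `w`. -/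
def NoCap (S : Finset V) (w y : V) : Prop :=
  ∀ e e' : V, e ∈ op G S y → e' ∈ op G S y → e ≠ w → e' ≠ w → G.Adj e e' →
    ¬ (e ∈ sites G S ∧ e' ∈ sites G S)

/-- The domino of a vertex of monochromatic degree one. -/
def dom (S : Finset V) (v : V) : Finset V := insert v (sm G S v)

/-- The white dominoes. -/
def WD (S : Finset V) : Finset (Finset V) :=
  (Finset.univ.filter (fun v => v ∈ S ∧ sd G S v = 1)).image (dom G S)

/-- The black dominoes. -/
def BD (S : Finset V) : Finset (Finset V) :=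
  (Finset.univ.filter (fun v => v ∉ S ∧ sd G S v = 1)).image (dom G S)

/-- The white dominoes adjacent to `D`. -/
def ND (S : Finset V) (D : Finset V) : Finset (Finset V) :=
  (WD G S).filter (fun W => ∃ a ∈ D, ∃ w ∈ W, G.Adj a w)

/-- The output of the combinatorial lemma for the dominoes. -/
structure HX (k : ℕ) (S : Finset V) (X Y : Finset (Finset V)) : Prop where
  XW : X ⊆ WD G S
  YB : Y ⊆ BD G S
  mem : ∀ D ∈ BD G S, (D ∈ Y ↔ (ND G S D ∩ X).Nonempty)
  two : ∀ D ∈ Y, (ND G S D).card = 2 ∧ ND G S D ⊆ X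
  card : 3 * k + Y.card ≤ X.card
  inj : ∀ W ∈ X, ∃ μ : Finset V → Finset V, Set.InjOn μ (Y : Set (Finset V)) ∧
    ∀ D ∈ Y, μ D ∈ ND G S D ∧ μ D ≠ W

/-- The active sites: those with domino in `X` and with a partner that is not LL. -/
def actS (S : Finset V) (X : Finset (Finset V)) : Finset V :=
  (sites G S).filter (fun u => dom G S u ∈ X ∧ ∀ v ∈ sm G S u, ∃ b ∈ op G S v, sd G S b = 0)

/-- The tail of a chain, used for the forward slides: `m i` is isolated; for `j > i` the chain is as
in `Chn`; `e` is a site `(y, g)` with partner `e'`. -/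
structure Tl (S : Finset V) (i n : ℕ) (l m w w' : ℕ → V) (y e e' g : V) : Prop where
  hin : i < n
  mS : m i ∉ S
  sm0 : sd G S (m i) = 0
  lS : ∀ j, i < j → j < n → l j ∉ S
  sl : ∀ j, i < j → j < n → sm G S (l j) = {m j}
  sm' : ∀ j, i < j → j < n → sm G S (m j) = {l j}
  wS : ∀ j, i ≤ j → j < n → w j ∈ S
  sw : ∀ j, i ≤ j → j < n → sm G S (w j) = {w' j}
  ow : ∀ j, i ≤ j → j + 1 < n → op G S (w j) = {m j, l (j + 1)}
  oy : op G S (w (n - 1)) = {m (n - 1), y}
  sy : sd G S y = 0
  dl : ∀ j j', i < j → j < n → i ≤ j' → j' < n → j ≠ j' → l j ≠ m j' ∧ m j ≠ m j'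
  dl' : ∀ j j', i < j → j < n → i < j' → j' < n → j ≠ j' → l j ≠ l j'
  dw : ∀ j j', i ≤ j → j < n → i ≤ j' → j' < n → j ≠ j' → w j ≠ w j' ∧ w j ≠ w' j'
  eS : e ∈ S
  se : sm G S e = {e'}
  oe : op G S e = {y, g}
  yg : y ≠ g
  sg : sd G S g = 0
  we : ∀ j, i ≤ j → j < n → w j ≠ e ∧ w' j ≠ e
  gm : ∀ j, i ≤ j → j < n → g ≠ m j
  ym : ∀ j, i ≤ j → j < n → y ≠ m j

end Pool.Agent.Lib.AndoC
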