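import Pool.Agent.Lib.AndoC.SE

/-!
# AndoC.BadCap: no bad caps for (ups, tau) lexicographically least

S level, (|upsA S|, |tauA S|) lexicographically least among all level colourings.  b black, sd b = 0, op S b = {u, q, q'}, q, q' adjacent, u /= q, q'; q = (b, l), sd l = 1, m = l*.  Claim: m has at most one
neighbour in U (m is not the apex of a triangle with a white edge).
PROOF.  Suppose m in tauA S: e, e' in op S m adjacent.  `h : ZL S q q' b l m p` (`zl_of`), T = symmDiff S {q, l}, level.
 not Bad1 S q b m: the members of op S b other than q are u and q'; they are not adjacent: sm S q' = {q}.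
 not Bad2 S m: a in L, e1, e1' in op S a adjacent, m in op S e1: e1 in UN S m, e in UN S m.  e1 = e or adjacent to e (fact1g), so {e1, e1'} = {e, e'} and e1, e1' are both adjacent to a and m: `DL1`: m = a, but a /= m.
 not (l and m adjacent to q'): b and l adjacent to q and q': `DL1` for the triangle l q q': b = l, no.
 So |upsA T| <= |upsA S| (`slide_ups_le`).
 |tauA T| < |tauA S|: tauA T is a subset of tauA S \ {m}: let a in tauA T (a black in T, sd T a = 1, z, z' in op T a adjacent, white in T).  a /= m (sm T m = ∅), a /= q: op T q = {l, q'} (`opw`, v = q'), l adjacent to q'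
   would give b = l by `DL1` for S and the triangle l q q' (b adjacent to q, q').  a /= b: op T b = {u, q'}, not adjacent.  So a is a `rest` vertex (it is black in T: /= l, p, q'), op T a = op S a, z, z' in op S a adjacent,
   a in tauA S.  And m in tauA S.
 Contradiction to the lexicographic minimality.
-/

set_option autoImplicit false
set_option linter.unusedSectionVars false

namespace Pool.Agent.Lib.AndoC

open Pool.Agent.Lib.Ando

variable {V : Type*} [Fintype V] [DecidableEq V] (G : SimpleGraph V) [DecidableRel G.Adj]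

/-- `(ups, tau)` is lexicographically least. -/
def LexMin (k : ℕ) (S : Finset V) : Prop :=
  ∀ T, Level G k T → (upsA G S).card < (upsA G T).card ∨
    ((upsA G S).card = (upsA G T).card ∧ (tauA G S).card ≤ (tauA G T).card)

variable {G} in
theorem no_bad_cap (hG : G.IsRegularOfDegree 3) {k : ℕ} (hD : DL1 G k) (hk : 1 ≤ k)
    {S : Finset V} (hL : Level G k S) (hm : LexMin G k S) {b u q q' l m : V} (hb : b ∉ S)
    (sb : sd G S b = 0) (ob : op G S b = {u, q, q'}) (hq : G.Adj q q') (uq : u ≠ q) (uq' : u ≠ q')
    (oq : op G S q = {b, l}) (sl : sm G S l = {m}) : m ∉ tauA G S := by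
  intro hmt
  obtain ⟨-, mS, sdm, e, he, e', he', hee⟩ := Finset.mem_filter.1 hmt
  have hqb : q ∈ op G S b := by rw [ob]; simp
  have hqb' : q' ∈ op G S b := by rw [ob]; simp
  have hub : u ∈ op G S b := by rw [ob]; simp
  have qS : q ∈ S := StructAux.op_white hb hqb
  have qS' : q' ∈ S := StructAux.op_white hb hqb'
  have uS : u ∈ S := StructAux.op_white hb hub
  have hbq : b ∈ op G S q := by rw [oq]; simp
  have hlq : l ∈ op G S q := by rw [oq]; simp
  have hq's : q' ∈ sm G S q := mem_sm.2 ⟨hq, by simp [qS, qS']⟩
  have hsq : sd G S q = 1 := by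
    have h1 := hL.tf q
    have h2 : 0 < sd G S q := Finset.card_pos.2 ⟨q', hq's⟩
    omega
  have hsl : sd G S l = 1 := by unfold sd; rw [sl]; simp
  obtain ⟨v, m', p, hZ⟩ := zl_of hG qS hsq hbq hlq sb hsl
  have hv : v = q' := by
    have := hZ.sw
    rw [this, Finset.mem_singleton] at hq's
    exact hq's.symm
  have hm' : m' = m := by
    have := hZ.sl
    rw [sl] at this
    exact (Finset.singleton_injective this).symm
  subst hv
  subst hm'
  obtain ⟨pS, hp, vS, smv, -, lS, -, smm, pq, vq, ml, mb, nqm⟩ := third hG hL hk hZ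
  have alq : G.Adj l q := (mem_op.1 (op_symm hlq)).1
  have abq : G.Adj b q := (mem_op.1 hqb).1
  have abv : G.Adj b v := (mem_op.1 hqb').1
  have nlv : ¬ G.Adj l v := by
    intro h
    exact hZ.bl (hD S hL l q v lS hsl qS qS' alq h hq b abq abv)
  have smem : ∀ x y, x ∈ S → y ∈ S → G.Adj x y → y ∈ sm G S x := by
    intro x y hx hy hxy
    exact mem_sm.2 ⟨hxy, by simp [hx, hy]⟩
  have pairb : ∀ x y, x ∈ op G S b → y ∈ op G S b → x ≠ q → y ≠ q → G.Adj x y → False := by
    intro x y hx hy hxq hyq hxy
    rw [ob] at hx hy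
    simp only [Finset.mem_insert, Finset.mem_singleton] at hx hy
    have huv : ¬ G.Adj u v := by
      intro h
      have h1 := smem v u vS uS h.symm
      rw [smv, Finset.mem_singleton] at h1
      exact uq h1
    rcases hx with rfl | rfl | rfl
    · rcases hy with rfl | rfl | rfl
      · exact hxy.ne rfl
      · exact hyq rfl
      · exact huv hxy
    · exact hxq rfl
    · rcases hy with rfl | rfl | rfl
      · exact huv hxy.symm
      · exact hyq rfl
      · exact hxy.ne rfl
  have b1 : ¬ Bad1 G S q b m' := by
    rintro ⟨x, y, hx, hy, hxq, hyq, hxy, -⟩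
    exact pairb x y hx hy hxq hyq hxy
  have eS : e ∈ S := StructAux.op_white mS he
  have eS' : e' ∈ S := StructAux.op_white mS he'
  have ame : G.Adj m' e := (mem_op.1 he).1
  have ame' : G.Adj m' e' := (mem_op.1 he').1
  have omc : op G S m' = {e, e'} := by
    have h1 := sd_add_op hG S m'
    have h2 : ({e, e'} : Finset V) ⊆ op G S m' := by
      intro x hx
      simp only [Finset.mem_insert, Finset.mem_singleton] at hx
      rcases hx with rfl | rfl
      · exact he
      · exact he'
    have h3 : ({e, e'} : Finset V).card = 2 := Finset.card_pair hee.ne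
    exact (Finset.eq_of_subset_of_card_le h2 (by omega)).symm
  have one : ∀ x y z, x ∈ S → y ∈ sm G S x → z ∈ sm G S x → y = z := by
    intro x y z hx hy hz
    exact Finset.card_le_one.1 (hL.tf x) y hy z hz
  have b2 : ¬ Bad2 G S m' := by
    rintro ⟨a, x, y, aS, am, sa, hx, hy, hxy, hmx, -⟩
    have xS : x ∈ S := StructAux.op_white aS hx
    have yS : y ∈ S := StructAux.op_white aS hy
    have hxm : x ∈ op G S m' := op_symm hmx
    have hax : G.Adj a x := (mem_op.1 hx).1
    have hay : G.Adj a y := (mem_op.1 hy).1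
    rw [omc] at hxm
    simp only [Finset.mem_insert, Finset.mem_singleton] at hxm
    rcases hxm with rfl | rfl
    · have h1 : y = e' := one x y e' xS (smem x y xS yS hxy) (smem x e' xS eS' hee)
      subst h1
      exact am (hD S hL m' x y mS sdm xS yS ame ame' hee a hax hay)
    · have h1 : y = e := one x y e xS (smem x y xS yS hxy) (smem x e xS eS hee.symm)
      subst h1
      exact am (hD S hL m' y x mS sdm yS xS ame ame' hee a hay hax)
  have hle := slide_ups_le hG hD hL hk hZ b1 b2 (fun h => nlv h.1)
  have hT := slide_level hG hL hk hZ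
  have hS := slide_desc hG hL hk hZ
  have hsub : tauA G (symmDiff S {q, l}) ⊆ (tauA G S).erase m' := by
    intro a ha
    obtain ⟨-, aT, sa, z, hz, z', hz', hzz⟩ := Finset.mem_filter.1 ha
    have am : a ≠ m' := by
      rintro rfl
      unfold sd at sa
      rw [hS.smm] at sa
      simp at sa
    have al : a ≠ l := fun h => aT (h ▸ hS.lT)
    have ap : a ≠ p := fun h => aT (h ▸ hS.pT)
    have av : a ≠ v := fun h => aT (h ▸ hS.vT)
    have aq : a ≠ q := by
      rintro rfl
      rw [hS.opw] at hz hz'
      simp only [Finset.mem_insert, Finset.mem_singleton] at hz hz'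
      rcases hz with rfl | rfl
      · rcases hz' with rfl | rfl
        · exact hzz.ne rfl
        · exact nlv hzz
      · rcases hz' with rfl | rfl
        · exact nlv hzz.symm
        · exact hzz.ne rfl
    have ab : a ≠ b := by
      rintro rfl
      rw [hS.opb] at hz hz'
      exact pairb z z' (Finset.mem_of_mem_erase hz) (Finset.mem_of_mem_erase hz')
        (Finset.ne_of_mem_erase hz) (Finset.ne_of_mem_erase hz') hzz
    obtain ⟨r1, r2, r3⟩ := hS.rest a aq av ab al am ap
    refine Finset.mem_erase.2 ⟨am, Finset.mem_filter.2 ⟨Finset.mem_univ _, fun h => aT (r1.2 h), ?_,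
      z, r3 ▸ hz, z', r3 ▸ hz', hzz⟩⟩
    unfold sd at sa ⊢
    rw [← r2]
    exact sa
  have hlt : (tauA G (symmDiff S {q, l})).card < (tauA G S).card :=
    (Finset.card_le_card hsub).trans_lt (Finset.card_erase_lt_of_mem hmt)
  rcases hm _ hT with h | ⟨-, h⟩
  · omega
  · omega

variable {G} in
/-- Existence of a lexicographically least level colouring. -/
theorem exists_lexmin {k : ℕ} {S : Finset V} (hL : Level G k S) :
    ∃ T, Level G k T ∧ LexMin G k T := by
  classical
  obtain ⟨T1, h1, m1⟩ := Finset.exists_min_image (Finset.univ.filter (fun T => Level G k T))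
    (fun T => (upsA G T).card) ⟨S, Finset.mem_filter.2 ⟨Finset.mem_univ _, hL⟩⟩
  have h1' : Level G k T1 := (Finset.mem_filter.1 h1).2
  obtain ⟨T2, h2, m2⟩ := Finset.exists_min_image
    (Finset.univ.filter (fun T => Level G k T ∧ (upsA G T).card = (upsA G T1).card))
    (fun T => (tauA G T).card) ⟨T1, Finset.mem_filter.2 ⟨Finset.mem_univ _, h1', rfl⟩⟩
  obtain ⟨-, h3, h4⟩ := Finset.mem_filter.1 h2
  refine ⟨T2, h3, fun T hT => ?_⟩
  have h5 := m1 T (Finset.mem_filter.2 ⟨Finset.mem_univ _, hT⟩)
  rw [h4]
  rcases h5.lt_or_eq with h6 | h6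
  · exact Or.inl h6
  · exact Or.inr ⟨h6, m2 T (Finset.mem_filter.2 ⟨Finset.mem_univ _, hT, h6.symm⟩)⟩

end Pool.Agent.Lib.AndoC
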