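import Pool.Agent.Lib.AndoC.Defs

/-!
# AndoC.Basic: small facts

Conventions as in `AndoC.Defs`.
`zl_of`: w in S, sd w = 1: `sm S w = {v}`, `op S w` has two members (`sd_add_op`); b, l in `op S w` with sd b = 0, sd l = 1 (so b /= l) are these two; `sm S l = {m}`; `op S l` has two members and
 contains w; p is the other one.
`fact1g'`: reformulation of `AndoB.fact1g`: two different members of `UN S l` are partners, for l in L.
`third`: for l in L and w in `UN S l`, the third neighbour p of l (op S l = {w, p}, p /= w): p has sd 0, or p is the partner of w (fact1g).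
`apx_iff`: a is in `upsA S` iff there are z, z', x, x' with `Apx S a z z' x x'`.  (->) sd a = 1, so op a has two members: {z, z'} (z /= z' as adjacent).  z is white, z' in sm z, so sd z = 1
 (`hL.tf`), `op S z` has two members, a and x; x /= x' by `DL1` for S (x adjacent to z and z' would give x = a).
`sites_iff`: u is a site iff u in S, sd u = 1, and both elements of op S u have sd 0 (this is the definition, `mem_sites` of Struct).
-/

set_option autoImplicit false
set_option linter.unusedSectionVars false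

namespace Pool.Agent.Lib.AndoC

open Pool.Agent.Lib.Ando

variable {V : Type*} [Fintype V] [DecidableEq V] (G : SimpleGraph V) [DecidableRel G.Adj]

namespace BasicAux

variable {G} in
/-- A member of `sm S w` for a level colouring is the only one. -/
theorem sm_eq {k : ℕ} {S : Finset V} (hL : Level G k S) {w v : V} (h : v ∈ sm G S w) :
    sm G S w = {v} := by
  have h1 := hL.tf w
  unfold sd at h1
  exact Finset.card_eq_one.1 (le_antisymm h1 (Finset.card_pos.2 ⟨v, h⟩)) |>.elim fun y hy => by
    rw [hy, Finset.mem_singleton] at h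
    rw [hy, h]

variable {G} in
theorem op_card_two (hG : G.IsRegularOfDegree 3) {S : Finset V} {w : V} (sw : sd G S w = 1) :
    (op G S w).card = 2 := by
  have := sd_add_op hG S w
  omega

end BasicAux

open BasicAux

variable {G} in
theorem zl_of (hG : G.IsRegularOfDegree 3) {S : Finset V} {w b l : V}
    (hw : w ∈ S) (sw : sd G S w = 1) (hb : b ∈ op G S w) (hl : l ∈ op G S w) (sb : sd G S b = 0)
    (sl : sd G S l = 1) : ∃ v m p, ZL G S w v b l m p := by
  obtain ⟨v, hv⟩ := StructAux.sd_one sw
  obtain ⟨m, hm⟩ := StructAux.sd_one sl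
  have hbl : b ≠ l := by
    intro h
    rw [h, sl] at sb
    exact one_ne_zero sb
  obtain ⟨y, hy, hby⟩ := StructAux.card_two (op_card_two hG sw) hb
  have hly : l = y := by
    rw [hy, Finset.mem_insert, Finset.mem_singleton] at hl
    rcases hl with h | h
    · exact absurd h.symm hbl
    · exact h
  obtain ⟨p, hp, hwp⟩ := StructAux.card_two (op_card_two hG sl) (op_symm hl)
  exact ⟨v, m, p, ⟨hw, hv, by rw [hy, hly], hbl, sb, hm, hp, hwp.symm⟩⟩

variable {G} in
/-- The third neighbour of `l`. -/
theorem third (hG : G.IsRegularOfDegree 3) {k : ℕ} {S : Finset V} (hL : Level G k S) (hk : 1 ≤ k)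
    {w v b l m p : V} (h : ZL G S w v b l m p) :
    p ∈ S ∧ (sd G S p = 0 ∨ p = v) ∧ v ∈ S ∧ sm G S v = {w} ∧ b ∉ S ∧ l ∉ S ∧ m ∉ S ∧
      sm G S m = {l} ∧ p ≠ w ∧ v ≠ w ∧ m ≠ l ∧ m ≠ b ∧ ¬ G.Adj w m := by
  have hlw : l ∈ op G S w := by rw [h.ow]; simp
  have hbw : b ∈ op G S w := by rw [h.ow]; simp
  have hvw : v ∈ sm G S w := by rw [h.sw]; simp
  have hml : m ∈ sm G S l := by rw [h.sl]; simp
  have hpl : p ∈ op G S l := by rw [h.ol]; simp
  have lS : l ∉ S := StructAux.op_black h.wS hlw
  have bS : b ∉ S := StructAux.op_black h.wS hbw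
  have pS : p ∈ S := StructAux.op_white lS hpl
  have vS : v ∈ S := (mem_sm.1 hvw).2.2 h.wS
  have mS : m ∉ S := fun h' => lS ((mem_sm.1 hml).2.1 h')
  have smv : sm G S v = {w} := sm_eq hL (sm_symm hvw)
  have smm : sm G S m = {l} := sm_eq hL (sm_symm hml)
  have sdw : sd G S w = 1 := by unfold sd; rw [h.sw]; simp
  have sdl : sd G S l = 1 := by unfold sd; rw [h.sl]; simp
  have sdm : sd G S m = 1 := by unfold sd; rw [smm]; simp
  have hvne : v ≠ w := (mem_sm.1 hvw).1.ne'
  have hmne : m ≠ l := (mem_sm.1 hml).1.ne'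
  have hmb : m ≠ b := by
    intro h'
    have := h.sb
    rw [← h', sdm] at this
    exact one_ne_zero this
  refine ⟨pS, ?_, vS, smv, bS, lS, mS, smm, h.pw, hvne, hmne, hmb, ?_⟩
  · by_cases h0 : sd G S p = 0
    · exact Or.inl h0
    · right
      have h1 := hL.tf p
      have hpU : p ∈ UN G S l := StructAux.mem_UN.2 ⟨hpl, by omega⟩
      have hwU : w ∈ UN G S l := StructAux.mem_UN.2 ⟨op_symm hlw, sdw⟩
      have h2 := AndoB.fact1g_sm hG hL hk lS sdl hwU hpU h.pw.symm
      rw [h.sw, Finset.singleton_inj] at h2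
      exact h2.symm
  · intro hadj
    have h3 : m ∈ op G S w := by
      rw [mem_op]
      exact ⟨hadj, fun h' => mS (h'.2 h.wS)⟩
    rw [h.ow, Finset.mem_insert, Finset.mem_singleton] at h3
    rcases h3 with h3 | h3
    · exact hmb h3
    · exact hmne h3

variable {G} in
theorem apx_iff (hG : G.IsRegularOfDegree 3) {k : ℕ} (hD : DL1 G k) {S : Finset V}
    (hL : Level G k S) {a : V} : a ∈ upsA G S ↔ ∃ z z' x x', Apx G S a z z' x x' := by
  unfold upsA
  rw [Finset.mem_filter]
  constructor
  · rintro ⟨-, aS, sa, z, hz, z', hz', hzz, h1, h2⟩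
    have zS : z ∈ S := StructAux.op_white aS hz
    have zS' : z' ∈ S := StructAux.op_white aS hz'
    have hne : z ≠ z' := hzz.ne
    obtain ⟨y, hy, hzy⟩ := StructAux.card_two (op_card_two hG sa) hz
    have hyz : z' = y := by
      have h3 := hz'
      rw [hy, Finset.mem_insert, Finset.mem_singleton] at h3
      rcases h3 with h3 | h3
      · exact absurd h3.symm hne
      · exact h3
    rw [← hyz] at hy
    have hm1 : z' ∈ sm G S z := by
      rw [mem_sm]
      exact ⟨hzz, fun _ => zS, fun _ => zS'⟩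
    have sz : sd G S z = 1 := by unfold sd; rw [sm_eq hL hm1]; simp
    have sz' : sd G S z' = 1 := by unfold sd; rw [sm_eq hL (sm_symm hm1)]; simp
    obtain ⟨x, hx, hax⟩ := StructAux.card_two (op_card_two hG sz) (op_symm hz)
    obtain ⟨x', hx', hax'⟩ := StructAux.card_two (op_card_two hG sz') (op_symm hz')
    have hxz : x ∈ op G S z := by rw [hx]; simp
    have hxz' : x' ∈ op G S z' := by rw [hx']; simp
    refine ⟨z, z', x, x', ⟨aS, sa, hy, hzz, hx, hx', hax, hax', h1 x hxz hax.symm,
      h2 x' hxz' hax'.symm, ?_⟩⟩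
    intro hxx
    rw [← hxx] at hxz'
    exact hax (hD S hL a z z' aS sa zS zS' (mem_op.1 hz).1 (mem_op.1 hz').1 hzz x
      (mem_op.1 (op_symm hxz)).1 (mem_op.1 (op_symm hxz')).1).symm
  · rintro ⟨z, z', x, x', h⟩
    refine ⟨Finset.mem_univ _, h.aS, h.sa, z, by rw [h.oa]; simp, z', by rw [h.oa]; simp, h.zz,
      ?_, ?_⟩
    · intro y hy hya
      rw [h.oz, Finset.mem_insert, Finset.mem_singleton] at hy
      rcases hy with hy | hy
      · exact absurd hy hya
      · rw [hy]; exact h.sx
    · intro y hy hya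
      rw [h.oz', Finset.mem_insert, Finset.mem_singleton] at hy
      rcases hy with hy | hy
      · exact absurd hy hya
      · rw [hy]; exact h.sx'

variable {G} in
theorem Apx.swap {S : Finset V} {a z z' x x' : V} (h : Apx G S a z z' x x') :
    Apx G S a z' z x' x :=
  { aS := h.aS, sa := h.sa, oa := by rw [h.oa, Finset.pair_comm], zz := h.zz.symm, oz := h.oz',
    oz' := h.oz, ax := h.ax', ax' := h.ax, sx := h.sx', sx' := h.sx, xx := h.xx.symm }

variable {G} in
/-- The member `z` of an apex triangle is of type ZL, with third neighbour of the apex `z'`. -/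
theorem Apx.zl (hG : G.IsRegularOfDegree 3) {k : ℕ} {S : Finset V} (hL : Level G k S)
    {a z z' x x' m : V} (h : Apx G S a z z' x x') (hm : sm G S a = {m}) :
    ZL G S z z' x a m z' := by
  have hz : z ∈ op G S a := by rw [h.oa]; simp
  have hz' : z' ∈ op G S a := by rw [h.oa]; simp
  have zS : z ∈ S := StructAux.op_white h.aS hz
  have zS' : z' ∈ S := StructAux.op_white h.aS hz'
  have hm1 : z' ∈ sm G S z := by
    rw [mem_sm]
    exact ⟨h.zz, fun _ => zS, fun _ => zS'⟩
  exact ⟨zS, sm_eq hL hm1, by rw [h.oz, Finset.pair_comm], h.ax.symm, h.sx, hm, h.oa, h.zz.ne'⟩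

end Pool.Agent.Lib.AndoC
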