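import Pool.Agent.Lib.AndoC.Slide

/-!
# AndoC.ChnT: a chain after the slide at its end

Chain l i, m i, w i (i < n) from m 0 to y, n >= 2; `h : ZL S (w (n-1)) (w' (n-1)) y (m (n-1)) (l (n-1)) p`, T = symmDiff S {w (n-1), m (n-1)} (`slide_desc`, `slide_level`; in `Slid` the roles are w = w (n-1),
v = w' (n-1), b = y, l = m (n-1), m = l (n-1)).  Note m i /= m j for i /= j (sm S (m i) = {l i}, dl).
`chn_slide`: Chn T (n-1) l m w w' (l (n-1)).  For i < n - 1:
   l i, m i are `rest` vertices: black, /= y (sd), /= m (n-1), l (n-1) by dl (both orders) and m i /= m j.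
   w i is a `rest` vertex: white; /= w (n-1), w' (n-1) by dw; /= p because m (n-1) is in op S p (p in op S (m (n-1))) but not in op S (w i) = {m i, l (i+1)} (for i + 1 = n - 1: l (n-1) /= m (n-1)).
   oy: op T (w (n-2)) = op S (w (n-2)) = {m (n-2), l (n-1)}; my: dl; sy: sm T (l (n-1)) = ∅.
   ll, i + 1 < n - 1: let u in UN T (m i), b in op T u.  m i is `rest`, so u in op S (m i), white in S, sd T u = 1.  Claim: u is `rest` and sd S u = 1.
     u /= w (n-1): m i in op S (w (n-1)) = {m (n-1), y}, no.  u is white, so /= y, m (n-1), l (n-1).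
     u /= p if sd S p = 0: w i in UN T (m i) (w i, m i are `rest`) and p in UN T (m i), p /= w i, so `AndoB.fact1g` for the level colouring T: adjacent, p in sm T (w i) = sm S (w i) = {w' i}, sd S p = 1, contradiction.
     u /= w' (n-1): in S w i and w' (n-1) are in UN S (m i), different by dw, so adjacent (fact1g), w' (n-1) = w' i, so w i = w (n-1) (partner of w' i), contradiction to dw.  (If p = w' (n-1) this covers p.)
     So u is `rest`: u in UN S (m i), op T u = op S u, sd S b = 1 by ll.  b is `rest`: b black, /= y (sd); b /= l (n-1): otherwise u in UN S (l (n-1)), by fact1g u = w (n-2) or its partner w' (n-2), and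
     u = w i or w' i by fact1g at m i, contradiction to dw (i /= n-2); b /= m (n-1): same with w (n-1).  So sd T b = sd S b = 1.
`nocap_slide`: NoCap T (w (n-2)) (l (n-1)).  op T (l (n-1)) = insert (m (n-1)) (op S (l (n-1))), op S (l (n-1)) has two members (sd = 1), one is w (n-2).  e, e' in op T (l (n-1)), /= w (n-2), adjacent so
   different: one of them is m (n-1); op T (m (n-1)) = {w (n-1), l (n-1)} contains w (n-1), sd T (w (n-1)) = 1, so m (n-1) is not in sites T.
`apx_slide`: if y /= x, x': Apx T (l 0) z z' x x'.  l 0 `rest` (dl, n >= 2); z, z' `rest`: white, /= w (n-1) by hz, /= w' (n-1) (else w (n-1) is the partner z' resp. z), /= p: m (n-1) not in op S z = {l 0, x}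
   (sd x = 0), same z'.  x, x': black, sd 0, so /= m (n-1), l (n-1), and /= y: `rest`.
-/

set_option autoImplicit false
set_option linter.unusedSectionVars false

namespace Pool.Agent.Lib.AndoC

open Pool.Agent.Lib.Ando

variable {V : Type*} [Fintype V] [DecidableEq V] (G : SimpleGraph V) [DecidableRel G.Adj]

namespace ChnTAux

variable {G}

theorem sd_of {S : Finset V} {u v : V} (h : sm G S u = {v}) : sd G S u = 1 := by
  unfold sd
  rw [h, Finset.card_singleton]

theorem back {k : ℕ} {S : Finset V} (hL : Level G k S) {u v : V} (h : sm G S u = {v}) :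
    sm G S v = {u} := by
  have h1 : v ∈ sm G S u := by
    rw [h]
    simp
  have h2 := sm_symm h1
  exact Finset.eq_singleton_iff_unique_mem.2
    ⟨h2, fun x hx => Finset.card_le_one.1 (hL.tf v) x hx u h2⟩

theorem adj_of {S : Finset V} {u v : V} (h : sm G S u = {v}) : G.Adj u v ∧ (v ∈ S ↔ u ∈ S) :=
  mem_sm.1 (by rw [h]; exact Finset.mem_singleton_self _)

/-- two members of `UN` at a vertex of L -/
theorem one (hG : G.IsRegularOfDegree 3) {k : ℕ} {S : Finset V} (hL : Level G k S) (hk : 1 ≤ k)
    {l u w w' : V} (hl : l ∉ S) (sl : sd G S l = 1) (hu : u ∈ UN G S l) (hw : w ∈ UN G S l)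
    (sw : sm G S w = {w'}) : u = w ∨ u = w' := by
  by_cases h : w = u
  · exact Or.inl h.symm
  · right
    have h1 := AndoB.fact1g_sm hG hL hk hl sl hw hu h
    rw [sw, Finset.singleton_inj] at h1
    exact h1.symm

section chain

variable {S : Finset V} {n : ℕ} {l m w w' : ℕ → V} {y : V}

theorem mS (hc : Chn G S n l m w w' y) {i : ℕ} (hi : i < n) : m i ∉ S := fun h =>
  hc.lS i hi ((adj_of (hc.sl i hi)).2.1 h)

theorem w'S (hc : Chn G S n l m w w' y) {i : ℕ} (hi : i < n) : w' i ∈ S :=
  (adj_of (hc.sw i hi)).2.2 (hc.wS i hi)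

theorem lm (hc : Chn G S n l m w w' y) {i : ℕ} (hi : i < n) : l i ≠ m i :=
  (adj_of (hc.sl i hi)).1.ne

theorem mm_ne (hc : Chn G S n l m w w' y) {i j : ℕ} (hi : i < n) (hj : j < n) (hij : i ≠ j) :
    m i ≠ m j := by
  intro h
  have h1 := hc.sm' i hi
  rw [h, hc.sm' j hj, Finset.singleton_inj] at h1
  exact (hc.dl i hi j hj hij).1 h1.symm

theorem ww_ne {k : ℕ} (hL : Level G k S) (hc : Chn G S n l m w w' y) {i j : ℕ} (hi : i < n)
    (hj : j < n) (hij : i ≠ j) : w' i ≠ w' j := by
  intro h
  have h1 := back hL (hc.sw i hi)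
  rw [h, back hL (hc.sw j hj), Finset.singleton_inj] at h1
  exact (hc.dw i hi j hj hij).1 h1.symm

theorem excl {k : ℕ} (hL : Level G k S) (hc : Chn G S n l m w w' y) {i j : ℕ} (hi : i < n)
    (hj : j < n) (hij : i ≠ j) {u : V} (h1 : u = w i ∨ u = w' i) (h2 : u = w j ∨ u = w' j) :
    False := by
  rcases h1 with h1 | h1 <;> rcases h2 with h2 | h2
  · exact (hc.dw i hi j hj hij).1 (h1.symm.trans h2)
  · exact (hc.dw i hi j hj hij).2 (h1.symm.trans h2)
  · exact (hc.dw j hj i hi hij.symm).2 (h2.symm.trans h1)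
  · exact ww_ne hL hc hi hj hij (h1.symm.trans h2)

/-- `m i` is adjacent to `w i` -/
theorem m_op (hc : Chn G S n l m w w' y) {i : ℕ} (hi : i < n) : m i ∈ op G S (w i) := by
  by_cases h : i + 1 < n
  · rw [hc.ow i h]
    simp
  · have h1 : i = n - 1 := by omega
    rw [h1, hc.oy]
    simp

theorem w_UN (hc : Chn G S n l m w w' y) {i : ℕ} (hi : i < n) : w i ∈ UN G S (m i) :=
  StructAux.mem_UN.2 ⟨op_symm (m_op hc hi), sd_of (hc.sw i hi)⟩

theorem w_UN' (hc : Chn G S n l m w w' y) {i : ℕ} (hi : i + 1 < n) : w i ∈ UN G S (l (i + 1)) := by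
  refine StructAux.mem_UN.2 ⟨op_symm ?_, sd_of (hc.sw i (by omega))⟩
  rw [hc.ow i hi]
  simp

theorem yS (hc : Chn G S n l m w w' y) : y ∉ S := by
  have h1 : y ∈ op G S (w (n - 1)) := by
    rw [hc.oy]
    simp
  exact StructAux.op_black (hc.wS _ (by have := hc.hn; omega)) h1

theorem ne_y {x : V} (hc : Chn G S n l m w w' y) (h : sd G S x = 1) : x ≠ y := by
  rintro rfl
  have := hc.sy
  omega

end chain

theorem ne_of_color {S : Finset V} {a b : V} (ha : a ∈ S) (hb : b ∉ S) : a ≠ b := by
  rintro rfl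
  exact hb ha

end ChnTAux

open ChnTAux

variable {G} in
theorem chn_zl (hG : G.IsRegularOfDegree 3) {S : Finset V} {n : ℕ} {l m w w' : ℕ → V} {y : V}
    (hc : Chn G S n l m w w' y) :
    ∃ p, ZL G S (w (n - 1)) (w' (n - 1)) y (m (n - 1)) (l (n - 1)) p := by
  have hn := hc.hn
  have hN : n - 1 < n := by omega
  have hcard : (op G S (m (n - 1))).card = 2 := by
    have h1 := sd_add_op hG S (m (n - 1))
    have h2 := sd_of (hc.sm' _ hN)
    omega
  obtain ⟨p, hp, hne⟩ := StructAux.card_two hcard (op_symm (m_op hc hN))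
  exact ⟨p, ⟨hc.wS _ hN, hc.sw _ hN, by rw [hc.oy, Finset.pair_comm], hc.my.symm, hc.sy,
    hc.sm' _ hN, hp, hne.symm⟩⟩

namespace ChnTAux

variable {G}

/-- the data of the slide at the end of the chain -/
structure SD (S T : Finset V) (n : ℕ) (l m w w' : ℕ → V) (y p : V) : Prop where
  sl : Slid G S T (w (n - 1)) (w' (n - 1)) y (m (n - 1)) (l (n - 1)) p
  pS : p ∈ S
  p0 : sd G S p = 0 ∨ p = w' (n - 1)
  mp : m (n - 1) ∈ op G S p

theorem sd_ex (hG : G.IsRegularOfDegree 3) {k : ℕ} (hk : 1 ≤ k) {S : Finset V}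
    (hL : Level G k S) {n : ℕ} {l m w w' : ℕ → V} {y : V} (hc : Chn G S n l m w w' y) :
    ∃ p, SD (G := G) S (symmDiff S {w (n - 1), m (n - 1)}) n l m w w' y p := by
  obtain ⟨p, hp⟩ := chn_zl hG hc
  have h3 := third hG hL hk hp
  refine ⟨p, slide_desc hG hL hk hp, h3.1, h3.2.1, op_symm ?_⟩
  rw [hp.ol]
  simp

section rest

variable {S T : Finset V} {n : ℕ} {l m w w' : ℕ → V} {y p : V}

/-- a black vertex of monochromatic degree one, different from the last domino -/
theorem rest_black (hc : Chn G S n l m w w' y) (h : SD (G := G) S T n l m w w' y p) {b : V}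
    (hb : b ∉ S) (hby : b ≠ y) (hm : b ≠ m (n - 1)) (hl : b ≠ l (n - 1)) :
    (b ∈ T ↔ b ∈ S) ∧ sm G T b = sm G S b ∧ op G T b = op G S b := by
  have hn := hc.hn
  have hN : n - 1 < n := by omega
  exact h.sl.rest b (ne_of_color (hc.wS _ hN) hb).symm (ne_of_color (w'S hc hN) hb).symm hby hm hl
    (ne_of_color h.pS hb).symm

theorem rest_white (hc : Chn G S n l m w w' y) (h : SD (G := G) S T n l m w w' y p) {u : V}
    (hu : u ∈ S) (h1 : u ≠ w (n - 1)) (h2 : u ≠ w' (n - 1)) (h3 : u ≠ p) :
    (u ∈ T ↔ u ∈ S) ∧ sm G T u = sm G S u ∧ op G T u = op G S u := by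
  have hn := hc.hn
  have hN : n - 1 < n := by omega
  exact h.sl.rest u h1 h2 (ne_of_color hu (yS hc)) (ne_of_color hu (mS hc hN))
    (ne_of_color hu (hc.lS _ hN)) h3

theorem rest_l (hc : Chn G S n l m w w' y) (h : SD (G := G) S T n l m w w' y p) {i : ℕ}
    (hi : i < n - 1) :
    (l i ∈ T ↔ l i ∈ S) ∧ sm G T (l i) = sm G S (l i) ∧ op G T (l i) = op G S (l i) := by
  have hN : n - 1 < n := by omega
  exact rest_black hc h (hc.lS i (by omega)) (ne_y hc (sd_of (hc.sl i (by omega))))
    (hc.dl i (by omega) _ hN (by omega)).2 (hc.dl i (by omega) _ hN (by omega)).1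

theorem rest_m (hc : Chn G S n l m w w' y) (h : SD (G := G) S T n l m w w' y p) {i : ℕ}
    (hi : i < n - 1) :
    (m i ∈ T ↔ m i ∈ S) ∧ sm G T (m i) = sm G S (m i) ∧ op G T (m i) = op G S (m i) := by
  have hN : n - 1 < n := by omega
  exact rest_black hc h (mS hc (by omega)) (ne_y hc (sd_of (hc.sm' i (by omega))))
    (mm_ne hc (by omega) hN (by omega)) (hc.dl _ hN i (by omega) (by omega)).2.symm

theorem wi_ne_p (hc : Chn G S n l m w w' y) (h : SD (G := G) S T n l m w w' y p) {i : ℕ}
    (hi : i < n - 1) : w i ≠ p := by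
  have hN : n - 1 < n := by omega
  intro hp
  have h1 := h.mp
  rw [← hp, hc.ow i (by omega), Finset.mem_insert, Finset.mem_singleton] at h1
  rcases h1 with h1 | h1
  · exact mm_ne hc hN (by omega) (by omega) h1
  · by_cases hi' : i + 1 = n - 1
    · rw [hi'] at h1
      exact lm hc hN h1.symm
    · exact (hc.dl (i + 1) (by omega) _ hN hi').2 h1.symm

theorem rest_w (hc : Chn G S n l m w w' y) (h : SD (G := G) S T n l m w w' y p) {i : ℕ}
    (hi : i < n - 1) :
    (w i ∈ T ↔ w i ∈ S) ∧ sm G T (w i) = sm G S (w i) ∧ op G T (w i) = op G S (w i) := by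
  have hN : n - 1 < n := by omega
  exact rest_white hc h (hc.wS i (by omega)) (hc.dw i (by omega) _ hN (by omega)).1
    (hc.dw i (by omega) _ hN (by omega)).2 (wi_ne_p hc h hi)

end rest

end ChnTAux

variable {G} in
theorem chn_slide (hG : G.IsRegularOfDegree 3) {k : ℕ} (hk : 1 ≤ k) {S : Finset V}
    (hL : Level G k S) {n : ℕ} {l m w w' : ℕ → V} {y : V} (hc : Chn G S n l m w w' y)
    (h2 : 2 ≤ n) :
    Chn G (symmDiff S {w (n - 1), m (n - 1)}) (n - 1) l m w w' (l (n - 1)) := by
  have hN : n - 1 < n := by omega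
  obtain ⟨p, h⟩ := sd_ex hG hk hL hc
  obtain ⟨p', hp'⟩ := chn_zl hG hc
  have hT : Level G k (symmDiff S {w (n - 1), m (n - 1)}) := slide_level hG hL hk hp'
  set T := symmDiff S {w (n - 1), m (n - 1)} with hTdef
  refine
    { hn := by omega
      lS := fun i hi h' => hc.lS i (by omega) ((rest_l hc h hi).1.1 h')
      sl := fun i hi => (rest_l hc h hi).2.1.trans (hc.sl i (by omega))
      sm' := fun i hi => (rest_m hc h hi).2.1.trans (hc.sm' i (by omega))
      wS := fun i hi => (rest_w hc h hi).1.2 (hc.wS i (by omega))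
      sw := fun i hi => (rest_w hc h hi).2.1.trans (hc.sw i (by omega))
      ow := fun i hi => (rest_w hc h (by omega)).2.2.trans (hc.ow i (by omega))
      oy := ?_
      my := (hc.dl _ hN (n - 1 - 1) (by omega) (by omega)).2.symm
      sy := by
        unfold sd
        rw [h.sl.smm, Finset.card_empty]
      dl := fun i hi j hj hij => hc.dl i (by omega) j (by omega) hij
      dw := fun i hi j hj hij => hc.dw i (by omega) j (by omega) hij
      ll := ?_ }
  · have h1 := (rest_w hc h (i := n - 1 - 1) (by omega)).2.2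
    rw [h1, hc.ow (n - 1 - 1) (by omega), Nat.sub_add_cancel (by omega)]
  · intro i hi u hu b hb
    have hin : i < n := by omega
    have hmi := rest_m hc h (i := i) (by omega)
    have hmiS : m i ∉ S := mS hc hin
    have hmiT : m i ∉ T := fun h' => hmiS (hmi.1.1 h')
    have smi : sd G S (m i) = 1 := sd_of (hc.sm' i hin)
    have smiT : sd G T (m i) = 1 := by
      unfold sd
      rw [hmi.2.1]
      exact smi
    have huT := StructAux.mem_UN.1 hu
    have huop : u ∈ op G S (m i) := by
      rw [← hmi.2.2]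
      exact huT.1
    have huS : u ∈ S := StructAux.op_white hmiS huop
    have hmu : m i ∈ op G S u := op_symm huop
    -- `u` is unchanged
    have u1 : u ≠ w (n - 1) := by
      intro hu1
      rw [hu1, hc.oy, Finset.mem_insert, Finset.mem_singleton] at hmu
      rcases hmu with h3 | h3
      · exact mm_ne hc hin hN (by omega) h3
      · exact ne_y hc smi h3
    have u2 : u ≠ w' (n - 1) := by
      intro hu2
      have h3 : u ∈ UN G S (m i) := StructAux.mem_UN.2
        ⟨huop, by rw [hu2]; exact sd_of (back hL (hc.sw _ hN))⟩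
      exact excl hL hc hin hN (by omega)
        (one hG hL hk hmiS smi h3 (w_UN hc hin) (hc.sw i hin)) (Or.inr hu2)
    have u3 : u ≠ p := by
      intro hu3
      rcases h.p0 with h3 | h3
      · have hwT : w i ∈ UN G T (m i) := by
          refine StructAux.mem_UN.2 ⟨?_, ?_⟩
          · rw [hmi.2.2]
            exact (StructAux.mem_UN.1 (w_UN hc hin)).1
          · unfold sd
            rw [(rest_w hc h (i := i) (by omega)).2.1]
            exact sd_of (hc.sw i hin)
        have hne : w i ≠ u := by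
          rw [hu3]
          exact wi_ne_p hc h (by omega)
        have h4 := AndoB.fact1g_sm hG hT hk hmiT smiT hwT hu hne
        rw [(rest_w hc h (i := i) (by omega)).2.1, hc.sw i hin, Finset.singleton_inj] at h4
        have h5 := sd_of (back hL (hc.sw i hin))
        rw [h4, hu3] at h5
        omega
      · exact u2 (hu3.trans h3)
    have hru := rest_white hc h huS u1 u2 u3
    have suS : sd G S u = 1 := by
      have h3 := huT.2
      unfold sd at h3 ⊢
      rw [hru.2.1] at h3
      exact h3
    have huUN : u ∈ UN G S (m i) := StructAux.mem_UN.2 ⟨huop, suS⟩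
    have hwi := one hG hL hk hmiS smi huUN (w_UN hc hin) (hc.sw i hin)
    rw [hru.2.2] at hb
    have sb : sd G S b = 1 := hc.ll i (by omega) u huUN b hb
    have hbS : b ∉ S := StructAux.op_black huS hb
    have hbu : u ∈ op G S b := op_symm hb
    have hrb := rest_black hc h hbS (ne_y hc sb) (by
      rintro rfl
      have h3 : u ∈ UN G S (m (n - 1)) := StructAux.mem_UN.2 ⟨hbu, suS⟩
      exact excl hL hc hin hN (by omega) hwi
        (one hG hL hk (mS hc hN) sb h3 (w_UN hc hN) (hc.sw _ hN))) (by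
      rintro rfl
      have h3 : u ∈ UN G S (l (n - 1)) := StructAux.mem_UN.2 ⟨hbu, suS⟩
      have h4 := w_UN' hc (i := n - 1 - 1) (by omega)
      rw [Nat.sub_add_cancel (by omega)] at h4
      exact excl hL hc hin (j := n - 1 - 1) (by omega) (by omega) hwi
        (one hG hL hk (hc.lS _ hN) sb h3 h4 (hc.sw _ (by omega))))
    unfold sd at sb ⊢
    rw [hrb.2.1]
    exact sb

variable {G} in
theorem nocap_slide (hG : G.IsRegularOfDegree 3) {k : ℕ} (hk : 1 ≤ k) {S : Finset V}
    (hL : Level G k S) {n : ℕ} {l m w w' : ℕ → V} {y : V} (hc : Chn G S n l m w w' y)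
    (h2 : 2 ≤ n) :
    NoCap G (symmDiff S {w (n - 1), m (n - 1)}) (w (n - 1 - 1)) (l (n - 1)) := by
  have hN : n - 1 < n := by omega
  obtain ⟨p, h⟩ := sd_ex hG hk hL hc
  intro e e' he he' hne hne' hadj hsites
  set T := symmDiff S {w (n - 1), m (n - 1)} with hTdef
  have hcard : (op G S (l (n - 1))).card = 2 := by
    have h1 := sd_add_op hG S (l (n - 1))
    have h3 := sd_of (hc.sl _ hN)
    omega
  have h4 := (StructAux.mem_UN.1 (w_UN' hc (i := n - 1 - 1) (by omega))).1
  rw [Nat.sub_add_cancel (by omega)] at h4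
  obtain ⟨r, hr, -⟩ := StructAux.card_two hcard h4
  have hop : op G T (l (n - 1)) = {m (n - 1), w (n - 1 - 1), r} := by
    rw [h.sl.opm, hr]
  have hmem : m (n - 1) ∉ sites G T := by
    intro hs
    have h5 := (StructAux.mem_sites.1 hs).2.2 (w (n - 1)) (by
      rw [h.sl.opl]
      simp)
    have h6 := sd_of h.sl.smw
    omega
  rw [hop] at he he'
  simp only [Finset.mem_insert, Finset.mem_singleton] at he he'
  rcases he with he | he | he
  · exact hmem (he ▸ hsites.1)
  · exact hne he
  · rcases he' with he' | he' | he'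
    · exact hmem (he' ▸ hsites.2)
    · exact hne' he'
    · rw [he, he'] at hadj
      exact G.irrefl hadj

variable {G} in
theorem apx_slide (hG : G.IsRegularOfDegree 3) {k : ℕ} (hk : 1 ≤ k) {S : Finset V}
    (hL : Level G k S) {n : ℕ} {l m w w' : ℕ → V} {y z z' x x' : V}
    (hc : Chn G S n l m w w' y) (h2 : 2 ≤ n) (ha : Apx G S (l 0) z z' x x')
    (hz : ∀ i < n, w i ≠ z ∧ w i ≠ z') (hx : y ≠ x) (hx' : y ≠ x') :
    Apx G (symmDiff S {w (n - 1), m (n - 1)}) (l 0) z z' x x' := by
  have hN : n - 1 < n := by omega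
  obtain ⟨p, h⟩ := sd_ex hG hk hL hc
  set T := symmDiff S {w (n - 1), m (n - 1)} with hTdef
  have hl := rest_l hc h (i := 0) (by omega)
  have hzS : z ∈ S := StructAux.op_white ha.aS (by rw [ha.oa]; simp)
  have hzS' : z' ∈ S := StructAux.op_white ha.aS (by rw [ha.oa]; simp)
  have hzz : z' ∈ sm G S z := mem_sm.2 ⟨ha.zz, by simp [hzS, hzS']⟩
  have hxS : x ∉ S := StructAux.op_black hzS (by rw [ha.oz]; simp)
  have hxS' : x' ∉ S := StructAux.op_black hzS' (by rw [ha.oz']; simp)
  have hml : m (n - 1) ≠ l 0 := (hc.dl 0 (by omega) _ hN (by omega)).2.symm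
  have smN : sd G S (m (n - 1)) = 1 := sd_of (hc.sm' _ hN)
  have slN : sd G S (l (n - 1)) = 1 := sd_of (hc.sl _ hN)
  have hrz := rest_white hc h hzS (hz _ hN).1.symm (by
    intro h3
    have h4 := back hL (hc.sw _ hN)
    rw [← h3] at h4
    rw [h4, Finset.mem_singleton] at hzz
    exact (hz _ hN).2 hzz.symm) (by
    intro h3
    have h4 := h.mp
    rw [← h3, ha.oz, Finset.mem_insert, Finset.mem_singleton] at h4
    rcases h4 with h4 | h4
    · exact hml h4
    · have h5 := ha.sx
      rw [← h4] at h5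
      omega)
  have hrz' := rest_white hc h hzS' (hz _ hN).2.symm (by
    intro h3
    have h4 := back hL (hc.sw _ hN)
    rw [← h3] at h4
    have h5 := sm_symm hzz
    rw [h4, Finset.mem_singleton] at h5
    exact (hz _ hN).1 h5.symm) (by
    intro h3
    have h4 := h.mp
    rw [← h3, ha.oz', Finset.mem_insert, Finset.mem_singleton] at h4
    rcases h4 with h4 | h4
    · exact hml h4
    · have h5 := ha.sx'
      rw [← h4] at h5
      omega)
  have hrx := rest_black hc h hxS hx.symm (by
    intro h3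
    have h5 := ha.sx
    rw [h3] at h5
    omega) (by
    intro h3
    have h5 := ha.sx
    rw [h3] at h5
    omega)
  have hrx' := rest_black hc h hxS' hx'.symm (by
    intro h3
    have h5 := ha.sx'
    rw [h3] at h5
    omega) (by
    intro h3
    have h5 := ha.sx'
    rw [h3] at h5
    omega)
  exact
    { aS := fun h' => ha.aS (hl.1.1 h')
      sa := by
        have := ha.sa
        unfold sd at this ⊢
        rw [hl.2.1]
        exact this
      oa := hl.2.2.trans ha.oa
      zz := ha.zz
      oz := hrz.2.2.trans ha.oz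
      oz' := hrz'.2.2.trans ha.oz'
      ax := ha.ax
      ax' := ha.ax'
      sx := by
        have := ha.sx
        unfold sd at this ⊢
        rw [hrx.2.1]
        exact this
      sx' := by
        have := ha.sx'
        unfold sd at this ⊢
        rw [hrx'.2.1]
        exact this
      xx := ha.xx }

end Pool.Agent.Lib.AndoC
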