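import Pool.Agent.Lib.AndoC.Basic

/-!
# AndoC.NoBad: no obstruction for the slide at the end of a chain

Chain l i, m i, w i (i < n) from m 0 to y; the slide at w (n-1) = (y, m (n-1)) has, in the notation of AndoC.Slide, b = y, l = m (n-1), m = l (n-1).
`chn_no_bad1`: not Bad1 S (w (n-1)) y (l (n-1)).  Let e, e' in op S y, /= w (n-1), adjacent (so both white, partners, sd = 1), the members of op S e, op S e' are y, l (n-1) or have sd 0.
   If l (n-1) is in neither: e, e' are sites (sd y = 0 too): contradicts NoCap.  So (symmetry) l (n-1) in op S e.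
   n = 1: e in op S (l 0) = {z, z'}.  e = z: y in op S z = {l 0, x}, so y = x (sd y = 0); e' is the partner of z, so e' = z'; y in op S z' = {l 0, x'}: y = x'; contradiction to x /= x'.  e = z': same.
   n >= 2, j = n - 2: e and w j in UN S (l (n-1)).  e = w j: y in op S (w j) = {m j, l (n-1)}, but sd y = 0.  e /= w j: `AndoB.fact1g`: e is adjacent to w j, so e' = w j, y in op S (w j), contradiction.
`chn_no_bad2`: not Bad2 S (l (n-1)).  Let a, e, e' be as in Bad2, m = l (n-1).  e in op S (l (n-1)).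
   n = 1: e = z or z', a in op S e, a /= l 0, so a = x or x', but sd a = 1, sd x = sd x' = 0.
   n >= 2, j = n - 2, w j in UN S (l (n-1)), op S (w j) = {m j, l (n-1)}.  e = w j: a = m j; e' in UN S (m j) (sd e' = 1: adjacent to the white vertex e, `Level.tf`); `ll`: all members of op S e' have sd 1, but
    op S e' has two members, one of them /= a, it has sd 0: contradiction.  e /= w j: `fact1g`: e adjacent to w j, e' = w j (one partner), a in op S (w j), a /= l (n-1), a = m j: e, e' are both adjacent to a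
    and to l (n-1): `DL1` for S and the triangle a e e' gives l (n-1) = a, contradiction (a /= l (n-1)).
`chn_no_bad3`: not (m (n-1) and l (n-1) adjacent to w' (n-1)).  Otherwise w' (n-1) in UN S (l (n-1)).  n = 1: w' 0 in op S (l 0) = {z, z'}, so w 0, the partner of w' 0, is z' or z: contradicts hz.
   n >= 2, j = n - 2: w j in UN S (l (n-1)); w' (n-1) = w j contradicts dw (dw (n-2) (n-1): w j /= w' (n-1)); otherwise fact1g: w' (n-1) adjacent to w j, so w j is the partner of w' (n-1), w j = w (n-1), contradicts dw.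
-/

set_option autoImplicit false
set_option linter.unusedSectionVars false

namespace Pool.Agent.Lib.AndoC

open Pool.Agent.Lib.Ando

variable {V : Type*} [Fintype V] [DecidableEq V] (G : SimpleGraph V) [DecidableRel G.Adj]

open Pool.Agent.Lib.Ando.StructAux Pool.Agent.Lib.AndoB

namespace NoBadAux

variable {G} in
theorem sd_of_sm {S : Finset V} {v w : V} (h : sm G S v = {w}) : sd G S v = 1 := by
  unfold sd; rw [h, Finset.card_singleton]

variable {G} in
theorem sm_uniq {S : Finset V} {v a b : V} (h : sd G S v ≤ 1) (ha : a ∈ sm G S v)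
    (hb : b ∈ sm G S v) : a = b := Finset.card_le_one.1 h a ha b hb

variable {G} in
theorem mem_sm_of {S : Finset V} {v w : V} (h : G.Adj v w) (hv : v ∈ S) (hw : w ∈ S) :
    w ∈ sm G S v := mem_sm.2 ⟨h, fun _ => hv, fun _ => hw⟩

variable {G} in
theorem sd_one_of {S : Finset V} {v w : V} (h1 : sd G S v ≤ 1) (h : w ∈ sm G S v) :
    sd G S v = 1 := by
  have h2 : 0 < sd G S v := Finset.card_pos.2 ⟨w, h⟩
  omega

variable {G} in
theorem adj_of_op {S : Finset V} {v w : V} (h : w ∈ op G S v) : G.Adj v w := (mem_op.1 h).1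

variable {G} in
theorem chn_sl {S : Finset V} {n : ℕ} {l m w w' : ℕ → V} {y : V} (hc : Chn G S n l m w w' y)
    {i : ℕ} (hi : i < n) : sd G S (l i) = 1 := sd_of_sm (hc.sl i hi)

variable {G} in
theorem chn_sm {S : Finset V} {n : ℕ} {l m w w' : ℕ → V} {y : V} (hc : Chn G S n l m w w' y)
    {i : ℕ} (hi : i < n) : sd G S (m i) = 1 := sd_of_sm (hc.sm' i hi)

variable {G} in
theorem chn_sw {S : Finset V} {n : ℕ} {l m w w' : ℕ → V} {y : V} (hc : Chn G S n l m w w' y)
    {i : ℕ} (hi : i < n) : sd G S (w i) = 1 := sd_of_sm (hc.sw i hi)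

variable {G} in
theorem chn_prev {S : Finset V} {n : ℕ} {l m w w' : ℕ → V} {y : V} (hc : Chn G S n l m w w' y)
    {j : ℕ} (hj : j + 1 < n) : w j ∈ UN G S (l (j + 1)) := by
  refine mem_UN.2 ⟨?_, chn_sw hc (by omega)⟩
  apply op_symm
  rw [hc.ow j hj]
  simp

variable {G} in
theorem chn_y {S : Finset V} {n : ℕ} {l m w w' : ℕ → V} {y : V} (hc : Chn G S n l m w w' y) :
    y ∉ S := by
  have h : y ∈ op G S (w (n - 1)) := by rw [hc.oy]; simp
  exact op_black (hc.wS _ (by have := hc.hn; omega)) h

variable {G} in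
theorem apx_z {S : Finset V} {a z z' x x' : V} (ha : Apx G S a z z' x x') : z ∈ S :=
  op_white ha.aS (by rw [ha.oa]; simp)

variable {G} in
theorem apx_z' {S : Finset V} {a z z' x x' : V} (ha : Apx G S a z z' x x') : z' ∈ S :=
  op_white ha.aS (by rw [ha.oa]; simp)

/-- `e` adjacent to `y` and to the last `l`. -/
theorem key1a {k : ℕ} {S : Finset V}
    (hL : Level G k S) {n : ℕ} {l m w w' : ℕ → V} {y z z' x x' : V}
    (hc : Chn G S n l m w w' y) (ha : Apx G S (l 0) z z' x x') (h1 : n = 1) {e e' : V}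
    (he : e ∈ op G S y) (he' : e' ∈ op G S y) (hadj : G.Adj e e')
    (hl : e = z) : False := by
  subst hl
  have hy := chn_y hc
  have hsy := hc.sy
  have hl0 : sd G S (l 0) = 1 := chn_sl hc (by omega)
  have heS := apx_z ha
  have heS' : e' ∈ S := op_white hy he'
  have h2 : y ∈ op G S e := op_symm he
  rw [ha.oz, Finset.mem_insert, Finset.mem_singleton] at h2
  have hyx : y = x := by
    rcases h2 with h2 | h2
    · rw [h2] at hsy; omega
    · exact h2
  have h3 : e' = z' := sm_uniq (hL.tf e) (mem_sm_of hadj heS heS')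
    (mem_sm_of ha.zz heS (apx_z' ha))
  subst h3
  have h4 : y ∈ op G S e' := op_symm he'
  rw [ha.oz', Finset.mem_insert, Finset.mem_singleton] at h4
  rcases h4 with h4 | h4
  · rw [h4] at hsy; omega
  · exact ha.xx (hyx.symm.trans h4)

variable {G} in
theorem key1 (hG : G.IsRegularOfDegree 3) {k : ℕ} (hk : 1 ≤ k) {S : Finset V}
    (hL : Level G k S) {n : ℕ} {l m w w' : ℕ → V} {y z z' x x' : V}
    (hc : Chn G S n l m w w' y) (ha : Apx G S (l 0) z z' x x') {e e' : V}
    (he : e ∈ op G S y) (he' : e' ∈ op G S y) (hadj : G.Adj e e')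
    (hl : l (n - 1) ∈ op G S e) : False := by
  have hy := chn_y hc
  have hsy := hc.sy
  have heS : e ∈ S := op_white hy he
  have heS' : e' ∈ S := op_white hy he'
  have hse : sd G S e = 1 := sd_one_of (hL.tf e) (mem_sm_of hadj heS heS')
  have hn1 := hc.hn
  rcases Nat.lt_or_ge 1 n with h1 | h1
  · obtain ⟨j, rfl⟩ : ∃ j, n = j + 2 := ⟨n - 2, by omega⟩
    have e1 : j + 2 - 1 = j + 1 := by omega
    rw [e1] at hl
    have hp := chn_prev hc (j := j) (by omega)
    have hnoy : ∀ u, u = w j → y ∉ op G S u := by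
      rintro u rfl h
      rw [hc.ow j (by omega), Finset.mem_insert, Finset.mem_singleton] at h
      have hm := chn_sm hc (i := j) (by omega)
      have hl' := chn_sl hc (i := j + 1) (by omega)
      rcases h with h | h
      · rw [h] at hsy; omega
      · rw [h] at hsy; omega
    by_cases hew : e = w j
    · exact hnoy e hew (op_symm he)
    · have hu : e ∈ UN G S (l (j + 1)) := mem_UN.2 ⟨op_symm hl, hse⟩
      have hadj2 := fact1g hG hL hk (hc.lS (j + 1) (by omega)) (chn_sl hc (by omega)) hu hp hew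
      have h3 : e' = w j := sm_uniq (hL.tf e) (mem_sm_of hadj heS heS')
        (mem_sm_of hadj2 heS (hc.wS j (by omega)))
      exact hnoy e' h3 (op_symm he')
  · have hn : n = 1 := by omega
    subst hn
    have h2 : e ∈ op G S (l 0) := op_symm hl
    rw [ha.oa, Finset.mem_insert, Finset.mem_singleton] at h2
    rcases h2 with h2 | h2
    · exact key1a G hL hc ha rfl he he' hadj h2
    · exact key1a G hL hc ha.swap rfl he he' hadj h2

end NoBadAux

open NoBadAux

variable {G} in
theorem chn_no_bad1 (hG : G.IsRegularOfDegree 3) {k : ℕ} (hk : 1 ≤ k) {S : Finset V}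
    (hL : Level G k S) {n : ℕ} {l m w w' : ℕ → V} {y z z' x x' : V}
    (hc : Chn G S n l m w w' y) (ha : Apx G S (l 0) z z' x x')
    (hn : NoCap G S (w (n - 1)) y) : ¬ Bad1 G S (w (n - 1)) y (l (n - 1)) := by
  rintro ⟨e, e', he, he', hew, hew', hadj, h1, h2⟩
  have hy := chn_y hc
  have heS : e ∈ S := op_white hy he
  have heS' : e' ∈ S := op_white hy he'
  by_cases hl : l (n - 1) ∈ op G S e
  · exact key1 hG hk hL hc ha he he' hadj hl
  · by_cases hl' : l (n - 1) ∈ op G S e'
    · exact key1 hG hk hL hc ha he' he hadj.symm hl'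
    · refine hn e e' he he' hew hew' hadj ⟨mem_sites.2 ⟨heS, ?_, ?_⟩, mem_sites.2 ⟨heS', ?_, ?_⟩⟩
      · exact sd_one_of (hL.tf e) (mem_sm_of hadj heS heS')
      · intro b hb
        rcases h1 b hb with h | h | h
        · rw [h]; exact hc.sy
        · rw [h] at hb; exact absurd hb hl
        · exact h
      · exact sd_one_of (hL.tf e') (mem_sm_of hadj.symm heS' heS)
      · intro b hb
        rcases h2 b hb with h | h | h
        · rw [h]; exact hc.sy
        · rw [h] at hb; exact absurd hb hl'
        · exact h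

variable {G} in
theorem chn_no_bad2 (hG : G.IsRegularOfDegree 3) {k : ℕ} (hD : DL1 G k) (hk : 1 ≤ k)
    {S : Finset V} (hL : Level G k S) {n : ℕ} {l m w w' : ℕ → V} {y z z' x x' : V}
    (hc : Chn G S n l m w w' y) (ha : Apx G S (l 0) z z' x x') : ¬ Bad2 G S (l (n - 1)) := by
  rintro ⟨a, e, e', haS, ham, hsa, he, he', hadj, hle, h2⟩
  have heS : e ∈ S := op_white haS he
  have heS' : e' ∈ S := op_white haS he'
  have hse : sd G S e = 1 := sd_one_of (hL.tf e) (mem_sm_of hadj heS heS')
  have hse' : sd G S e' = 1 := sd_one_of (hL.tf e') (mem_sm_of hadj.symm heS' heS)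
  have hae : a ∈ op G S e := op_symm he
  have hae' : a ∈ op G S e' := op_symm he'
  have hn1 := hc.hn
  rcases Nat.lt_or_ge 1 n with h1 | h1
  · obtain ⟨j, rfl⟩ : ∃ j, n = j + 2 := ⟨n - 2, by omega⟩
    have e1 : j + 2 - 1 = j + 1 := by omega
    rw [e1] at hle ham
    have hp := chn_prev hc (j := j) (by omega)
    by_cases hew : e = w j
    · rw [hew, hc.ow j (by omega), Finset.mem_insert, Finset.mem_singleton] at hae
      have ham' : a = m j := by
        rcases hae with h | h
        · exact h
        · exact absurd h ham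
      have hll := hc.ll j (by omega) e' (by rw [← ham']; exact mem_UN.2 ⟨he', hse'⟩)
      have hcard : (op G S e').card = 2 := by
        have := sd_add_op hG S e'
        omega
      obtain ⟨b, hb, hab⟩ := card_two hcard hae'
      have hbm : b ∈ op G S e' := by rw [hb]; simp
      have h5 := hll b hbm
      rcases h2 b hbm with h6 | h6
      · exact hab h6.symm
      · omega
    · have hu : e ∈ UN G S (l (j + 1)) := mem_UN.2 ⟨op_symm hle, hse⟩
      have hadj2 := fact1g hG hL hk (hc.lS (j + 1) (by omega)) (chn_sl hc (by omega)) hu hp hew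
      have h3 : e' = w j := sm_uniq (hL.tf e) (mem_sm_of hadj heS heS')
        (mem_sm_of hadj2 heS (hc.wS j (by omega)))
      have hl' : l (j + 1) ∈ op G S e' := by
        rw [h3, hc.ow j (by omega)]; simp
      have h7 := hD S hL a e e' haS hsa heS heS' (adj_of_op he) (adj_of_op he') hadj (l (j + 1))
        (adj_of_op hle).symm (adj_of_op hl').symm
      exact ham h7.symm
  · have hn : n = 1 := by omega
    subst hn
    have h3 : e ∈ op G S (l 0) := op_symm hle
    rw [ha.oa, Finset.mem_insert, Finset.mem_singleton] at h3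
    rcases h3 with h3 | h3
    · rw [h3, ha.oz, Finset.mem_insert, Finset.mem_singleton] at hae
      rcases hae with h | h
      · exact ham h
      · have := ha.sx
        rw [h] at hsa; omega
    · rw [h3, ha.oz', Finset.mem_insert, Finset.mem_singleton] at hae
      rcases hae with h | h
      · exact ham h
      · have := ha.sx'
        rw [h] at hsa; omega

variable {G} in
theorem chn_no_bad3 (hG : G.IsRegularOfDegree 3) {k : ℕ} (hk : 1 ≤ k) {S : Finset V}
    (hL : Level G k S) {n : ℕ} {l m w w' : ℕ → V} {y z z' x x' : V}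
    (hc : Chn G S n l m w w' y) (ha : Apx G S (l 0) z z' x x')
    (hz : ∀ i < n, w i ≠ z ∧ w i ≠ z') :
    ¬ (G.Adj (m (n - 1)) (w' (n - 1)) ∧ G.Adj (l (n - 1)) (w' (n - 1))) := by
  rintro ⟨_, h2⟩
  have hn1 := hc.hn
  have hlt : n - 1 < n := by omega
  have hw1 : w' (n - 1) ∈ sm G S (w (n - 1)) := by rw [hc.sw _ hlt]; simp
  have hwS := hc.wS _ hlt
  have hw'S : w' (n - 1) ∈ S := ((mem_sm.1 hw1).2).2 hwS
  have hw2 : w (n - 1) ∈ sm G S (w' (n - 1)) := sm_symm hw1
  have hs' : sd G S (w' (n - 1)) = 1 := sd_one_of (hL.tf _) hw2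
  have hlS := hc.lS _ hlt
  have hop : w' (n - 1) ∈ op G S (l (n - 1)) :=
    mem_op.2 ⟨h2, fun h => hlS (h.1 hw'S)⟩
  rcases Nat.lt_or_ge 1 n with h1 | h1
  · obtain ⟨j, rfl⟩ : ∃ j, n = j + 2 := ⟨n - 2, by omega⟩
    have e1 : j + 2 - 1 = j + 1 := by omega
    rw [e1] at *
    have hp := chn_prev hc (j := j) (by omega)
    have hdw := hc.dw j (by omega) (j + 1) (by omega) (by omega)
    have hu : w' (j + 1) ∈ UN G S (l (j + 1)) := mem_UN.2 ⟨hop, hs'⟩
    have hadj2 := fact1g hG hL hk hlS (chn_sl hc (by omega)) hu hp (fun h => hdw.2 h.symm)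
    exact hdw.1 (sm_uniq (hL.tf _) (mem_sm_of hadj2 hw'S (hc.wS j (by omega))) hw2)
  · have hn : n = 1 := by omega
    subst hn
    have h3 := hz 0 (by omega)
    rw [ha.oa, Finset.mem_insert, Finset.mem_singleton] at hop
    rcases hop with h | h
    · have h4 : w 0 ∈ sm G S z := by rw [← h]; exact hw2
      exact h3.2 (sm_uniq (hL.tf _) h4 (mem_sm_of ha.zz (apx_z ha) (apx_z' ha)))
    · have h4 : w 0 ∈ sm G S z' := by rw [← h]; exact hw2
      exact h3.1 (sm_uniq (hL.tf _) h4 (mem_sm_of ha.zz.symm (apx_z' ha) (apx_z ha)))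

end Pool.Agent.Lib.AndoC
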