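import Pool.Agent.Lib.AndoC.SE
import Pool.Agent.Lib.AndoC.NoBad
import Pool.Agent.Lib.AndoC.ChnT

/-!
# AndoC.Bwd: a level colouring with least `upsA` has no terminating chain

Induction on n.  `chn_zl`; T = symmDiff S {w (n-1), m (n-1)} is level (`slide_level`); `chn_no_bad1`, `chn_no_bad2`, `chn_no_bad3`.
n = 1: l 0 in upsA S (`apx_iff`), `slide_ups_lt` with a0 = l 0 (the partner m of the slide is l (n-1) = l 0): contradiction to hmin for T.
n >= 2: if y = x or y = x': `slide_ups_lt` with a0 = l 0 (l 0 /= m (n-1) by dl; z resp. z' in op S (l 0) and y in op S z resp. z'): contradiction to hmin.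
   Otherwise `slide_ups_le`: |upsA T| <= |upsA S|, so T satisfies hmin; `chn_slide`, `nocap_slide`, `apx_slide` and the induction hypothesis for n - 1, T, l (n-1).
-/

set_option autoImplicit false
set_option linter.unusedSectionVars false

namespace Pool.Agent.Lib.AndoC

open Pool.Agent.Lib.Ando

variable {V : Type*} [Fintype V] [DecidableEq V] (G : SimpleGraph V) [DecidableRel G.Adj]

variable {G} in
theorem bwd (hG : G.IsRegularOfDegree 3) {k : ℕ} (hD : DL1 G k) (hk : 1 ≤ k)
    {l m w w' : ℕ → V} {z z' x x' : V} :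
    ∀ (n : ℕ) (S : Finset V) (y : V), Level G k S →
      (∀ T, Level G k T → (upsA G S).card ≤ (upsA G T).card) → Chn G S n l m w w' y →
      Apx G S (l 0) z z' x x' → (∀ i < n, w i ≠ z ∧ w i ≠ z') → NoCap G S (w (n - 1)) y →
      False := by
  intro n
  induction n with
  | zero =>
    intro S y _ _ hc
    exact absurd hc.hn (by decide)
  | succ n ih =>
    intro S y hL hmin hc ha hz hn
    obtain ⟨p, hzl⟩ := chn_zl hG hc
    have hT := slide_level hG hL hk hzl
    have hb1 := chn_no_bad1 hG hk hL hc ha hn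
    have hb2 := chn_no_bad2 hG hD hk hL hc ha
    have hb3 := chn_no_bad3 hG hk hL hc ha hz
    have hap : l 0 ∈ upsA G S := (apx_iff hG hD hL).2 ⟨z, z', x, x', ha⟩
    rcases Nat.eq_zero_or_pos n with h0 | h0
    · subst h0
      have := slide_ups_lt hG hD hL hk hzl hb1 hb2 hb3 hap (Or.inl rfl)
      exact absurd (hmin _ hT) (not_le.2 this)
    · have h2 : 2 ≤ n + 1 := by omega
      have hl0 : l 0 ≠ m (n + 1 - 1) := (hc.dl 0 (by omega) (n + 1 - 1) (by omega) (by omega)).2
      by_cases hx : y = x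
      · have hzz : ∃ z1 ∈ op G S (l 0), y ∈ op G S z1 :=
          ⟨z, by rw [ha.oa]; simp, by rw [ha.oz, hx]; simp⟩
        have := slide_ups_lt hG hD hL hk hzl hb1 hb2 hb3 hap (Or.inr ⟨hl0, hzz⟩)
        exact absurd (hmin _ hT) (not_le.2 this)
      by_cases hx' : y = x'
      · have hzz : ∃ z1 ∈ op G S (l 0), y ∈ op G S z1 :=
          ⟨z', by rw [ha.oa]; simp, by rw [ha.oz', hx']; simp⟩
        have := slide_ups_lt hG hD hL hk hzl hb1 hb2 hb3 hap (Or.inr ⟨hl0, hzz⟩)
        exact absurd (hmin _ hT) (not_le.2 this)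
      have hle := slide_ups_le hG hD hL hk hzl hb1 hb2 hb3
      exact ih _ _ hT (fun T' hT' => le_trans hle (hmin T' hT')) (chn_slide hG hk hL hc h2)
        (apx_slide hG hk hL hc h2 ha hz hx hx') (fun i hi => hz i (by omega))
        (nocap_slide hG hk hL hc h2)

end Pool.Agent.Lib.AndoC
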