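import Pool.Agent.Lib.AndoC.HXex

/-!
# AndoC.ChainEx: the chain from an apex triangle in X

(l0; z, z') an apex triangle (`Apx`) with domino {z, z'} = dom S z in X.  mu from `HX.inj` for W = dom S z: injective on Y, mu D in ND D, mu D /= dom S z.
CONSTRUCTION.  l 0 = l0, m i the partner of l i, D_i = {l i, m i}.  D_0 in Y: ND S D_0 contains dom S z in X (`HX.mem`).  Suppose D_i in Y, and the side l i touches the domino W_{i-1} in X, with
 W_{i-1} /= mu D_i (W_{-1} = dom S z).  By `hx_sides` ND S D_i = {W_{i-1}, W_i} with W_i := mu D_i = dom S u for u in UN S (m i).  Choose w i in UN S (m i): of type ZL (some member of op S has sd 0) if there is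
 one, otherwise any.  w' i is its partner, op S (w i) = {m i, q}.
   If sd q = 0: stop with n = i + 1, y = q.  Otherwise sd q = 1: l (i+1) := q; by the choice of w i all members of UN S (m i) are LL (`ll`).  D_{i+1} = {l (i+1), m (i+1)} in Y since W_i in X is in ND S D_{i+1}.
   D_{i+1} /= D_i: l (i+1) /= m i; l (i+1) = l i would give w i in UN S (l i), so its domino is W_{i-1}, but it is W_i.  mu D_{i+1} /= W_i = mu D_i by injectivity.
 All D_i are different: suppose D_i = D_j, i < j, j least.  Then W_i = W_j, and {W_{i-1}, W_i} = ND D_i = ND D_j = {W_{j-1}, W_j}, so W_{i-1} = W_{j-1}.  If i >= 1: mu D_{i-1} = mu D_{j-1}, D_{i-1} = D_{j-1},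
 against the minimality of j.  If i = 0: dom S z = W_{j-1} = mu D_{j-1}, impossible.  So the W_i are different (injectivity of mu on Y), and /= dom S z.  As BD is finite the construction stops.
 dl: D_i /= D_j are disjoint sets.  dw: W_i /= W_j are disjoint sets.  w i /= z, z': W_i /= dom S z.
FORMALISATION.  E.g. prove by induction on N: either there is a stopping chain, or there is a partial chain of length N (all the conditions of `Chn` for indices < N, but the last op S (w (N-1)) = {m (N-1), q} with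
 sd q = 1, D_i in Y, dom S (w i) = mu D_i, the `ll` condition for all i < N, and all D_i different), for N = 0, 1, 2, ...; a partial chain of length |BD| + 1 is impossible.  Extend functions with
 `fun i => if i < N then l i else ..` or `Function.update`.
-/

set_option autoImplicit false
set_option linter.unusedSectionVars false

namespace Pool.Agent.Lib.AndoC

open Pool.Agent.Lib.Ando

variable {V : Type*} [Fintype V] [DecidableEq V] (G : SimpleGraph V) [DecidableRel G.Adj]

namespace ChainExAux

open Classical in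
/-- the partner of a vertex of monochromatic degree one -/
noncomputable def pr (S : Finset V) (v : V) : V :=
  if h : ∃ w, sm G S v = {w} then h.choose else v

open Classical in
/-- a member of `UN`, of type ZL if possible -/
noncomputable def ch (S : Finset V) (m : V) : V :=
  if h : ∃ w, w ∈ UN G S m ∧ ∃ b ∈ op G S w, sd G S b = 0 then h.choose
  else if h' : ∃ w, w ∈ UN G S m then h'.choose else m

open Classical in
/-- the next black vertex -/
noncomputable def nx (S : Finset V) (l : V) : V :=
  if h : ∃ q, op G S (ch G S (pr G S l)) = {pr G S l, q} ∧ pr G S l ≠ q then h.choose else l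

variable {G}

theorem pr_spec {S : Finset V} {v : V} (h : sd G S v = 1) : sm G S v = {pr G S v} := by
  have h1 : ∃ w, sm G S v = {w} := StructAux.sd_one h
  unfold pr
  rw [dif_pos h1]
  exact h1.choose_spec

theorem ch_mem {S : Finset V} {m : V} (h : (UN G S m).Nonempty) : ch G S m ∈ UN G S m := by
  unfold ch
  by_cases h1 : ∃ w, w ∈ UN G S m ∧ ∃ b ∈ op G S w, sd G S b = 0
  · rw [dif_pos h1]
    exact h1.choose_spec.1
  · have h2 : ∃ w, w ∈ UN G S m := h
    rw [dif_neg h1, dif_pos h2]
    exact h2.choose_spec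

theorem ch_ll {S : Finset V} {m : V} (h : ∀ b ∈ op G S (ch G S m), sd G S b ≠ 0) :
    ∀ u ∈ UN G S m, ∀ b ∈ op G S u, sd G S b ≠ 0 := by
  intro u hu b hb h0
  have h1 : ∃ w, w ∈ UN G S m ∧ ∃ b ∈ op G S w, sd G S b = 0 := ⟨u, hu, b, hb, h0⟩
  have h2 : ch G S m = h1.choose := by
    unfold ch
    rw [dif_pos h1]
  obtain ⟨-, b', hb', h0'⟩ := h1.choose_spec
  rw [← h2] at hb'
  exact h b' hb' h0'

theorem nx_spec (hG : G.IsRegularOfDegree 3) {S : Finset V} {l : V}
    (hs : sd G S (ch G S (pr G S l)) = 1) (hm : pr G S l ∈ op G S (ch G S (pr G S l))) :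
    op G S (ch G S (pr G S l)) = {pr G S l, nx G S l} ∧ pr G S l ≠ nx G S l := by
  have hc : (op G S (ch G S (pr G S l))).card = 2 := by
    have := sd_add_op hG S (ch G S (pr G S l))
    omega
  have h1 : ∃ q, op G S (ch G S (pr G S l)) = {pr G S l, q} ∧ pr G S l ≠ q :=
    StructAux.card_two hc hm
  have h2 : nx G S l = h1.choose := by
    unfold nx
    rw [dif_pos h1]
  rw [h2]
  exact h1.choose_spec

/-- the state of the construction -/
structure Inv (S : Finset V) (X Y : Finset (Finset V)) (μ : Finset V → Finset V) (l : V)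
    (W : Finset V) : Prop where
  lS : l ∉ S
  sl : sd G S l = 1
  DY : dom G S l ∈ Y
  touch : ∃ u ∈ UN G S l, dom G S u = W
  ne : W ≠ μ (dom G S l)

/-- the facts at one step -/
structure Fx (S : Finset V) (X : Finset (Finset V)) (μ : Finset V → Finset V) (l : V)
    (W : Finset V) : Prop where
  mS : pr G S l ∉ S
  sm1 : sm G S l = {pr G S l}
  sm2 : sm G S (pr G S l) = {l}
  wU : ch G S (pr G S l) ∈ UN G S (pr G S l)
  wS : ch G S (pr G S l) ∈ S
  sw : sd G S (ch G S (pr G S l)) = 1
  ow : op G S (ch G S (pr G S l)) = {pr G S l, nx G S l}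
  ne : pr G S l ≠ nx G S l
  wμ : dom G S (ch G S (pr G S l)) = μ (dom G S l)
  wX : dom G S (ch G S (pr G S l)) ∈ X
  nd : ND G S (dom G S l) = {W, μ (dom G S l)}

theorem fx (hG : G.IsRegularOfDegree 3) {k : ℕ} (hk : 1 ≤ k) {S : Finset V}
    (hL : Level G k S) {X Y : Finset (Finset V)} (hX : HX G k S X Y) {μ : Finset V → Finset V}
    (hμ : ∀ D ∈ Y, μ D ∈ ND G S D) {l : V} {W : Finset V} (h : Inv (G := G) S X Y μ l W) :
    Fx (G := G) S X μ l W := by
  obtain ⟨m, h1, h2, h3, h4, h5⟩ := DomAux.partner hL h.sl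
  have hm : m = pr G S l := by
    have := pr_spec h.sl
    rw [h1, Finset.singleton_inj] at this
    exact this
  subst hm
  have hmS : pr G S l ∉ S := fun h' => h.lS (h4.1 h')
  have hdom : dom G S l = {l, pr G S l} := DomAux.dom_of G h1
  have hDY : ({l, pr G S l} : Finset V) ∈ Y := hdom ▸ h.DY
  obtain ⟨u', v', hu', hv', huv, huX, hvX, hnd⟩ := hx_sides hG hk hL hX h.lS h1 hDY
  obtain ⟨u, hu, huW⟩ := h.touch
  have e1 : dom G S u' = W := by
    rw [← huW]
    exact nd_one hG hk hL h.lS h.sl hu' hu
  have hwU : ch G S (pr G S l) ∈ UN G S (pr G S l) := ch_mem ⟨v', hv'⟩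
  have e2 : dom G S (ch G S (pr G S l)) = dom G S v' := nd_one hG hk hL hmS h5 hwU hv'
  have hμD := hμ _ h.DY
  rw [hdom, hnd, e1] at hμD
  rw [Finset.mem_insert, Finset.mem_singleton] at hμD
  have e3 : μ (dom G S l) = dom G S v' := by
    rcases hμD with h6 | h6
    · exfalso
      apply h.ne
      rw [hdom, h6]
    · rw [hdom]
      exact h6
  have hwU' := StructAux.mem_UN.1 hwU
  have hwS : ch G S (pr G S l) ∈ S := StructAux.op_white hmS hwU'.1
  obtain ⟨o1, o2⟩ := nx_spec hG hwU'.2 (op_symm hwU'.1)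
  refine ⟨hmS, h1, h2, hwU, hwS, hwU'.2, o1, o2, ?_, ?_, ?_⟩
  · rw [e2, e3]
  · rw [e2]
    exact hvX
  · rw [e3]
    nth_rewrite 1 [hdom]
    rw [hnd, e1]

theorem next (hG : G.IsRegularOfDegree 3) {k : ℕ} (hk : 1 ≤ k) {S : Finset V}
    (hL : Level G k S) {X Y : Finset (Finset V)} (hX : HX G k S X Y) {μ : Finset V → Finset V}
    (hμ : ∀ D ∈ Y, μ D ∈ ND G S D) (hinj : Set.InjOn μ (Y : Set (Finset V))) {l : V}
    {W : Finset V} (h : Inv (G := G) S X Y μ l W) (hs : sd G S (nx G S l) = 1) :
    Inv (G := G) S X Y μ (nx G S l) (dom G S (ch G S (pr G S l))) := by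
  have f := fx hG hk hL hX hμ h
  have hmem : nx G S l ∈ op G S (ch G S (pr G S l)) := by
    rw [f.ow]
    simp
  have hlS : nx G S l ∉ S := StructAux.op_black f.wS hmem
  have hU : ch G S (pr G S l) ∈ UN G S (nx G S l) := StructAux.mem_UN.2 ⟨op_symm hmem, f.sw⟩
  have hBD : dom G S (nx G S l) ∈ BD G S :=
    Finset.mem_image.2 ⟨_, Finset.mem_filter.2 ⟨Finset.mem_univ _, hlS, hs⟩, rfl⟩
  have hdom : dom G S (nx G S l) = {nx G S l, pr G S (nx G S l)} := DomAux.dom_of G (pr_spec hs)
  have hND : dom G S (ch G S (pr G S l)) ∈ ND G S (dom G S (nx G S l)) := by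
    rw [hdom]
    exact (nd_side hL hlS (pr_spec hs)).2 ⟨_, Or.inl hU, rfl⟩
  have hY : dom G S (nx G S l) ∈ Y :=
    (hX.mem _ hBD).2 ⟨_, Finset.mem_inter.2 ⟨hND, f.wX⟩⟩
  refine ⟨hlS, hs, hY, ⟨_, hU, rfl⟩, ?_⟩
  intro heq
  rw [f.wμ] at heq
  have h1 := hinj h.DY hY heq
  have h2 : nx G S l ∈ dom G S l := by
    rw [h1]
    exact DomAux.self_dom G S _
  rw [DomAux.dom_of G f.sm1, Finset.mem_insert, Finset.mem_singleton] at h2
  rcases h2 with h2 | h2
  · rw [h2] at hU
    obtain ⟨u, hu, huW⟩ := h.touch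
    have h3 := nd_one hG hk hL h.lS h.sl hU hu
    rw [huW, f.wμ] at h3
    exact h.ne h3.symm
  · exact f.ne h2.symm

end ChainExAux

open ChainExAux in
variable {G} in
theorem chain_ex (hG : G.IsRegularOfDegree 3) {k : ℕ} (hk : 1 ≤ k) {S : Finset V}
    (hL : Level G k S) {X Y : Finset (Finset V)} (hX : HX G k S X Y) {l0 z z' x x' : V}
    (ha : Apx G S l0 z z' x x') (hz : dom G S z ∈ X) :
    ∃ (n : ℕ) (l m w w' : ℕ → V) (y : V), l 0 = l0 ∧ Chn G S n l m w w' y ∧
      ∀ i < n, w i ≠ z ∧ w i ≠ z' := by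
  obtain ⟨μ, hinj, hμ'⟩ := hX.inj _ hz
  have hμ : ∀ D ∈ Y, μ D ∈ ND G S D := fun D hD => (hμ' D hD).1
  -- the sequences
  let l : ℕ → V := fun i => (nx G S)^[i] l0
  let m : ℕ → V := fun i => pr G S (l i)
  let w : ℕ → V := fun i => ch G S (m i)
  let w' : ℕ → V := fun i => pr G S (w i)
  have hl1 : ∀ i, l (i + 1) = nx G S (l i) := fun i => Function.iterate_succ_apply' _ _ _
  let prev : ℕ → Finset V := fun i => Nat.casesOn i (dom G S z) (fun j => dom G S (w j))
  -- the first state
  have hzl : z ∈ op G S l0 := by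
    rw [ha.oa]
    simp
  have hzl' : z' ∈ op G S l0 := by
    rw [ha.oa]
    simp
  have hzS : z ∈ S := StructAux.op_white ha.aS hzl
  have hzS' : z' ∈ S := StructAux.op_white ha.aS hzl'
  have hzz : z' ∈ sm G S z := mem_sm.2 ⟨ha.zz, by simp [hzS, hzS']⟩
  have sz : sd G S z = 1 := by
    have h1 := hL.tf z
    have h2 : 0 < sd G S z := Finset.card_pos.2 ⟨z', hzz⟩
    omega
  have sz' : sd G S z' = 1 := by
    have h1 := hL.tf z'
    have h2 : 0 < sd G S z' := Finset.card_pos.2 ⟨z, sm_symm hzz⟩
    omega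
  have hdzz : dom G S z' = dom G S z := ((dom_eq hL sz sz').2 (Or.inr hzz)).symm
  have hzU : z ∈ UN G S l0 := StructAux.mem_UN.2 ⟨hzl, sz⟩
  have inv0 : Inv (G := G) S X Y μ (l 0) (prev 0) := by
    have hY : dom G S l0 ∈ Y := by
      have hBD : dom G S l0 ∈ BD G S :=
        Finset.mem_image.2 ⟨_, Finset.mem_filter.2 ⟨Finset.mem_univ _, ha.aS, ha.sa⟩, rfl⟩
      refine (hX.mem _ hBD).2 ⟨dom G S z, Finset.mem_inter.2 ⟨?_, hz⟩⟩
      rw [DomAux.dom_of G (pr_spec ha.sa)]
      exact (nd_side hL ha.aS (pr_spec ha.sa)).2 ⟨z, Or.inl hzU, rfl⟩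
    exact ⟨ha.aS, ha.sa, hY, ⟨z, hzU, rfl⟩, (hμ' _ hY).2.symm⟩
  have inv : ∀ i, (∀ j ≤ i, sd G S (l j) = 1) → Inv (G := G) S X Y μ (l i) (prev i) := by
    intro i
    induction i with
    | zero => exact fun _ => inv0
    | succ i ih =>
      intro hi
      have h1 := ih (fun j hj => hi j (by omega))
      have h2 := hi (i + 1) le_rfl
      rw [hl1] at h2
      have h3 := next hG hk hL hX hμ hinj h1 h2
      rw [← hl1] at h3
      exact h3
  have FX : ∀ i, (∀ j ≤ i, sd G S (l j) = 1) → Fx (G := G) S X μ (l i) (prev i) :=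
    fun i hi => fx hG hk hL hX hμ (inv i hi)
  -- the dominoes are different
  have hdis : ∀ i j, i < j → (∀ j' ≤ j, sd G S (l j') = 1) → dom G S (l i) ≠ dom G S (l j) := by
    intro i
    induction i with
    | zero =>
      intro j hj hs heq
      have f0 := FX 0 (fun j' hj' => hs j' (by omega))
      have fj := FX j hs
      have i0 := inv 0 (fun j' hj' => hs j' (by omega))
      have ij := inv j hs
      obtain ⟨j, rfl⟩ : ∃ j', j = j' + 1 := ⟨j - 1, by omega⟩
      have h1 : ({prev 0, μ (dom G S (l 0))} : Finset (Finset V)) =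
          {prev (j + 1), μ (dom G S (l (j + 1)))} := by
        rw [← f0.nd, ← fj.nd, heq]
      have h2 : prev 0 ∈ ({prev (j + 1), μ (dom G S (l (j + 1)))} : Finset (Finset V)) := by
        rw [← h1]
        simp
      rw [Finset.mem_insert, Finset.mem_singleton, ← heq] at h2
      rcases h2 with h2 | h2
      · have fj' := FX j (fun j' hj' => hs j' (by omega))
        have ij' := inv j (fun j' hj' => hs j' (by omega))
        have h3 : prev (j + 1) = μ (dom G S (l j)) := fj'.wμ
        rw [h3] at h2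
        exact (hμ' _ ij'.DY).2 h2.symm
      · exact i0.ne h2
    | succ i ih =>
      intro j hj hs heq
      obtain ⟨j, rfl⟩ : ∃ j', j = j' + 1 := ⟨j - 1, by omega⟩
      have fi := FX (i + 1) (fun j' hj' => hs j' (by omega))
      have fj := FX (j + 1) hs
      have ii := inv (i + 1) (fun j' hj' => hs j' (by omega))
      have h1 : ({prev (i + 1), μ (dom G S (l (i + 1)))} : Finset (Finset V)) =
          {prev (j + 1), μ (dom G S (l (j + 1)))} := by
        rw [← fi.nd, ← fj.nd, heq]
      have h2 : prev (i + 1) ∈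
          ({prev (j + 1), μ (dom G S (l (j + 1)))} : Finset (Finset V)) := by
        rw [← h1]
        simp
      rw [Finset.mem_insert, Finset.mem_singleton, ← heq] at h2
      rcases h2 with h2 | h2
      · have h3 : prev (i + 1) = μ (dom G S (l i)) :=
          (FX i (fun j' hj' => hs j' (by omega))).wμ
        have h4 : prev (j + 1) = μ (dom G S (l j)) :=
          (FX j (fun j' hj' => hs j' (by omega))).wμ
        rw [h3, h4] at h2
        exact ih j (by omega) (fun j' hj' => hs j' (by omega))
          (hinj (inv i (fun j' hj' => hs j' (by omega))).DY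
            (inv j (fun j' hj' => hs j' (by omega))).DY h2)
      · exact ii.ne h2
  -- the construction stops
  have hstop : ∃ n, sd G S (l n) = 0 := by
    by_contra hcon
    push Not at hcon
    have hall : ∀ j, sd G S (l j) = 1 := by
      intro j
      have h1 := hL.tf (l j)
      have h2 := hcon j
      omega
    have hinj' : Function.Injective (fun i => dom G S (l i)) := by
      intro i j hij
      by_contra hne
      rcases lt_or_gt_of_ne hne with h | h
      · exact hdis i j h (fun j' _ => hall j') hij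
      · exact hdis j i h (fun j' _ => hall j') hij.symm
    exact not_injective_infinite_finite _ hinj'
  classical
  obtain ⟨n, hn, hmin⟩ : ∃ n, sd G S (l n) = 0 ∧ ∀ j < n, sd G S (l j) = 1 := by
    refine ⟨Nat.find hstop, Nat.find_spec hstop, fun j hj => ?_⟩
    have h1 := hL.tf (l j)
    have h2 := Nat.find_min hstop hj
    omega
  have hn1 : 1 ≤ n := by
    by_contra h
    have h0 : n = 0 := by omega
    rw [h0] at hn
    have : sd G S (l 0) = 1 := ha.sa
    omega
  have hlt : ∀ i < n, ∀ j ≤ i, sd G S (l j) = 1 := fun i hi j hj => hmin j (by omega)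
  have hne : ∀ i < n, ∀ j < n, i ≠ j → dom G S (l i) ≠ dom G S (l j) := by
    intro i hi j hj hij heq
    rcases lt_or_gt_of_ne hij with h | h
    · exact hdis i j h (hlt j hj) heq
    · exact hdis j i h (hlt i hi) heq.symm
  have hwne : ∀ i < n, ∀ j < n, i ≠ j → dom G S (w i) ≠ dom G S (w j) := by
    intro i hi j hj hij heq
    have e1 : dom G S (w i) = μ (dom G S (l i)) := (FX i (hlt i hi)).wμ
    have e2 : dom G S (w j) = μ (dom G S (l j)) := (FX j (hlt j hj)).wμ
    rw [e1, e2] at heq
    exact hne i hi j hj hij (hinj (inv i (hlt i hi)).DY (inv j (hlt j hj)).DY heq)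
  have hsw : ∀ i < n, sm G S (w i) = {w' i} := fun i hi => pr_spec (FX i (hlt i hi)).sw
  have hsw' : ∀ i < n, sd G S (w' i) = 1 ∧ dom G S (w' i) = dom G S (w i) := by
    intro i hi
    obtain ⟨v, h1, h2, h3, h4, h5⟩ := DomAux.partner hL (FX i (hlt i hi)).sw
    have hv : v = w' i := by
      have := hsw i hi
      change sm G S (w i) = {v} at h1
      rw [h1, Finset.singleton_inj] at this
      exact this
    subst hv
    refine ⟨h5, ?_⟩
    rw [DomAux.dom_of G h1, DomAux.dom_of G h2, Finset.pair_comm]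
  have hml : ∀ i < n, dom G S (m i) = dom G S (l i) := by
    intro i hi
    rw [DomAux.dom_of G (FX i (hlt i hi)).sm1]
    have h2 : sm G S (m i) = {l i} := (FX i (hlt i hi)).sm2
    rw [DomAux.dom_of G h2, Finset.pair_comm]
  refine ⟨n, l, m, w, w', l n, rfl, ?_, ?_⟩
  · refine
      { hn := hn1
        lS := fun i hi => (inv i (hlt i hi)).lS
        sl := fun i hi => (FX i (hlt i hi)).sm1
        sm' := fun i hi => (FX i (hlt i hi)).sm2
        wS := fun i hi => (FX i (hlt i hi)).wS
        sw := hsw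
        ow := ?_
        oy := ?_
        my := ?_
        sy := hn
        dl := ?_
        dw := ?_
        ll := ?_ }
    · intro i hi
      have := (FX i (hlt i (by omega))).ow
      rw [← hl1] at this
      exact this
    · have := (FX (n - 1) (hlt (n - 1) (by omega))).ow
      rw [← hl1, Nat.sub_add_cancel hn1] at this
      exact this
    · have := (FX (n - 1) (hlt (n - 1) (by omega))).ne
      rw [← hl1, Nat.sub_add_cancel hn1] at this
      exact this
    · intro i hi j hj hij
      refine ⟨fun h => hne i hi j hj hij (by rw [h]), fun h => hne i hi j hj hij ?_⟩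
      rw [h, hml j hj]
    · intro i hi j hj hij
      refine ⟨fun h => hwne i hi j hj hij (by rw [h]), fun h => hwne i hi j hj hij ?_⟩
      rw [h, (hsw' j hj).2]
    · intro i hi u hu b hb
      have f := FX i (hlt i (by omega))
      have h0 : ∀ b ∈ op G S (ch G S (pr G S (l i))), sd G S b ≠ 0 := by
        intro b hb
        rw [f.ow, Finset.mem_insert, Finset.mem_singleton] at hb
        rcases hb with hb | hb
        · rw [hb, DomAux.sd_of G f.sm2]
          norm_num
        · rw [hb, ← hl1, hmin (i + 1) hi]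
          norm_num
      have h1 := ch_ll h0 u hu b hb
      have h2 := hL.tf b
      omega
  · intro i hi
    have e1 : dom G S (w i) = μ (dom G S (l i)) := (FX i (hlt i hi)).wμ
    have e2 := (hμ' _ (inv i (hlt i hi)).DY).2
    rw [← e1] at e2
    refine ⟨fun h => e2 (by rw [h]), fun h => e2 ?_⟩
    rw [h, hdzz]

end Pool.Agent.Lib.AndoC
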