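import Pool.Agent.Lib.AndoC.HXex
import Pool.Agent.Lib.Ando.Card

/-!
# AndoC.CountX: the number of active sites in X

Assume: no apex triangle with both members ZL (`Apx`) has its domino in X (hu).  Then |actS S X| >= 6 k.
Let UX = X.biUnion id: |UX| = 2 |X| (dominoes are disjoint, two elements), all in S, sd = 1.  LY = Y.biUnion id: |LY| = 2 |Y|, black, sd = 1.
For u in UX let aL u = number of members of op S u with sd = 1 (0, 1, 2).  For l in LY let aU l = |UN S l|: it is 1 or 2 (`hx_sides`: nonempty; `AndoB.fact1g_card`), all members in UX.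
(1) sum over UX of aL = sum over LY of aU (double counting of the edges u - l, u in UX, l in LY): for u in UX and l in op S u, sd l = 1: the domino of l is in Y (its ND contains dom u in X), so l in LY; for
    l in LY, u in UN S l: dom u in ND S (dom l), inside X, so u in UX.
(2) Let AP = {l in LY : aU l = 2}; the two members of UN S l are adjacent (fact1g).  So the sum in (1) is 2 |Y| + |AP|.
(3) For l in AP with UN S l = {z, z'}: not both of type ZL (otherwise `Apx S l z z' x x'` with x /= x' by `DL1`, dom z in X, against hu); so one of z, z' has aL = 2 (LL): choose it: phi l.  phi is injective: phi l =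
    phi l' = z with l /= l': z = (l, l'), the partner z' of z is adjacent to l and to l': the edge z z' has the common neighbours l, l': `DL1`.
(4) Let LLX = {u in UX : aL u = 2}, ZX = {u in UX: aL u = 0} = sites with dom in X, BX = {u in ZX: its partner is LL}.  |UX| = |ZX| + (number with aL = 1) + |LLX|, so |ZX| = |UX| - (sum aL) + |LLX| =
    2 |X| - 2 |Y| - |AP| + |LLX| >= 6 k - |AP| + |LLX|.
(5) u -> u* maps BX injectively into LLX \ phi(AP): if u* = phi l then u is the other member z' of UN S l, adjacent to l with sd 1, but u is a site.  So |BX| + |AP| <= |LLX|.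
(6) actS S X = ZX \ BX (partner of u in UX is in UX; it is not LL iff some member of op has sd 0).  |actS| = |ZX| - |BX| >= 6 k - |AP| + |LLX| - |BX| >= 6 k.
-/

set_option autoImplicit false
set_option linter.unusedSectionVars false

namespace Pool.Agent.Lib.AndoC

open Pool.Agent.Lib.Ando

variable {V : Type*} [Fintype V] [DecidableEq V] (G : SimpleGraph V) [DecidableRel G.Adj]

open StructAux CardAux

namespace CountXAux

variable {G} in
theorem mem_dom_self {S : Finset V} {u : V} : u ∈ dom G S u := by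
  unfold dom; exact Finset.mem_insert_self _ _

variable {G} in
theorem dom_pair {S : Finset V} {u v : V} (h : sm G S u = {v}) : dom G S u = {u, v} := by
  unfold dom; rw [h]

variable {G} in
theorem dom_WD {S : Finset V} {u : V} (hu : u ∈ S) (su : sd G S u = 1) : dom G S u ∈ WD G S := by
  unfold WD
  exact Finset.mem_image.2 ⟨u, Finset.mem_filter.2 ⟨Finset.mem_univ _, hu, su⟩, rfl⟩

variable {G} in
theorem dom_BD {S : Finset V} {u : V} (hu : u ∉ S) (su : sd G S u = 1) : dom G S u ∈ BD G S := by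
  unfold BD
  exact Finset.mem_image.2 ⟨u, Finset.mem_filter.2 ⟨Finset.mem_univ _, hu, su⟩, rfl⟩

variable {G} in
/-- The members of a white domino. -/
theorem of_mem_WD {k : ℕ} {S : Finset V} (hL : Level G k S) {W : Finset V} (hW : W ∈ WD G S)
    {u : V} (hu : u ∈ W) : u ∈ S ∧ sd G S u = 1 ∧ dom G S u = W := by
  obtain ⟨a, b, ha, hb, hab, sa, sb, rfl⟩ := (mem_wd hL).1 hW
  rw [Finset.mem_insert, Finset.mem_singleton] at hu
  rcases hu with rfl | rfl
  · exact ⟨ha, by unfold sd; rw [sa]; rfl, dom_pair sa⟩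
  · exact ⟨hb, by unfold sd; rw [sb]; rfl, by rw [dom_pair sb, Finset.pair_comm]⟩

variable {G} in
/-- The members of a black domino. -/
theorem of_mem_BD {k : ℕ} {S : Finset V} (hL : Level G k S) {W : Finset V} (hW : W ∈ BD G S)
    {u : V} (hu : u ∈ W) : u ∉ S ∧ sd G S u = 1 ∧ dom G S u = W := by
  obtain ⟨a, b, ha, hb, hab, sa, sb, rfl⟩ := (mem_bd hL).1 hW
  rw [Finset.mem_insert, Finset.mem_singleton] at hu
  rcases hu with rfl | rfl
  · exact ⟨ha, by unfold sd; rw [sa]; rfl, dom_pair sa⟩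
  · exact ⟨hb, by unfold sd; rw [sb]; rfl, by rw [dom_pair sb, Finset.pair_comm]⟩

variable {G} in
theorem mem_UX {k : ℕ} {S : Finset V} (hL : Level G k S) {X : Finset (Finset V)}
    (hX : X ⊆ WD G S) {u : V} :
    u ∈ X.biUnion id ↔ u ∈ S ∧ sd G S u = 1 ∧ dom G S u ∈ X := by
  rw [Finset.mem_biUnion]
  constructor
  · rintro ⟨W, hW, hu⟩
    obtain ⟨h1, h2, h3⟩ := of_mem_WD hL (hX hW) hu
    exact ⟨h1, h2, h3 ▸ hW⟩
  · rintro ⟨h1, h2, h3⟩
    exact ⟨_, h3, mem_dom_self⟩

variable {G} in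
theorem mem_LY {k : ℕ} {S : Finset V} (hL : Level G k S) {Y : Finset (Finset V)}
    (hY : Y ⊆ BD G S) {u : V} :
    u ∈ Y.biUnion id ↔ u ∉ S ∧ sd G S u = 1 ∧ dom G S u ∈ Y := by
  rw [Finset.mem_biUnion]
  constructor
  · rintro ⟨W, hW, hu⟩
    obtain ⟨h1, h2, h3⟩ := of_mem_BD hL (hY hW) hu
    exact ⟨h1, h2, h3 ▸ hW⟩
  · rintro ⟨h1, h2, h3⟩
    exact ⟨_, h3, mem_dom_self⟩

variable {G} in
theorem card_UX {k : ℕ} {S : Finset V} (hL : Level G k S) {X : Finset (Finset V)}
    (hX : X ⊆ WD G S) : (X.biUnion id).card = 2 * X.card := by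
  rw [Finset.card_biUnion]
  · rw [mul_comm, ← smul_eq_mul, ← Finset.sum_const]
    refine Finset.sum_congr rfl (fun W hW => ?_)
    obtain ⟨a, b, ha, hb, hab, sa, sb, rfl⟩ := (mem_wd hL).1 (hX hW)
    exact Finset.card_pair hab
  · intro W hW W' hW' hne
    refine Finset.disjoint_left.2 (fun u hu hu' => hne ?_)
    rw [← (of_mem_WD hL (hX hW) hu).2.2, ← (of_mem_WD hL (hX hW') hu').2.2]

variable {G} in
theorem card_LY {k : ℕ} {S : Finset V} (hL : Level G k S) {Y : Finset (Finset V)}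
    (hY : Y ⊆ BD G S) : (Y.biUnion id).card = 2 * Y.card := by
  rw [Finset.card_biUnion]
  · rw [mul_comm, ← smul_eq_mul, ← Finset.sum_const]
    refine Finset.sum_congr rfl (fun W hW => ?_)
    obtain ⟨a, b, ha, hb, hab, sa, sb, rfl⟩ := (mem_bd hL).1 (hY hW)
    exact Finset.card_pair hab
  · intro W hW W' hW' hne
    refine Finset.disjoint_left.2 (fun u hu hu' => hne ?_)
    rw [← (of_mem_BD hL (hY hW) hu).2.2, ← (of_mem_BD hL (hY hW') hu').2.2]

variable {G} in
theorem dom_ND {S : Finset V} {l u : V} (hl : l ∉ S) (hu : u ∈ UN G S l) :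
    dom G S u ∈ ND G S (dom G S l) := by
  rw [mem_UN] at hu
  unfold ND
  exact Finset.mem_filter.2 ⟨dom_WD (op_white hl hu.1) hu.2, l, mem_dom_self, u, mem_dom_self,
    (mem_op.1 hu.1).1⟩

variable {G} in
/-- The black neighbours of `X` of monochromatic degree one lie in `Y`. -/
theorem LY_of {k : ℕ} {S : Finset V} {X Y : Finset (Finset V)}
    (hX : HX G k S X Y) {u l : V} (hu : u ∈ S) (su : sd G S u = 1) (dX : dom G S u ∈ X)
    (hl : l ∈ op G S u) (sl : sd G S l = 1) : dom G S l ∈ Y := by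
  have hlS := op_black hu hl
  have h1 : u ∈ UN G S l := mem_UN.2 ⟨op_symm hl, su⟩
  exact (hX.mem _ (dom_BD hlS sl)).2 ⟨_, Finset.mem_inter.2 ⟨dom_ND hlS h1, dX⟩⟩

variable {G} in
theorem UX_of {k : ℕ} {S : Finset V} {X Y : Finset (Finset V)}
    (hX : HX G k S X Y) {u l : V} (hl : l ∉ S) (dY : dom G S l ∈ Y) (hu : u ∈ UN G S l) :
    dom G S u ∈ X :=
  (hX.two _ dY).2 (dom_ND hl hu)

/-- The partner. -/
noncomputable def pt (S : Finset V) (u : V) : V :=
  open Classical in if h : (sm G S u).Nonempty then h.choose else u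

variable {G} in
theorem pt_eq {S : Finset V} {u v : V} (h : sm G S u = {v}) : pt G S u = v := by
  have hne : (sm G S u).Nonempty := by rw [h]; exact Finset.singleton_nonempty _
  unfold pt
  rw [dif_pos hne]
  exact Finset.mem_singleton.1 (by rw [← h]; exact hne.choose_spec)

end CountXAux

open CountXAux

variable {G} in
/-- Step (1), (2). -/
theorem count_edges (hG : G.IsRegularOfDegree 3) {k : ℕ} (hk : 1 ≤ k) {S : Finset V}
    (hL : Level G k S) {X Y : Finset (Finset V)} (hX : HX G k S X Y) :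
    ∑ u ∈ X.biUnion id, ((op G S u).filter (fun a => sd G S a = 1)).card =
      2 * Y.card + ((Y.biUnion id).filter (fun a => (UN G S a).card = 2)).card ∧
    (X.biUnion id).card = 2 * X.card := by
  refine ⟨?_, card_UX hL hX.XW⟩
  have h1 : ∑ u ∈ X.biUnion id, ((op G S u).filter (fun a => sd G S a = 1)).card =
      ∑ l ∈ Y.biUnion id, (UN G S l).card := by
    have key := Finset.sum_card_bipartiteAbove_eq_sum_card_bipartiteBelow
      (s := X.biUnion id) (t := Y.biUnion id) (fun u l => l ∈ op G S u)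
    have e1 : ∀ u ∈ X.biUnion id, (op G S u).filter (fun a => sd G S a = 1) =
        (Y.biUnion id).bipartiteAbove (fun u l => l ∈ op G S u) u := by
      intro u hu
      rw [mem_UX hL hX.XW] at hu
      ext l
      rw [Finset.mem_filter, Finset.mem_bipartiteAbove, mem_LY hL hX.YB]
      constructor
      · rintro ⟨h1, h2⟩
        exact ⟨⟨op_black hu.1 h1, h2, LY_of hX hu.1 hu.2.1 hu.2.2 h1 h2⟩, h1⟩
      · rintro ⟨⟨h1, h2, h3⟩, h4⟩
        exact ⟨h4, h2⟩
    have e2 : ∀ l ∈ Y.biUnion id, UN G S l =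
        (X.biUnion id).bipartiteBelow (fun u l => l ∈ op G S u) l := by
      intro l hl
      rw [mem_LY hL hX.YB] at hl
      ext u
      rw [mem_UN, Finset.mem_bipartiteBelow, mem_UX hL hX.XW]
      constructor
      · rintro ⟨h1, h2⟩
        exact ⟨⟨op_white hl.1 h1, h2, UX_of hX hl.1 hl.2.2 (mem_UN.2 ⟨h1, h2⟩)⟩, op_symm h1⟩
      · rintro ⟨⟨h1, h2, h3⟩, h4⟩
        exact ⟨op_symm h4, h2⟩
    rw [Finset.sum_congr rfl (fun u hu => congrArg Finset.card (e1 u hu)), key,
      Finset.sum_congr rfl (fun l hl => congrArg Finset.card (e2 l hl))]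
  rw [h1, ← card_LY hL hX.YB, Finset.card_eq_sum_ones, Finset.card_filter, ← Finset.sum_add_distrib]
  refine Finset.sum_congr rfl (fun l hl => ?_)
  rw [mem_LY hL hX.YB] at hl
  obtain ⟨m, hm⟩ := sd_one hl.2.1
  have hD : ({l, m} : Finset V) ∈ Y := by rw [← dom_pair hm]; exact hl.2.2
  obtain ⟨u, v, hu, -⟩ := hx_sides hG hk hL hX hl.1 hm hD
  have h2 : 1 ≤ (UN G S l).card := Finset.card_pos.2 ⟨u, hu⟩
  have h3 := AndoB.fact1g_card hG hL hk hl.1 hl.2.1
  split_ifs with h4
  · omega
  · omega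

variable {G} in
theorem countX (hG : G.IsRegularOfDegree 3) {k : ℕ} (hD : DL1 G k) (hk : 1 ≤ k) {S : Finset V}
    (hL : Level G k S) {X Y : Finset (Finset V)} (hX : HX G k S X Y)
    (hu : ∀ a z z' x x', Apx G S a z z' x x' → dom G S z ∉ X) :
    6 * k ≤ (actS G S X).card := by
  classical
  obtain ⟨hE, hUX⟩ := count_edges hG hk hL hX
  set UX := X.biUnion id with hUXdef
  set f : V → ℕ := fun u => ((op G S u).filter (fun a => sd G S a = 1)).card with hf
  set AP := (Y.biUnion id).filter (fun a => (UN G S a).card = 2) with hAP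
  set LLX := UX.filter (fun u => f u = 2) with hLLX
  set ZX := UX.filter (fun u => f u = 0) with hZX
  have hop2 : ∀ u, sd G S u = 1 → (op G S u).card = 2 := by
    intro u hu1
    have := sd_add_op hG S u
    omega
  have hf2 : ∀ u ∈ UX, f u ≤ 2 := by
    intro u hu1
    rw [hUXdef, mem_UX hL hX.XW] at hu1
    exact le_trans (Finset.card_filter_le _ _) (hop2 u hu1.2.1).le
  -- the count of `ZX`
  have hcZ : ZX.card + ∑ u ∈ UX, f u = UX.card + LLX.card := by
    rw [hZX, hLLX, Finset.card_filter, Finset.card_filter, Finset.card_eq_sum_ones UX,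
      ← Finset.sum_add_distrib, ← Finset.sum_add_distrib]
    refine Finset.sum_congr rfl (fun u hu1 => ?_)
    have := hf2 u hu1
    split_ifs <;> omega
  -- facts on `f`
  have hfzero : ∀ u, f u = 0 ↔ ∀ b ∈ op G S u, sd G S b ≠ 1 := by
    intro u
    rw [hf]
    simp only
    rw [Finset.card_eq_zero, Finset.filter_eq_empty_iff]
  have hftwo : ∀ u, sd G S u = 1 → (∀ b ∈ op G S u, sd G S b = 1) → f u = 2 := by
    intro u hu1 hu2
    rw [hf]
    simp only
    rw [Finset.filter_true_of_mem hu2, hop2 u hu1]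
  have hsd : ∀ b, sd G S b ≠ 0 → sd G S b = 1 := by
    intro b hb
    have := hL.tf b
    omega
  -- apexes
  have hAPmem : ∀ l ∈ AP, l ∉ S ∧ sd G S l = 1 ∧ dom G S l ∈ Y ∧ (UN G S l).card = 2 := by
    intro l hl
    rw [hAP, Finset.mem_filter, mem_LY hL hX.YB] at hl
    exact ⟨hl.1.1, hl.1.2.1, hl.1.2.2, hl.2⟩
  have hphi : ∀ l ∈ AP, ∃ z ∈ UN G S l, f z = 2 := by
    intro l hl
    obtain ⟨hlS, sl, dl, cl⟩ := hAPmem l hl
    by_contra hcon
    push Not at hcon
    obtain ⟨z, z', hzz, hUN⟩ := Finset.card_eq_two.1 cl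
    have hz : z ∈ UN G S l := by rw [hUN]; simp
    have hz' : z' ∈ UN G S l := by rw [hUN]; simp
    have hadj := AndoB.fact1g hG hL hk hlS sl hz hz' hzz
    have key : ∀ y ∈ UN G S l, ∃ x, op G S y = {l, x} ∧ l ≠ x ∧ sd G S x = 0 := by
      intro y hy
      have hy1 := (mem_UN.1 hy)
      obtain ⟨x, hx1, hx2⟩ := card_two (hop2 y hy1.2) (op_symm hy1.1)
      refine ⟨x, hx1, hx2, ?_⟩
      by_contra hx3
      refine hcon y hy (hftwo y hy1.2 ?_)
      intro b hb
      rw [hx1, Finset.mem_insert, Finset.mem_singleton] at hb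
      rcases hb with rfl | rfl
      · exact sl
      · exact hsd _ hx3
    obtain ⟨x, ox, lx, sx⟩ := key z hz
    obtain ⟨x', ox', lx', sx'⟩ := key z' hz'
    have hzS := op_white hlS (mem_UN.1 hz).1
    have hzS' := op_white hlS (mem_UN.1 hz').1
    have hopl : op G S l = {z, z'} := by
      rw [← hUN]
      exact (Finset.eq_of_subset_of_card_le (Finset.filter_subset _ _)
        (by rw [hop2 l sl]; exact cl.ge)).symm
    have hxx : x ≠ x' := by
      intro h
      refine lx (hD S hL l z z' hlS sl hzS hzS' (mem_op.1 (mem_UN.1 hz).1).1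
        (mem_op.1 (mem_UN.1 hz').1).1 hadj x ?_ ?_).symm
      · have : x ∈ op G S z := by rw [ox]; simp
        exact (mem_op.1 this).1.symm
      · have : x ∈ op G S z' := by rw [ox', h]; simp
        exact (mem_op.1 this).1.symm
    exact hu l z z' x x' ⟨hlS, sl, hopl, hadj, ox, ox', lx, lx', sx, sx', hxx⟩
      (UX_of hX hlS dl hz)
  set phi : V → V := fun l => if h : ∃ z ∈ UN G S l, f z = 2 then h.choose else l with hphidef
  have hphi2 : ∀ l ∈ AP, phi l ∈ UN G S l ∧ f (phi l) = 2 := by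
    intro l hl
    have h := hphi l hl
    have e : phi l = h.choose := by
      rw [hphidef]
      simp only
      rw [dif_pos h]
    rw [e]
    exact h.choose_spec
  have hphiL : ∀ l ∈ AP, phi l ∈ LLX := by
    intro l hl
    obtain ⟨hlS, sl, dl, cl⟩ := hAPmem l hl
    obtain ⟨h1, h2⟩ := hphi2 l hl
    rw [hLLX, Finset.mem_filter, hUXdef, mem_UX hL hX.XW]
    exact ⟨⟨op_white hlS (mem_UN.1 h1).1, (mem_UN.1 h1).2, UX_of hX hlS dl h1⟩, h2⟩
  -- the other member
  have hother : ∀ l ∈ AP, ∀ z ∈ UN G S l, ∃ z1, z1 ∈ UN G S l ∧ sm G S z = {z1} ∧ z ≠ z1 := by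
    intro l hl z hz
    obtain ⟨hlS, sl, dl, cl⟩ := hAPmem l hl
    obtain ⟨z1, hz1, hne⟩ := card_two cl hz
    have hz1' : z1 ∈ UN G S l := by rw [hz1]; simp
    exact ⟨z1, hz1', AndoB.fact1g_sm hG hL hk hlS sl hz hz1' hne, hne⟩
  have hphinj : Set.InjOn phi (AP : Set V) := by
    intro l hl l' hl' heq
    rw [Finset.mem_coe] at hl hl'
    obtain ⟨hlS, sl, dl, cl⟩ := hAPmem l hl
    obtain ⟨hlS', sl', dl', cl'⟩ := hAPmem l' hl'
    obtain ⟨h1, h2⟩ := hphi2 l hl
    obtain ⟨h1', h2'⟩ := hphi2 l' hl'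
    rw [← heq] at h1'
    obtain ⟨z1, m1, s1, n1⟩ := hother l hl _ h1
    obtain ⟨z2, m2, s2, n2⟩ := hother l' hl' _ h1'
    rw [s1, Finset.singleton_inj] at s2
    subst s2
    have hz := op_white hlS (mem_UN.1 h1).1
    have hz1 := op_white hlS (mem_UN.1 m1).1
    have hadj : G.Adj (phi l) z1 := by
      have : z1 ∈ sm G S (phi l) := by rw [s1]; simp
      exact (mem_sm.1 this).1
    exact (hD S hL l (phi l) z1 hlS sl hz hz1 (mem_op.1 (mem_UN.1 h1).1).1
      (mem_op.1 (mem_UN.1 m1).1).1 hadj l' (mem_op.1 (mem_UN.1 h1').1).1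
      (mem_op.1 (mem_UN.1 m2).1).1).symm
  -- the sites with an LL partner
  set P : V → Prop := fun u => ∀ v ∈ sm G S u, ∃ b ∈ op G S v, sd G S b = 0 with hP
  set BX := ZX.filter (fun u => ¬ P u) with hBX
  have hZXmem : ∀ u, u ∈ ZX ↔ u ∈ S ∧ sd G S u = 1 ∧ dom G S u ∈ X ∧ f u = 0 := by
    intro u
    rw [hZX, Finset.mem_filter, hUXdef, mem_UX hL hX.XW]
    tauto
  have hact : actS G S X = ZX.filter P := by
    ext u
    unfold actS
    rw [Finset.mem_filter, Finset.mem_filter, mem_sites, hZXmem, hfzero]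
    constructor
    · rintro ⟨⟨h1, h2, h3⟩, h4, h5⟩
      exact ⟨⟨h1, h2, h4, fun b hb => by rw [h3 b hb]; decide⟩, h5⟩
    · rintro ⟨⟨h1, h2, h3, h4⟩, h5⟩
      refine ⟨⟨h1, h2, fun b hb => ?_⟩, h3, h5⟩
      by_contra h6
      exact h4 b hb (hsd b h6)
  have hsplit : (actS G S X).card + BX.card = ZX.card := by
    rw [hact, hBX]
    exact Finset.card_filter_add_card_filter_not P
  have hBXL : ∀ u ∈ BX, pt G S u ∈ LLX ∧ pt G S u ∉ AP.image phi := by
    intro u hu1
    rw [hBX, Finset.mem_filter, hZXmem] at hu1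
    obtain ⟨⟨uS, su, dX, fu⟩, nP⟩ := hu1
    obtain ⟨v, hv⟩ := sd_one su
    rw [pt_eq hv]
    have hvm : v ∈ sm G S u := by rw [hv]; simp
    have hvS := sm_white uS hvm
    have sv := sm_sd hL hvm
    have nv : ∀ b ∈ op G S v, sd G S b = 1 := by
      intro b hb
      apply hsd
      intro h0
      apply nP
      rw [hP]
      intro v' hv'
      rw [hv, Finset.mem_singleton] at hv'
      subst hv'
      exact ⟨b, hb, h0⟩
    have dv : dom G S v ∈ X := by
      rw [(dom_eq hL sv su).2 (Or.inr (sm_symm hvm))]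
      exact dX
    refine ⟨?_, ?_⟩
    · rw [hLLX, Finset.mem_filter, hUXdef, mem_UX hL hX.XW]
      exact ⟨⟨hvS, sv, dv⟩, hftwo v sv nv⟩
    · intro hmem
      obtain ⟨l, hl, hlv⟩ := Finset.mem_image.1 hmem
      obtain ⟨hlS, sl, dl, cl⟩ := hAPmem l hl
      obtain ⟨h1, h2⟩ := hphi2 l hl
      rw [hlv] at h1
      obtain ⟨z1, m1, s1, n1⟩ := hother l hl v h1
      have : u ∈ sm G S v := sm_symm hvm
      rw [s1, Finset.mem_singleton] at this
      subst this
      exact (hfzero u).1 fu l (op_symm (mem_UN.1 m1).1) sl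
  have hptinj : Set.InjOn (pt G S) (BX : Set V) := by
    intro u hu1 u' hu1' heq
    rw [Finset.mem_coe, hBX, Finset.mem_filter, hZXmem] at hu1 hu1'
    obtain ⟨v, hv⟩ := sd_one hu1.1.2.1
    obtain ⟨v', hv'⟩ := sd_one hu1'.1.2.1
    rw [pt_eq hv, pt_eq hv'] at heq
    subst heq
    have h1 : u ∈ sm G S v := sm_symm (by rw [hv]; simp)
    have h2 : u' ∈ sm G S v := sm_symm (by rw [hv']; simp)
    exact Finset.card_le_one.1 (hL.tf v) u h1 u' h2
  have hfin : BX.card + AP.card ≤ LLX.card := by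
    rw [← Finset.card_image_of_injOn hptinj, ← Finset.card_image_of_injOn hphinj,
      ← Finset.card_union_of_disjoint]
    · apply Finset.card_le_card
      intro v hv
      rw [Finset.mem_union, Finset.mem_image, Finset.mem_image] at hv
      rcases hv with ⟨u, hu1, rfl⟩ | ⟨l, hl, rfl⟩
      · exact (hBXL u hu1).1
      · exact hphiL l hl
    · refine Finset.disjoint_left.2 (fun v hv hv' => ?_)
      obtain ⟨u, hu1, rfl⟩ := Finset.mem_image.1 hv
      exact (hBXL u hu1).2 hv'
  have hc := hX.card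
  have hE' : ∑ u ∈ UX, f u = 2 * Y.card + AP.card := hE
  omega

end Pool.Agent.Lib.AndoC
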