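import Pool.Agent.Lib.AndoC.Fwd
import Pool.Agent.Lib.AndoC.Bwd
import Pool.Agent.Lib.AndoC.ChainEx
import Pool.Agent.Lib.AndoC.CountX

/-!
# AndoC.Count: the count lemma
-/

set_option autoImplicit false
set_option linter.unusedSectionVars false

namespace Pool.Agent.Lib.AndoC

open Pool.Agent.Lib.Ando

variable {V : Type*} [Fintype V] [DecidableEq V] (G : SimpleGraph V) [DecidableRel G.Adj]

variable {G} in
/-- **The count lemma.**  Let `S` be a level colouring with least number of triangles with one
black vertex of monochromatic degree one and two white vertices of type ZL.  There is a set `X` of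
white dominoes (`HX`) such that at least `6 * k` sites have their domino in `X` and a partner
which is not of type LL. -/
theorem count_main (hG : G.IsRegularOfDegree 3) {k : ℕ} (hD : DL1 G k) (hk : 1 ≤ k)
    (hA : NoTriple G k) {S : Finset V} (hL : Level G k S)
    (hmin : ∀ T, Level G k T → (upsA G S).card ≤ (upsA G T).card) :
    ∃ X Y, HX G k S X Y ∧ 6 * k ≤ (actS G S X).card := by
  obtain ⟨X, Y, hX⟩ := exists_HX hG hk hL
  refine ⟨X, Y, hX, countX hG hD hk hL hX ?_⟩
  intro a z z' x x' ha hz
  obtain ⟨n, l, m, w, w', y, hl0, hc, hzz⟩ := chain_ex hG hk hL hX ha hz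
  subst hl0
  exact bwd hG hD hk n S y hL hmin hc ha hzz (fwd hG hk hA hL hc ha hzz)

end Pool.Agent.Lib.AndoC
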