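import Pool.Agent.Lib.AndoC.Basic

/-!
# AndoC.Dom: dominoes

All sd <= 1 (`hL.tf`).
`mem_wd`: W in WD S iff W = {u, u*} for a white u with sd = 1, i.e. there are u, v with u in S, sm S u = {v} (then v in S, sm S v = {u}, u /= v) and W = {u, v}.  Same for `mem_bd`.
`dom_eq`: dom S u = dom S v iff v = u or v in sm S u (for sd u = sd v = 1).
`wd_card`: 2 * |WD| = number of white vertices with sd 1 (`Finset.card_eq_sum_card_image` / the fibres of `dom` have two elements).  Same `bd_card`.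
`wd_bd`: |WD| = |BD| + 3 k: `sum_sd_sub` and `imb S = 2 k`: sum over S of sd - sum over Sᶜ of sd = 6 k, sd in {0, 1}.
`nd_side`: D = {l, m} a black domino: W in ND S D iff W = dom S u for a u in UN S l or in UN S m.
`nd_one`: for l in L two members of UN S l have the same domino (fact1g).
`nd_card`: so |ND S D| <= 2 for D in BD.
-/

set_option autoImplicit false
set_option linter.unusedSectionVars false

namespace Pool.Agent.Lib.AndoC

open Pool.Agent.Lib.Ando

variable {V : Type*} [Fintype V] [DecidableEq V] (G : SimpleGraph V) [DecidableRel G.Adj]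

namespace DomAux

variable {G} in
theorem partner {k : ℕ} {S : Finset V} (hL : Level G k S) {v : V} (h : sd G S v = 1) :
    ∃ w, sm G S v = {w} ∧ sm G S w = {v} ∧ v ≠ w ∧ (w ∈ S ↔ v ∈ S) ∧ sd G S w = 1 := by
  obtain ⟨w, hw⟩ := StructAux.sd_one h
  have hm : w ∈ sm G S v := by rw [hw]; exact Finset.mem_singleton_self _
  have hm' := sm_symm hm
  have hc : (sm G S w).card ≤ 1 := hL.tf w
  have hw' : sm G S w = {v} :=
    Finset.eq_singleton_iff_unique_mem.2
      ⟨hm', fun x hx => Finset.card_le_one.1 hc x hx v hm'⟩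
  refine ⟨w, hw, hw', (mem_sm.1 hm).1.ne, (mem_sm.1 hm).2, ?_⟩
  unfold sd
  rw [hw', Finset.card_singleton]

theorem dom_of {S : Finset V} {u v : V} (h : sm G S u = {v}) : dom G S u = {u, v} := by
  unfold dom
  rw [h]

theorem sd_of {S : Finset V} {u v : V} (h : sm G S u = {v}) : sd G S u = 1 := by
  unfold sd
  rw [h, Finset.card_singleton]

theorem self_dom (S : Finset V) (u : V) : u ∈ dom G S u := Finset.mem_insert_self _ _

variable {G} in
theorem mem_of_sm {S : Finset V} {u v : V} (h : sm G S u = {v}) : G.Adj u v ∧ (v ∈ S ↔ u ∈ S) :=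
  mem_sm.1 (by rw [h]; exact Finset.mem_singleton_self _)

variable {G} in
theorem dom_card {k : ℕ} {S : Finset V} (hL : Level G k S) (A : Finset V)
    (hA : ∀ v ∈ A, sd G S v = 1) (hc : ∀ v ∈ A, ∀ w ∈ sm G S v, w ∈ A) :
    2 * (A.image (dom G S)).card = A.card := by
  rw [Finset.card_eq_sum_card_image (dom G S) A, Finset.sum_const_nat (m := 2), mul_comm]
  intro W hW
  obtain ⟨u, hu, rfl⟩ := Finset.mem_image.1 hW
  obtain ⟨v, h1, h2, h3, -, h5⟩ := partner hL (hA u hu)
  have hv : v ∈ A := hc u hu v (by rw [h1]; exact Finset.mem_singleton_self _)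
  have : A.filter (fun a => dom G S a = dom G S u) = {u, v} := by
    ext x
    rw [Finset.mem_filter, Finset.mem_insert, Finset.mem_singleton]
    constructor
    · rintro ⟨-, hx⟩
      have := self_dom G S x
      rw [hx, dom_of G h1, Finset.mem_insert, Finset.mem_singleton] at this
      exact this
    · rintro (rfl | rfl)
      · exact ⟨hu, rfl⟩
      · exact ⟨hv, by rw [dom_of G h1, dom_of G h2, Finset.pair_comm]⟩
  rw [this, Finset.card_pair h3]

end DomAux

open DomAux

variable {G} in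
theorem mem_wd {k : ℕ} {S : Finset V} (hL : Level G k S) {W : Finset V} :
    W ∈ WD G S ↔ ∃ u v, u ∈ S ∧ v ∈ S ∧ u ≠ v ∧ sm G S u = {v} ∧ sm G S v = {u} ∧ W = {u, v} := by
  unfold WD
  rw [Finset.mem_image]
  constructor
  · rintro ⟨u, hu, rfl⟩
    rw [Finset.mem_filter] at hu
    obtain ⟨v, h1, h2, h3, h4, -⟩ := partner hL hu.2.2
    exact ⟨u, v, hu.2.1, h4.2 hu.2.1, h3, h1, h2, dom_of G h1⟩
  · rintro ⟨u, v, hu, -, -, h1, -, rfl⟩
    exact ⟨u, Finset.mem_filter.2 ⟨Finset.mem_univ _, hu, sd_of G h1⟩, dom_of G h1⟩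

variable {G} in
theorem mem_bd {k : ℕ} {S : Finset V} (hL : Level G k S) {W : Finset V} :
    W ∈ BD G S ↔ ∃ u v, u ∉ S ∧ v ∉ S ∧ u ≠ v ∧ sm G S u = {v} ∧ sm G S v = {u} ∧ W = {u, v} := by
  unfold BD
  rw [Finset.mem_image]
  constructor
  · rintro ⟨u, hu, rfl⟩
    rw [Finset.mem_filter] at hu
    obtain ⟨v, h1, h2, h3, h4, -⟩ := partner hL hu.2.2
    exact ⟨u, v, hu.2.1, fun h => hu.2.1 (h4.1 h), h3, h1, h2, dom_of G h1⟩
  · rintro ⟨u, v, hu, -, -, h1, -, rfl⟩
    exact ⟨u, Finset.mem_filter.2 ⟨Finset.mem_univ _, hu, sd_of G h1⟩, dom_of G h1⟩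

variable {G} in
theorem dom_eq {k : ℕ} {S : Finset V} (hL : Level G k S) {u v : V} (hu : sd G S u = 1)
    (hv : sd G S v = 1) : dom G S u = dom G S v ↔ (v = u ∨ v ∈ sm G S u) := by
  obtain ⟨u', h1, h2, h3, -, -⟩ := partner hL hu
  constructor
  · intro h
    have := self_dom G S v
    rw [← h, dom_of G h1, Finset.mem_insert, Finset.mem_singleton] at this
    rw [h1, Finset.mem_singleton]
    exact this
  · rintro (rfl | h)
    · rfl
    · rw [h1, Finset.mem_singleton] at h
      subst h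
      rw [dom_of G h1, dom_of G h2, Finset.pair_comm]

variable {G} in
theorem wd_card {k : ℕ} {S : Finset V} (hL : Level G k S) :
    2 * (WD G S).card = (Finset.univ.filter (fun v => v ∈ S ∧ sd G S v = 1)).card := by
  refine dom_card hL _ (fun v hv => (Finset.mem_filter.1 hv).2.2) (fun v hv w hw => ?_)
  rw [Finset.mem_filter] at hv
  obtain ⟨v', h1, h2, h3, h4, h5⟩ := partner hL hv.2.2
  rw [h1, Finset.mem_singleton] at hw
  subst hw
  exact Finset.mem_filter.2 ⟨Finset.mem_univ _, h4.2 hv.2.1, h5⟩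

variable {G} in
theorem bd_card {k : ℕ} {S : Finset V} (hL : Level G k S) :
    2 * (BD G S).card = (Finset.univ.filter (fun v => v ∉ S ∧ sd G S v = 1)).card := by
  refine dom_card hL _ (fun v hv => (Finset.mem_filter.1 hv).2.2) (fun v hv w hw => ?_)
  rw [Finset.mem_filter] at hv
  obtain ⟨v', h1, h2, h3, h4, h5⟩ := partner hL hv.2.2
  rw [h1, Finset.mem_singleton] at hw
  subst hw
  exact Finset.mem_filter.2 ⟨Finset.mem_univ _, fun h => hv.2.1 (h4.1 h), h5⟩

variable {G} in
theorem wd_bd (hG : G.IsRegularOfDegree 3) {k : ℕ} {S : Finset V} (hL : Level G k S) :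
    (WD G S).card = (BD G S).card + 3 * k := by
  have h1 := sum_sd_sub hG S
  have h2 : ∀ A : Finset V, ∑ v ∈ A, (sd G S v : ℤ) =
      ((A.filter (fun v => sd G S v = 1)).card : ℤ) := by
    intro A
    rw [Finset.card_filter, Nat.cast_sum]
    refine Finset.sum_congr rfl fun v _ => ?_
    have := hL.tf v
    split_ifs with h
    · rw [h]
    · have : sd G S v = 0 := by omega
      rw [this]
  rw [h2, h2, hL.imb_eq] at h1
  have h3 := wd_card hL
  have h4 := bd_card hL
  have e1 : Finset.univ.filter (fun v => v ∈ S ∧ sd G S v = 1) =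
      S.filter (fun v => sd G S v = 1) := by
    ext v; simp
  have e2 : Finset.univ.filter (fun v => v ∉ S ∧ sd G S v = 1) =
      Sᶜ.filter (fun v => sd G S v = 1) := by
    ext v; simp
  rw [e1] at h3
  rw [e2] at h4
  omega

variable {G} in
theorem nd_side {k : ℕ} {S : Finset V} (hL : Level G k S) {l m : V} (hl : l ∉ S)
    (sl : sm G S l = {m}) {W : Finset V} :
    W ∈ ND G S {l, m} ↔ ∃ u, (u ∈ UN G S l ∨ u ∈ UN G S m) ∧ W = dom G S u := by
  have hm : m ∉ S := fun h => hl ((mem_of_sm sl).2.1 h)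
  unfold ND
  rw [Finset.mem_filter]
  constructor
  · rintro ⟨hW, a, ha, w, hw, haw⟩
    obtain ⟨u, v, hu, hv, huv, s1, s2, rfl⟩ := (mem_wd hL).1 hW
    have hwS : w ∈ S ∧ sd G S w = 1 ∧ ({u, v} : Finset V) = dom G S w := by
      rw [Finset.mem_insert, Finset.mem_singleton] at hw
      rcases hw with rfl | rfl
      · exact ⟨hu, sd_of G s1, (dom_of G s1).symm⟩
      · exact ⟨hv, sd_of G s2, by rw [dom_of G s2, Finset.pair_comm]⟩
    refine ⟨w, ?_, hwS.2.2⟩
    have key : ∀ a, a ∉ S → G.Adj a w → w ∈ UN G S a := fun a ha h =>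
      StructAux.mem_UN.2 ⟨mem_op.2 ⟨h, fun h' => ha (h'.1 hwS.1)⟩, hwS.2.1⟩
    rw [Finset.mem_insert, Finset.mem_singleton] at ha
    rcases ha with rfl | rfl
    · exact Or.inl (key _ hl haw)
    · exact Or.inr (key _ hm haw)
  · rintro ⟨u, hu, rfl⟩
    have key : ∀ a, a ∉ S → u ∈ UN G S a → dom G S u ∈ WD G S ∧ G.Adj a u := by
      intro a ha h
      rw [StructAux.mem_UN] at h
      exact ⟨Finset.mem_image.2 ⟨u, Finset.mem_filter.2
        ⟨Finset.mem_univ _, StructAux.op_white ha h.1, h.2⟩, rfl⟩, (mem_op.1 h.1).1⟩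
    rcases hu with hu | hu
    · obtain ⟨h1, h2⟩ := key l hl hu
      exact ⟨h1, l, Finset.mem_insert_self _ _, u, self_dom G S u, h2⟩
    · obtain ⟨h1, h2⟩ := key m hm hu
      exact ⟨h1, m, Finset.mem_insert_of_mem (Finset.mem_singleton_self _), u,
        self_dom G S u, h2⟩

variable {G} in
theorem nd_one (hG : G.IsRegularOfDegree 3) {k : ℕ} (hk : 1 ≤ k) {S : Finset V}
    (hL : Level G k S) {l u v : V} (hl : l ∉ S) (sl : sd G S l = 1) (hu : u ∈ UN G S l)
    (hv : v ∈ UN G S l) : dom G S u = dom G S v := by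
  by_cases h : u = v
  · rw [h]
  · have h1 := AndoB.fact1g_sm hG hL hk hl sl hu hv h
    rw [dom_eq hL (StructAux.mem_UN.1 hu).2 (StructAux.mem_UN.1 hv).2]
    right
    rw [h1]
    exact Finset.mem_singleton_self _

variable {G} in
theorem nd_card (hG : G.IsRegularOfDegree 3) {k : ℕ} (hk : 1 ≤ k) {S : Finset V}
    (hL : Level G k S) {D : Finset V} (hD : D ∈ BD G S) : (ND G S D).card ≤ 2 := by
  obtain ⟨l, m, hl, hm, -, s1, s2, rfl⟩ := (mem_bd hL).1 hD
  have h1 : ∀ a, a ∉ S → sd G S a = 1 → ((UN G S a).image (dom G S)).card ≤ 1 := by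
    intro a ha sa
    rw [Finset.card_le_one]
    intro x hx y hy
    obtain ⟨u, hu, rfl⟩ := Finset.mem_image.1 hx
    obtain ⟨v, hv, rfl⟩ := Finset.mem_image.1 hy
    exact nd_one hG hk hL ha sa hu hv
  have h2 : ND G S {l, m} ⊆ (UN G S l).image (dom G S) ∪ (UN G S m).image (dom G S) := by
    intro W hW
    obtain ⟨u, hu, rfl⟩ := (nd_side hL hl s1).1 hW
    rw [Finset.mem_union, Finset.mem_image, Finset.mem_image]
    rcases hu with hu | hu
    · exact Or.inl ⟨u, hu, rfl⟩
    · exact Or.inr ⟨u, hu, rfl⟩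
  have h3 := Finset.card_le_card h2
  have h4 := Finset.card_union_le ((UN G S l).image (dom G S)) ((UN G S m).image (dom G S))
  have h5 := h1 l hl (sd_of G s1)
  have h6 := h1 m hm (sd_of G s2)
  omega

end Pool.Agent.Lib.AndoC
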