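import Pool.Agent.Lib.AndoC.Defs

/-!
# AndoC.Fact3: two non-adjacent sites at the same black vertex have the same ends

c level, k >= 1, no level colouring has a black vertex of degree 0 with three pairwise non-adjacent neighbours in U (`NoTriple`).
`fact3g`: b in Z, u /= v sites, not adjacent, both adjacent to b, op S u = {b, g}, op S v = {b, h}. Then g = h.
PROOF.  Suppose g /= h.  F = {u, b, v}: cost = (3 - 2) + 3 + (3 - 2) - 2 * 2 = 1 and iot S F = 1 - 2 = -1 (use `Fact2Aux.cost_insert` etc. as in `Ando.fact2`, `Ando.fact3`).  `Level.exists_two`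
(Ando/LevelE): since equality holds, the colouring symmDiff S F has a vertex of sd >= 2.  Check all vertices (compare the proof of `Ando.fact3` in Ando/Fact3.lean):
 b (white now): its third neighbour t: `op S b` has three members (sd b = 0) u, v, t; sm T b = {t}.
 t: if sd S t = 0: sm T t = {b}.  If sd S t = 1: t in UN S b, so by `NoTriple` t is adjacent to u or v (u, v are not adjacent), i.e. t is the partner of u (or of v); then sm T t = {b}
   (its partner is flipped).
 u (black now): op S u = {b, g}, b flipped: sm T u = {g}.  Same for v: {h}.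
 g: sm S g = ∅, adjacent to u, not to v (op S v = {b, h}, g /= h, g /= b), not to b (sm S b = ∅, both black): sm T g = {u}.  Same for h.
 the partners u*, v* of u, v (u* /= v as u, v are not adjacent; u* may be equal to t): sm T u* is contained in {b}.
 all other vertices are not adjacent to a vertex of F and not in F: sm T x = sm S x.
-/

set_option autoImplicit false
set_option linter.unusedSectionVars false

namespace Pool.Agent.Lib.AndoC

open Pool.Agent.Lib.Ando

variable {V : Type*} [Fintype V] [DecidableEq V] (G : SimpleGraph V) [DecidableRel G.Adj]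

namespace Fact3gAux

variable {G}

theorem le_one {s : Finset V} {a : V} (h : ∀ y ∈ s, y = a) : s.card ≤ 1 := by
  rw [Finset.card_le_one]
  intro x hx y hy
  rw [h x hx, h y hy]

end Fact3gAux

open Fact3gAux in
variable {G} in
theorem fact3g (hG : G.IsRegularOfDegree 3) {k : ℕ} (hk : 1 ≤ k) (hA : NoTriple G k)
    {S : Finset V} (hL : Level G k S) {b g h u v : V} (hb : b ∉ S) (sb : sd G S b = 0)
    (hu : u ∈ sites G S) (hv : v ∈ sites G S) (ou : op G S u = {b, g}) (ov : op G S v = {b, h})
    (bg : b ≠ g) (bh : b ≠ h) (hne : u ≠ v) (hna : ¬ G.Adj u v) : g = h := by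
  by_contra hgh
  have hu' := StructAux.mem_sites.1 hu
  have hv' := StructAux.mem_sites.1 hv
  have uS := hu'.1
  have vS := hv'.1
  have su := hu'.2.1
  have sv := hv'.2.1
  have hbu' : b ∈ op G S u := by rw [ou]; simp
  have hbv' : b ∈ op G S v := by rw [ov]; simp
  have hgu : g ∈ op G S u := by rw [ou]; simp
  have hhv : h ∈ op G S v := by rw [ov]; simp
  have sg : sd G S g = 0 := hu'.2.2 g hgu
  have sh : sd G S h = 0 := hv'.2.2 h hhv
  have hub : u ∈ op G S b := op_symm hbu'
  have hvb : v ∈ op G S b := op_symm hbv'
  have Aub : G.Adj b u := (mem_op.1 hub).1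
  have Avb : G.Adj b v := (mem_op.1 hvb).1
  have Nvu : ¬ G.Adj v u := fun e => hna e.symm
  have hbu : b ≠ u := Aub.ne
  have hbv : b ≠ v := Avb.ne
  have c4 : ∀ y, y ∈ op G S u → y = b ∨ y = g := by
    intro y hy; rw [ou] at hy; simpa using hy
  have d4 : ∀ y, y ∈ op G S v → y = b ∨ y = h := by
    intro y hy; rw [ov] at hy; simpa using hy
  -- the third neighbour of b
  have hcb : (op G S b).card = 3 := by
    have := sd_add_op hG S b
    omega
  obtain ⟨t, hobt, hut, hvt⟩ := StructAux.card_three' hcb hub hvb hne
  have ht : t ∈ op G S b := by rw [hobt]; simp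
  have ho : ∀ y, y ∈ op G S b → y ≠ u → y ≠ v → y = t := by
    intro y hy h1 h2
    rw [hobt, Finset.mem_insert, Finset.mem_insert, Finset.mem_singleton] at hy
    rcases hy with h3 | h3 | h3
    · exact absurd h3 h1
    · exact absurd h3 h2
    · exact h3
  have tS : t ∈ S := StructAux.op_white hb ht
  -- t has no other neighbour of its colour than u, v
  have hst : ∀ y ∈ sm G S t, y = u ∨ y = v := by
    intro y hy
    have hst1 : sd G S t = 1 := by
      have h1 := hL.tf t
      have h2 : 0 < sd G S t := Finset.card_pos.2 ⟨y, hy⟩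
      omega
    obtain ⟨z, hz⟩ := StructAux.sd_one hst1
    rw [hz, Finset.mem_singleton] at hy
    rcases hA S hL b u v t hb sb (StructAux.mem_UN.2 ⟨hub, su⟩) (StructAux.mem_UN.2 ⟨hvb, sv⟩)
      (StructAux.mem_UN.2 ⟨ht, hst1⟩) hne hut hvt with h1 | h1 | h1
    · exact absurd h1 hna
    · left
      have : u ∈ sm G S t := mem_sm.2 ⟨h1.symm, fun _ => tS, fun _ => uS⟩
      rw [hz, Finset.mem_singleton] at this
      rw [hy, this]
    · right
      have : v ∈ sm G S t := mem_sm.2 ⟨h1.symm, fun _ => tS, fun _ => vS⟩
      rw [hz, Finset.mem_singleton] at this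
      rw [hy, this]
  have smb : sm G S b = ∅ := Finset.card_eq_zero.1 sb
  have smg : sm G S g = ∅ := Finset.card_eq_zero.1 sg
  have smh : sm G S h = ∅ := Finset.card_eq_zero.1 sh
  have hiot : iot S {u, b, v} = -1 := by
    have i1 : iot S {v} = -1 := by
      have := Fact2Aux.iot_insert S ∅ v (by simp)
      rw [Fact2Aux.iot_empty, if_pos vS] at this
      simpa using this
    have i2 : iot S {b, v} = 0 := by
      rw [Fact2Aux.iot_insert S {v} b (by simpa using hbv), i1, if_neg hb]
      norm_num
    rw [Fact2Aux.iot_insert S {b, v} u (by simp [hbu.symm, hne]), i2, if_pos uS]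
    norm_num
  have hcost : cost G S {u, b, v} = 1 := by
    have c1 : cost G S {v} = 1 := by
      have := Fact2Aux.cost_insert G S ∅ v (by simp)
      rw [Fact2Aux.cost_empty, sv, Finset.sum_empty] at this
      simpa using this
    have c2 : cost G S {b, v} = 2 := by
      rw [Fact2Aux.cost_insert G S {v} b (by simpa using hbv), c1, sb, Finset.sum_singleton,
        Fact2Aux.sg_bi G Avb (fun e => hb (e.2 vS))]
      norm_num
    rw [Fact2Aux.cost_insert G S {b, v} u (by simp [hbu.symm, hne]), c2, su, Finset.sum_pair hbv,
      Fact2Aux.sg_bi G Aub.symm (fun e => hb (e.1 uS)), Fact2Aux.sg_nonadj G hna]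
    norm_num
  have habs : |(k : ℤ) + iot S {u, b, v}| = (k : ℤ) - 1 := by
    rw [hiot]
    have : (0 : ℤ) ≤ (k : ℤ) + -1 := by omega
    rw [abs_of_nonneg this]; ring
  obtain ⟨x, hx⟩ := hL.exists_two hG {u, b, v} (by rw [hcost, habs]; ring) (by rw [habs]; omega)
  have hF : ∀ y, y ∈ ({u, b, v} : Finset V) ↔ y = u ∨ y = b ∨ y = v := by
    intro y; simp only [Finset.mem_insert, Finset.mem_singleton]
  suffices hs : sd G (symmDiff S {u, b, v}) x ≤ 1 by omega
  unfold sd
  by_cases hxF : x ∈ ({u, b, v} : Finset V)
  · rw [sm_flip_mem G hxF]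
    rw [hF] at hxF
    rcases hxF with rfl | rfl | rfl
    · apply le_one (a := g)
      intro y hy
      simp only [Finset.mem_union, Finset.mem_sdiff, Finset.mem_inter, hF] at hy
      rcases hy with ⟨h1, h2⟩ | ⟨h1, h2⟩
      · rcases c4 y h1 with h | h
        · exact absurd (Or.inr (Or.inl h)) h2
        · exact h
      · rw [mem_sm] at h1
        rcases h2 with rfl | rfl | rfl
        · exact absurd h1.1 G.irrefl
        · exact absurd (h1.2.2 uS) hb
        · exact absurd h1.1 hna
    · apply le_one (a := t)
      intro y hy
      simp only [Finset.mem_union, Finset.mem_sdiff, Finset.mem_inter, hF, smb,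
        Finset.notMem_empty, false_and, or_false] at hy
      exact ho y hy.1 (fun h => hy.2 (Or.inl h)) (fun h => hy.2 (Or.inr (Or.inr h)))
    · apply le_one (a := h)
      intro y hy
      simp only [Finset.mem_union, Finset.mem_sdiff, Finset.mem_inter, hF] at hy
      rcases hy with ⟨h1, h2⟩ | ⟨h1, h2⟩
      · rcases d4 y h1 with h | h
        · exact absurd (Or.inr (Or.inl h)) h2
        · exact h
      · rw [mem_sm] at h1
        rcases h2 with rfl | rfl | rfl
        · exact absurd h1.1 Nvu
        · exact absurd (h1.2.2 vS) hb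
        · exact absurd h1.1 G.irrefl
  · rw [sm_flip_not_mem G hxF]
    rw [hF] at hxF
    have base : (∀ y ∈ op G S x, y ∉ ({u, b, v} : Finset V)) →
        ((sm G S x \ {u, b, v}) ∪ (op G S x ∩ {u, b, v})).card ≤ 1 := by
      intro h
      refine (Finset.card_le_card ?_).trans (hL.tf x)
      intro y hy
      rw [Finset.mem_union, Finset.mem_sdiff, Finset.mem_inter] at hy
      rcases hy with h1 | h1
      · exact h1.1
      · exact absurd h1.2 (h y h1.1)
    by_cases hbx : b ∈ op G S x
    · have h5 := ho x (op_symm hbx) (fun h => hxF (Or.inl h)) (fun h => hxF (Or.inr (Or.inr h)))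
      apply le_one (a := b)
      intro y hy
      simp only [Finset.mem_union, Finset.mem_sdiff, Finset.mem_inter, hF] at hy
      rcases hy with ⟨h6, h7⟩ | ⟨h6, h7⟩
      · rw [h5] at h6
        rcases hst y h6 with h8 | h8
        · exact absurd (Or.inl h8) h7
        · exact absurd (Or.inr (Or.inr h8)) h7
      · rcases h7 with rfl | h7 | rfl
        · exact absurd ⟨fun _ => h5 ▸ tS, fun _ => uS⟩ (mem_op.1 h6).2
        · exact h7
        · exact absurd ⟨fun _ => h5 ▸ tS, fun _ => vS⟩ (mem_op.1 h6).2
    · by_cases hux : u ∈ op G S x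
      · rcases c4 x (op_symm hux) with h | h
        · exact absurd (Or.inr (Or.inl h)) hxF
        · rw [h, smg]
          apply le_one (a := u)
          intro y hy
          simp only [Finset.mem_union, Finset.mem_sdiff, Finset.mem_inter, hF,
            Finset.notMem_empty, false_and, false_or] at hy
          rcases hy.2 with h5 | h5 | h5
          · exact h5
          · rw [h5, ← h] at hy; exact absurd hy.1 hbx
          · rw [h5] at hy
            rcases d4 g (op_symm hy.1) with h6 | h6
            · exact absurd h6.symm bg
            · exact absurd h6 hgh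
      · by_cases hvx : v ∈ op G S x
        · rcases d4 x (op_symm hvx) with h | h
          · exact absurd (Or.inr (Or.inl h)) hxF
          · rw [h, smh]
            apply le_one (a := v)
            intro y hy
            simp only [Finset.mem_union, Finset.mem_sdiff, Finset.mem_inter, hF,
              Finset.notMem_empty, false_and, false_or] at hy
            rcases hy.2 with h5 | h5 | h5
            · rw [h5, ← h] at hy; exact absurd hy.1 hux
            · rw [h5, ← h] at hy; exact absurd hy.1 hbx
            · exact h5
        · apply base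
          intro y hy hyF
          rw [hF] at hyF
          rcases hyF with rfl | rfl | rfl
          · exact hux hy
          · exact hbx hy
          · exact hvx hy

end Pool.Agent.Lib.AndoC
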