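import Pool.Agent.Lib.AndoC.Tail

/-!
# AndoC.Fwd: the end of a chain is not capped by two sites

`fwd`: c level, D = (l 0; z, z') an apex triangle with both members ZL, z = (l 0, x), z' = (l 0, x'), and a chain l i, m i, w i from m 0 to y.  Then y is not the third neighbour of two
adjacent sites e, e' /= w (n-1).
PROOF. Suppose e, e' in op S y, /= w (n-1), adjacent sites.  op S y has three members, so op S y = {w (n-1), e, e'}; y /= x, x' (otherwise z or z' in op S y; z /= w (n-1) by `hz`; z is not a site as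
it is adjacent to l 0 with sd 1).  op S e = {y, g}, sd g = 0.  As x /= x', we may assume x /= g (otherwise exchange z and z', `Apx.swap`).
 ZL S z z' x (l 0) (m 0) z' (`Apx.zl`); T = symmDiff S {z, l 0}; `slide_level`, `slide_desc`.  Show `Tl T 0 n l m w w' y e e' g` and apply `tail_false` with d = n - 1:
  m 0: sm T (m 0) = ∅.  l j, m j for j > 0: `rest`: black, /= x (sd), /= l 0, m 0 (dl).
  w j: white, /= z, z' (`hz`), so a `rest` vertex (b = x, l 0, m 0 are black).  w' j likewise is not needed.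
  y: black, sd 0, /= x: `rest`.  g: black, sd 0, /= x: `rest`.  e: white, /= z, z' (not sites): `rest`.
  we: w j /= e: w j is adjacent to m j, which has sd 1, e is a site.  w' j /= e: then e' = w j (partners), but e' is a site.  gm, ym: sd g = sd y = 0, sd (m j) = 1 in S.
-/

set_option autoImplicit false
set_option linter.unusedSectionVars false

namespace Pool.Agent.Lib.AndoC

open Pool.Agent.Lib.Ando

variable {V : Type*} [Fintype V] [DecidableEq V] (G : SimpleGraph V) [DecidableRel G.Adj]

namespace FwdAux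

variable {G} in
theorem sd_of_sm {S : Finset V} {v a : V} (h : sm G S v = {a}) : sd G S v = 1 := by
  unfold sd
  rw [h, Finset.card_singleton]

variable {G} in
theorem sm_white {S : Finset V} {u b : V} (hu : u ∈ S) (h : b ∈ sm G S u) : b ∈ S :=
  (mem_sm.1 h).2.2 hu

variable {G} in
theorem sm_black {S : Finset V} {u b : V} (hu : u ∉ S) (h : b ∈ sm G S u) : b ∉ S :=
  fun h' => hu ((mem_sm.1 h).2.1 h')

variable {G} in
theorem m_op {S : Finset V} {n : ℕ} {l m w w' : ℕ → V} {y : V} (hc : Chn G S n l m w w' y)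
    {j : ℕ} (hj : j < n) : m j ∈ op G S (w j) := by
  by_cases h : j + 1 < n
  · rw [hc.ow j h]
    exact Finset.mem_insert_self _ _
  · have : j = n - 1 := by omega
    subst this
    rw [hc.oy]
    exact Finset.mem_insert_self _ _

variable {G} in
theorem core (hG : G.IsRegularOfDegree 3) {k : ℕ} (hk : 1 ≤ k) (hA : NoTriple G k)
    {S : Finset V} (hL : Level G k S) {n : ℕ} {l m w w' : ℕ → V} {y z z' x x' : V}
    (hc : Chn G S n l m w w' y) (ha : Apx G S (l 0) z z' x x') (hz : ∀ i < n, w i ≠ z ∧ w i ≠ z')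
    {e e' g : V} (he : e ∈ op G S y) (he' : e' ∈ op G S y) (hew : e ≠ w (n - 1))
    (hew' : e' ≠ w (n - 1)) (hee : G.Adj e e') (hes : e ∈ sites G S) (hes' : e' ∈ sites G S)
    (oe : op G S e = {y, g}) (yg : y ≠ g) (hxg : g ≠ x) : False := by
  have hn := hc.hn
  have h0 : 0 < n := hn
  have hes1 := StructAux.mem_sites.1 hes
  have hes1' := StructAux.mem_sites.1 hes'
  have hyS : y ∉ S := by
    have h1 : y ∈ op G S (w (n - 1)) := by
      rw [hc.oy]; simp
    exact StructAux.op_black (hc.wS (n - 1) (by omega)) h1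
  have hgS : g ∉ S := by
    have h1 : g ∈ op G S e := by rw [oe]; simp
    exact StructAux.op_black hes1.1 h1
  have sg : sd G S g = 0 := hes1.2.2 g (by rw [oe]; simp)
  have hl0 : l 0 ∉ S := hc.lS 0 h0
  have sl1 : ∀ j, j < n → sd G S (l j) = 1 := fun j hj => sd_of_sm (hc.sl j hj)
  have sm1 : ∀ j, j < n → sd G S (m j) = 1 := fun j hj => sd_of_sm (hc.sm' j hj)
  have hmS : ∀ j, j < n → m j ∉ S := fun j hj =>
    sm_black (hc.lS j hj) (by rw [hc.sl j hj]; exact Finset.mem_singleton_self _)
  have mm : ∀ j, j < n → ∀ j', j' < n → j ≠ j' → m j ≠ m j' := by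
    intro j hj j' hj' hne h
    have h1 := hc.sm' j hj
    rw [h, hc.sm' j' hj'] at h1
    exact (hc.dl j' hj' j hj hne.symm).1 (Finset.singleton_injective h1)
  -- the members of the triangle
  have hzl := ha.zl hG hL (hc.sl 0 h0)
  have D := slide_desc hG hL hk hzl
  have hT := slide_level hG hL hk hzl
  have hzS : z ∈ S := hzl.wS
  have hz'S : z' ∈ S := by
    have h1 : z' ∈ op G S (l 0) := by rw [ha.oa]; simp
    exact StructAux.op_white hl0 h1
  have lz : l 0 ∈ op G S z := by rw [ha.oz]; simp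
  have lz' : l 0 ∈ op G S z' := by rw [ha.oz']; simp
  have notsite : ∀ u, u ∈ sites G S → l 0 ∉ op G S u := by
    intro u hu h1
    have h2 := (StructAux.mem_sites.1 hu).2.2 _ h1
    rw [sl1 0 h0] at h2
    exact one_ne_zero h2
  have ez : ∀ u, u ∈ sites G S → u ≠ z ∧ u ≠ z' := by
    intro u hu
    constructor
    · intro h; subst h; exact notsite _ hu lz
    · intro h; subst h; exact notsite _ hu lz'
  have sx : sd G S x = 0 := ha.sx
  have hxS : x ∉ S := by
    have h1 : x ∈ op G S z := by rw [ha.oz]; simp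
    exact StructAux.op_black hzS h1
  -- y is not x
  have hyx : y ≠ x := by
    intro h
    have hzy : z ∈ op G S y := by
      rw [h]
      exact op_symm (by rw [ha.oz]; simp : x ∈ op G S z)
    have hwy : w (n - 1) ∈ op G S y :=
      op_symm (by rw [hc.oy]; simp : y ∈ op G S (w (n - 1)))
    have hcard : (op G S y).card = 3 := by
      have h1 := sd_add_op hG S y
      rw [hc.sy] at h1
      omega
    obtain ⟨u, hu, h1, h2⟩ := StructAux.card_three' hcard he he' hee.ne
    have hwu : w (n - 1) = u := by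
      rw [hu] at hwy
      simp only [Finset.mem_insert, Finset.mem_singleton] at hwy
      rcases hwy with h3 | h3 | h3
      · exact absurd h3.symm hew
      · exact absurd h3.symm hew'
      · exact h3
    rw [hu] at hzy
    simp only [Finset.mem_insert, Finset.mem_singleton] at hzy
    rcases hzy with h3 | h3 | h3
    · exact (ez e hes).1 h3.symm
    · exact (ez e' hes').1 h3.symm
    · exact (hz (n - 1) (by omega)).1 (by rw [hwu, h3])
  -- rest for black vertices
  have restB : ∀ u, u ∉ S → u ≠ x → u ≠ l 0 → u ≠ m 0 →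
      (u ∈ symmDiff S {z, l 0} ↔ u ∈ S) ∧ sm G (symmDiff S {z, l 0}) u = sm G S u ∧
        op G (symmDiff S {z, l 0}) u = op G S u := by
    intro u hu h1 h2 h3
    refine D.rest u ?_ ?_ h1 h2 h3 ?_
    · intro h; subst h; exact hu hzS
    · intro h; subst h; exact hu hz'S
    · intro h; subst h; exact hu hz'S
  have restW : ∀ u, u ∈ S → u ≠ z → u ≠ z' →
      (u ∈ symmDiff S {z, l 0} ↔ u ∈ S) ∧ sm G (symmDiff S {z, l 0}) u = sm G S u ∧
        op G (symmDiff S {z, l 0}) u = op G S u := by
    intro u hu h1 h2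
    refine D.rest u h1 h2 ?_ ?_ ?_ h2
    · intro h; subst h; exact hxS hu
    · intro h; subst h; exact hl0 hu
    · intro h; subst h; exact hmS 0 h0 hu
  have sdne : ∀ u v, sd G S u = 0 → sd G S v = 1 → u ≠ v := by
    intro u v h1 h2 h
    subst h
    rw [h1] at h2
    exact zero_ne_one h2
  have rl : ∀ j, 0 < j → j < n → _ := fun j h1 h2 =>
    restB (l j) (hc.lS j h2) (sdne x (l j) sx (sl1 j h2)).symm (hc.dl j h2 0 h0 h1.ne').1
      (hc.dl j h2 0 h0 h1.ne').2
  have rm : ∀ j, 0 < j → j < n → _ := fun j h1 h2 =>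
    restB (m j) (hmS j h2) (sdne x (m j) sx (sm1 j h2)).symm
      (hc.dl 0 h0 j h2 h1.ne).2.symm (mm j h2 0 h0 h1.ne')
  have rw' : ∀ j, j < n → _ := fun j h2 =>
    restW (w j) (hc.wS j h2) (hz j h2).1 (hz j h2).2
  have ry := restB y hyS hyx (sdne y (l 0) hc.sy (sl1 0 h0)) (sdne y (m 0) hc.sy (sm1 0 h0))
  have rg := restB g hgS hxg (sdne g (l 0) sg (sl1 0 h0)) (sdne g (m 0) sg (sm1 0 h0))
  have re := restW e hes1.1 (ez e hes).1 (ez e hes).2
  have sme : sm G S e = {e'} := by
    obtain ⟨a, ha1⟩ := StructAux.sd_one hes1.2.1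
    have h1 : e' ∈ sm G S e := mem_sm.2 ⟨hee, ⟨fun _ => hes1.1, fun _ => hes1'.1⟩⟩
    rw [ha1, Finset.mem_singleton] at h1
    rw [ha1, h1]
  have sdT : ∀ u, sm G (symmDiff S {z, l 0}) u = sm G S u →
      sd G (symmDiff S {z, l 0}) u = sd G S u := by
    intro u h
    unfold sd
    rw [h]
  have wsite : ∀ j, j < n → ∀ u, u ∈ sites G S → w j ≠ u := by
    intro j hj u hu h
    have h1 := (StructAux.mem_sites.1 hu).2.2 (m j) (by rw [← h]; exact m_op hc hj)
    rw [sm1 j hj] at h1
    exact one_ne_zero h1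
  have tl : Tl G (symmDiff S {z, l 0}) 0 n l m w w' y e e' g :=
    { hin := h0
      mS := D.mT
      sm0 := by
        unfold sd
        rw [D.smm, Finset.card_empty]
      lS := fun j h1 h2 => fun h3 => hc.lS j h2 ((rl j h1 h2).1.1 h3)
      sl := fun j h1 h2 => by rw [(rl j h1 h2).2.1, hc.sl j h2]
      sm' := fun j h1 h2 => by rw [(rm j h1 h2).2.1, hc.sm' j h2]
      wS := fun j _ h2 => (rw' j h2).1.2 (hc.wS j h2)
      sw := fun j _ h2 => by rw [(rw' j h2).2.1, hc.sw j h2]
      ow := fun j _ h2 => by rw [(rw' j (by omega)).2.2, hc.ow j h2]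
      oy := by rw [(rw' (n - 1) (by omega)).2.2, hc.oy]
      sy := by rw [sdT y ry.2.1, hc.sy]
      dl := fun j j' _ h2 _ h4 h5 => ⟨(hc.dl j h2 j' h4 h5).2, mm j h2 j' h4 h5⟩
      dl' := fun j j' _ h2 _ h4 h5 => (hc.dl j h2 j' h4 h5).1
      dw := fun j j' _ h2 _ h4 h5 => hc.dw j h2 j' h4 h5
      eS := re.1.2 hes1.1
      se := by rw [re.2.1, sme]
      oe := by rw [re.2.2, oe]
      yg := yg
      sg := by rw [sdT g rg.2.1, sg]
      we := by
        intro j _ hj
        refine ⟨wsite j hj e hes, fun h => ?_⟩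
        have h1 : e ∈ sm G S (w j) := by
          rw [hc.sw j hj, h]; exact Finset.mem_singleton_self _
        have h2 := sm_symm h1
        rw [sme, Finset.mem_singleton] at h2
        exact wsite j hj e' hes' h2
      gm := fun j _ hj => sdne g (m j) sg (sm1 j hj)
      ym := fun j _ hj => sdne y (m j) hc.sy (sm1 j hj) }
  exact tail_false hG hk hA (n - 1) 0 (symmDiff S {z, l 0}) (by omega) hT tl

end FwdAux

open FwdAux in
variable {G} in
theorem fwd (hG : G.IsRegularOfDegree 3) {k : ℕ} (hk : 1 ≤ k) (hA : NoTriple G k)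
    {S : Finset V} (hL : Level G k S) {n : ℕ} {l m w w' : ℕ → V} {y z z' x x' : V}
    (hc : Chn G S n l m w w' y) (ha : Apx G S (l 0) z z' x x') (hz : ∀ i < n, w i ≠ z ∧ w i ≠ z') :
    NoCap G S (w (n - 1)) y := by
  intro e e' he he' hew hew' hee hs
  obtain ⟨hes, hes'⟩ := hs
  have hes1 := StructAux.mem_sites.1 hes
  have hcard : (op G S e).card = 2 := by
    have h1 := sd_add_op hG S e
    rw [hes1.2.1] at h1
    omega
  obtain ⟨g, hg, yg⟩ := StructAux.card_two hcard (op_symm he)
  by_cases h : g = x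
  · refine core hG hk hA hL hc ha.swap (fun i hi => ⟨(hz i hi).2, (hz i hi).1⟩) he he' hew hew'
      hee hes hes' hg yg ?_
    rw [h]
    exact ha.xx
  · exact core hG hk hA hL hc ha hz he he' hew hew' hee hes hes' hg yg h

end Pool.Agent.Lib.AndoC
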