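import Mathlib

/-!
# AndoC.Hall: the combinatorial lemma (Hall)

Let A, B be finite, N(a) a subset of B with at most two elements for every a in A. Then there are X inside B and Y = {a in A : N(a) meets X} such that every a in Y has exactly two elements in
N(a), both in X; |X| - |Y| >= |B| - |A|; and for every W in X there is an injection mu : Y -> X - {W} with mu(a) in N(a).

PROOF. Induction on |A| + |B| (or on |A|; generalise A, B, N). 
Case 1: there is a nonempty A' inside A with |N(A')| <= |A'|, N(A') = A'.biUnion N. Apply the induction hypothesis to A1 = A \ A', B1 = B \ N(A'), N1(a) = N(a) ∩ B1 (smaller, A' nonempty).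
 X, Y of (A1, B1, N1): a in Y has |N1(a)| = 2, so N(a) = N1(a) since |N(a)| <= 2.  For a in A' N(a) is inside N(A'), disjoint from X.  For a in A1: N(a) ∩ X = N1(a) ∩ X as X is inside B1.
 |B| + |Y| <= |B1| + |N(A')| + |Y| <= |B1| + |A'| + |Y| <= |X| + |A1| + |A'| = |X| + |A|.
Case 2: |N(A')| > |A'| for all nonempty A' inside A.  Take X = B, Y = A.  |N(a)| > 1, so = 2.  For W in B: Hall's theorem (`Finset.all_card_le_biUnion_card_iff_exists_injective` for the
 family `fun a : A => (N a).erase W`; for a finite set s of elements of A: N(s) has more than |s| elements, so N(s) \ {W} has at least |s|).  Extend the injection `A → β` to a function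
 `α → β` (for a not in A: any value, e.g. W; `Set.InjOn` is only claimed on Y).
-/

set_option autoImplicit false

namespace Pool.Agent.Lib.AndoC

theorem hallX {α β : Type*} [DecidableEq α] [DecidableEq β] (A : Finset α) (B : Finset β)
    (N : α → Finset β) (hN : ∀ a ∈ A, N a ⊆ B) (h2 : ∀ a ∈ A, (N a).card ≤ 2) :
    ∃ X Y, X ⊆ B ∧ Y ⊆ A ∧ (∀ a ∈ A, (a ∈ Y ↔ (N a ∩ X).Nonempty)) ∧
      (∀ a ∈ Y, (N a).card = 2 ∧ N a ⊆ X) ∧ B.card + Y.card ≤ X.card + A.card ∧
      ∀ W ∈ X, ∃ μ : α → β, Set.InjOn μ (Y : Set α) ∧ ∀ a ∈ Y, μ a ∈ N a ∧ μ a ≠ W := by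
  induction hn : A.card using Nat.strong_induction_on generalizing A B N with
  | _ n ih =>
  by_cases hcase : ∃ A' ⊆ A, A'.Nonempty ∧ (A'.biUnion N).card ≤ A'.card
  · obtain ⟨A', hA', hne, hcard⟩ := hcase
    have hlt : (A \ A').card < n := by
      rw [← hn]
      apply Finset.card_lt_card
      refine ⟨Finset.sdiff_subset, ?_⟩
      intro h
      obtain ⟨a, ha⟩ := hne
      exact (Finset.mem_sdiff.1 (h (hA' ha))).2 ha
    obtain ⟨X, Y, hX, hY, h3, h4, h5, h6⟩ := ih _ hlt (A \ A') (B \ A'.biUnion N)
      (fun a => N a ∩ (B \ A'.biUnion N)) (fun a _ => Finset.inter_subset_right)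
      (fun a ha => le_trans (Finset.card_le_card Finset.inter_subset_left)
        (h2 a (Finset.mem_sdiff.1 ha).1)) rfl
    have hYeq : ∀ a ∈ Y, N a ∩ (B \ A'.biUnion N) = N a := by
      intro a ha
      have hb := (h4 a ha).1
      have hc := h2 a (Finset.mem_sdiff.1 (hY ha)).1
      exact Finset.eq_of_subset_of_card_le Finset.inter_subset_left (by rw [hb]; exact hc)
    refine ⟨X, Y, hX.trans Finset.sdiff_subset, hY.trans Finset.sdiff_subset, ?_, ?_, ?_, ?_⟩
    · intro a ha
      by_cases haA : a ∈ A'
      · constructor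
        · intro h
          exact absurd haA (Finset.mem_sdiff.1 (hY h)).2
        · rintro ⟨w, hw⟩
          obtain ⟨hw1, hw2⟩ := Finset.mem_inter.1 hw
          exact absurd (Finset.mem_biUnion.2 ⟨a, haA, hw1⟩) (Finset.mem_sdiff.1 (hX hw2)).2
      · rw [h3 a (Finset.mem_sdiff.2 ⟨ha, haA⟩)]
        constructor
        · rintro ⟨w, hw⟩
          obtain ⟨hw1, hw2⟩ := Finset.mem_inter.1 hw
          exact ⟨w, Finset.mem_inter.2 ⟨(Finset.mem_inter.1 hw1).1, hw2⟩⟩
        · rintro ⟨w, hw⟩
          obtain ⟨hw1, hw2⟩ := Finset.mem_inter.1 hw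
          exact ⟨w, Finset.mem_inter.2 ⟨Finset.mem_inter.2 ⟨hw1, hX hw2⟩, hw2⟩⟩
    · intro a ha
      have hb := h4 a ha
      rw [hYeq a ha] at hb
      exact hb
    · have e1 : (A \ A').card + A'.card = A.card := Finset.card_sdiff_add_card_eq_card hA'
      have e2 : B.card ≤ (B \ A'.biUnion N).card + (A'.biUnion N).card := by
        have := Finset.le_card_sdiff (A'.biUnion N) B
        omega
      omega
    · intro W hW
      obtain ⟨μ, hμ1, hμ2⟩ := h6 W hW
      refine ⟨μ, hμ1, fun a ha => ?_⟩
      have hb := hμ2 a ha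
      rw [hYeq a ha] at hb
      exact hb
  · have hH : ∀ A' ⊆ A, A'.Nonempty → A'.card < (A'.biUnion N).card := by
      intro A' hA' hne
      by_contra hcon
      exact hcase ⟨A', hA', hne, not_lt.1 hcon⟩
    have hcard2 : ∀ a ∈ A, (N a).card = 2 := by
      intro a ha
      have h := hH {a} (Finset.singleton_subset_iff.2 ha) (Finset.singleton_nonempty a)
      rw [Finset.card_singleton, Finset.singleton_biUnion] at h
      have h' := h2 a ha
      omega
    refine ⟨B, A, subset_refl _, subset_refl _, ?_, ?_, by rw [hn], ?_⟩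
    · intro a ha
      refine ⟨fun _ => ?_, fun _ => ha⟩
      rw [Finset.inter_eq_left.2 (hN a ha)]
      exact Finset.card_pos.1 (by rw [hcard2 a ha]; norm_num)
    · intro a ha
      exact ⟨hcard2 a ha, hN a ha⟩
    · intro W _
      have hall := (Finset.all_card_le_biUnion_card_iff_exists_injective
        (fun a : {a // a ∈ A} => (N a.1).erase W)).1 (by
          intro s
          rcases s.eq_empty_or_nonempty with rfl | hs
          · simp
          · have hsub : s.map (Function.Embedding.subtype _) ⊆ A := by
              intro a ha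
              obtain ⟨b, _, rfl⟩ := Finset.mem_map.1 ha
              exact b.2
            have hlt := hH _ hsub (Finset.map_nonempty.2 hs)
            rw [Finset.card_map] at hlt
            have hsub2 : ((s.map (Function.Embedding.subtype _)).biUnion N).erase W ⊆
                s.biUnion (fun a : {a // a ∈ A} => (N a.1).erase W) := by
              intro w hw
              obtain ⟨hw1, hw2⟩ := Finset.mem_erase.1 hw
              obtain ⟨a, ha, hwa⟩ := Finset.mem_biUnion.1 hw2
              obtain ⟨b, hb, rfl⟩ := Finset.mem_map.1 ha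
              exact Finset.mem_biUnion.2 ⟨b, hb, Finset.mem_erase.2 ⟨hw1, hwa⟩⟩
            have h7 := Finset.card_le_card hsub2
            have h8 := Finset.pred_card_le_card_erase
              (s := (s.map (Function.Embedding.subtype _)).biUnion N) (a := W)
            omega)
      obtain ⟨f, hf1, hf2⟩ := hall
      refine ⟨fun a => if h : a ∈ A then f ⟨a, h⟩ else W, ?_, ?_⟩
      · intro a ha b hb hab
        have ha' : a ∈ A := ha
        have hb' : b ∈ A := hb
        dsimp only at hab
        rw [dif_pos ha', dif_pos hb'] at hab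
        exact congrArg Subtype.val (hf1 hab)
      · intro a ha
        dsimp only
        rw [dif_pos ha]
        have h9 := Finset.mem_erase.1 (hf2 ⟨a, ha⟩)
        exact ⟨h9.2, h9.1⟩

end Pool.Agent.Lib.AndoC
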