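import Pool.Agent.Lib.AndoC.Dom
import Pool.Agent.Lib.AndoC.Hall

/-!
# AndoC.HXex: the set X of white dominoes, and the two sides of a domino in Y

`exists_HX`: `hallX` with A = BD, B = WD, N = ND (`nd_card`, `wd_bd`).
`hx_sides`: D = {l, m} in Y (black partners l, m): |ND D| = 2 and each side gives at most one domino (`nd_side`, `nd_one`): so UN S l and UN S m are nonempty, and the dominoes of u in UN S l and v in UN S m
 are different; both are in X.
-/

set_option autoImplicit false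
set_option linter.unusedSectionVars false

namespace Pool.Agent.Lib.AndoC

open Pool.Agent.Lib.Ando

variable {V : Type*} [Fintype V] [DecidableEq V] (G : SimpleGraph V) [DecidableRel G.Adj]

variable {G} in
theorem exists_HX (hG : G.IsRegularOfDegree 3) {k : ℕ} (hk : 1 ≤ k) {S : Finset V}
    (hL : Level G k S) : ∃ X Y, HX G k S X Y := by
  obtain ⟨X, Y, h1, h2, h3, h4, h5, h6⟩ := hallX (BD G S) (WD G S) (ND G S)
    (fun a _ => Finset.filter_subset _ _) (fun a ha => nd_card hG hk hL ha)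
  have h7 := wd_bd hG hL
  exact ⟨X, Y, ⟨h1, h2, h3, h4, by omega, h6⟩⟩

variable {G} in
theorem hx_sides (hG : G.IsRegularOfDegree 3) {k : ℕ} (hk : 1 ≤ k) {S : Finset V}
    (hL : Level G k S) {X Y : Finset (Finset V)} (hX : HX G k S X Y) {l m : V} (hl : l ∉ S)
    (sl : sm G S l = {m}) (hD : ({l, m} : Finset V) ∈ Y) :
    ∃ u v, u ∈ UN G S l ∧ v ∈ UN G S m ∧ dom G S u ≠ dom G S v ∧ dom G S u ∈ X ∧
      dom G S v ∈ X ∧ ND G S {l, m} = {dom G S u, dom G S v} := by
  have sl1 : sd G S l = 1 := by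
    unfold sd
    rw [sl, Finset.card_singleton]
  have hml : m ∈ sm G S l := by
    rw [sl]
    exact Finset.mem_singleton_self m
  have hml' := hml
  unfold sm at hml'
  rw [Finset.mem_filter] at hml'
  obtain ⟨_, hadj, hiff⟩ := hml'
  have hm : m ∉ S := fun h => hl (hiff.1 h)
  have hlm : l ∈ sm G S m := by
    unfold sm
    rw [Finset.mem_filter]
    exact ⟨Finset.mem_univ _, hadj.symm, hiff.symm⟩
  have sm1 : sd G S m = 1 := by
    have h1 := hL.tf m
    have h2 : 0 < sd G S m := Finset.card_pos.2 ⟨l, hlm⟩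
    omega
  obtain ⟨hc, hsub⟩ := hX.two _ hD
  obtain ⟨W1, W2, hne, heq⟩ := Finset.card_eq_two.1 hc
  have hW1 : W1 ∈ ND G S {l, m} := by rw [heq]; simp
  have hW2 : W2 ∈ ND G S {l, m} := by rw [heq]; simp
  have hX1 := hsub hW1
  have hX2 := hsub hW2
  obtain ⟨u1, hu1, e1⟩ := (nd_side hL hl sl).1 hW1
  obtain ⟨u2, hu2, e2⟩ := (nd_side hL hl sl).1 hW2
  subst e1
  subst e2
  rcases hu1 with hu1 | hu1 <;> rcases hu2 with hu2 | hu2
  · exact absurd (nd_one hG hk hL hl sl1 hu1 hu2) hne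
  · exact ⟨u1, u2, hu1, hu2, hne, hX1, hX2, heq⟩
  · exact ⟨u2, u1, hu2, hu1, hne.symm, hX2, hX1, by rw [heq, Finset.pair_comm]⟩
  · exact absurd (nd_one hG hk hL hm sm1 hu1 hu2) hne

end Pool.Agent.Lib.AndoC
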