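import Pool.Agent.Lib.AndoC.Slide

/-!
# AndoC.SE: what a slide does to the set `upsA`

`h : ZL S w v b l m p`, T = symmDiff S {w, l}; `slide_desc h : Slid S T ..`, `slide_level : Level k T`. `upsA` by `apx_iff` or directly from the definition.

`se`: Let a be in upsA T: a not in T, sd T a = 1, z, z' in op T a, adjacent, (both white in T, so sm T z = {z'}, sm T z' = {z}: `Level.tf` of T), all other members of op T z, op T z' have sd T = 0.
 a is none of l, p, v (white in T), m (sm T m = ∅).
 * a = w: op T w = {l, v}, so {z, z'} = {l, v}, l adjacent to v, so v = p (N(l) = {m, w, p}).  Then l is in upsA S: l not in S, sd = 1, op S l = {w, v}, w, v adjacent; op S w = {b, l}, sd b = 0;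
   x in op S v, x /= l: x in op T v (`opv'`), x /= w (x is black in S), so sd T x = 0; x /= b (sd T b = 1), x /= m unless m is adjacent to v (third alternative of the statement: l, m adjacent to v),
   so x is a `rest` vertex (x black in S: x /= w, v, l, p) and sd S x = 0.
 * a = b: z, z' in op T b = (op S b).erase w.  z /= p: otherwise z' in sm T p = {l} but l is not in op T b (op T b is part of op S b, white in S).  z /= v: if p /= v then sm T v = ∅; if p = v see before.
   So z, z' are `rest` vertices, op T z = op S z.  x in op S z, x /= b: sd T x = 0, and x is not w (white), not l (then z in sm T l = {p}), so x = m or x is a `rest` vertex, sd S x = 0.  This is `Bad1`.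
 * otherwise a is a `rest` vertex; a not in S, sd S a = 1, op T a = op S a.  z, z' in op S a (white in S and T), so not l, w, b, m; not p, v as before; so `rest` vertices.  x in op S z, x /= a: sd T x = 0
   and x is m or a `rest` vertex with sd S x = 0 (x /= b as sd T b = 1).  If m is not in op S z and not in op S z': a in upsA S.  If m in op S z (or z'): `Bad2` with e = z (z'); the other one is not
   adjacent to m (`DL1` for S and the triangle a z z': m adjacent to z and z' would give m = a).
`slide_ups_le`: if not Bad1, not Bad2, and not (l and m adjacent to v): map a to a, w to l: an injection upsA T -> upsA S (l is not in the image of the first kind).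
`slide_ups_lt`: the image misses a0: first kind has a /= m, a /= l; l /= m.  If a0 /= l and z0 in op S a0 is adjacent to b (b in op S z0): a0 is not in upsA T: a0 /= b (sd), a0 not w.. a `rest`
   vertex or m (sd T m = 0); op T a0 = op S a0 has two members, so z0 is one of the two members z, z' of the witness for T; z0 /= w (a0 would be b or l), z0 is adjacent to b /= a0 with sd T b = 1
   (b in op T z0, because z0 is white in T and b is not), contradiction.
-/

set_option autoImplicit false
set_option linter.unusedSectionVars false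

namespace Pool.Agent.Lib.AndoC

open Pool.Agent.Lib.Ando

variable {V : Type*} [Fintype V] [DecidableEq V] (G : SimpleGraph V) [DecidableRel G.Adj]

namespace SEAux

variable {G} in
theorem mem_upsA {S : Finset V} {a : V} : a ∈ upsA G S ↔ a ∉ S ∧ sd G S a = 1 ∧
    ∃ z ∈ op G S a, ∃ z' ∈ op G S a, G.Adj z z' ∧
      (∀ x ∈ op G S z, x ≠ a → sd G S x = 0) ∧ (∀ x ∈ op G S z', x ≠ a → sd G S x = 0) := by
  simp [upsA]

variable {G} in
theorem white_of {S : Finset V} {a z : V} (ha : a ∉ S) (hz : z ∈ op G S a) : z ∈ S := by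
  by_contra hh
  exact (mem_op.1 hz).2 (by simp [hh, ha])

variable {G} in
theorem black_of {S : Finset V} {a z : V} (ha : a ∈ S) (hz : z ∈ op G S a) : z ∉ S := by
  intro hh
  exact (mem_op.1 hz).2 (by simp [hh, ha])

variable {G} in
/-- members of adjacent pairs in `T` are not `p`, `v` -/
theorem nb_rest {S T : Finset V} {w v b l m p z z' : V} (D : Slid G S T w v b l m p)
    (hz : z ∈ T) (hz' : z' ∈ T) (hzz : G.Adj z z') (hl : z' ≠ l) : z ≠ p ∧ z ≠ v := by
  have hm : z' ∈ sm G T z := mem_sm.2 ⟨hzz, by simp [hz, hz']⟩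
  have h1 : z ≠ p := by
    intro e
    rw [e, D.smp, Finset.mem_singleton] at hm
    exact hl hm
  refine ⟨h1, fun e => ?_⟩
  by_cases hpv : p = v
  · exact h1 (e.trans hpv.symm)
  · rw [e, D.smv hpv] at hm
    exact absurd hm (Finset.notMem_empty _)

variable {G} in
theorem sb_one {S T : Finset V} {w v b l m p : V} (D : Slid G S T w v b l m p) :
    sd G T b = 1 := by
  unfold sd
  rw [D.smb, Finset.card_singleton]

variable {G} in
/-- the black neighbours of an unchanged white vertex -/
theorem x_rest {S T : Finset V} {w v b l m p z a x : V} (D : Slid G S T w v b l m p)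
    (wS : w ∈ S) (vS : v ∈ S) (pS : p ∈ S) (hzS : z ∈ S) (hzT : z ∈ T)
    (hop : op G T z = op G S z) (hyp : ∀ x ∈ op G T z, x ≠ a → sd G T x = 0)
    (hx : x ∈ op G S z) (hxa : x ≠ a) : x = m ∨ sd G S x = 0 := by
  have hxS : x ∉ S := black_of hzS hx
  have hxT : x ∈ op G T z := by rw [hop]; exact hx
  have h0 : sd G T x = 0 := hyp x hxT hxa
  have hxb : x ≠ b := by
    intro e
    rw [e, sb_one D] at h0
    exact absurd h0 (by norm_num)
  have hxl : x ≠ l := by
    intro e
    exact black_of hzT hxT (by rw [e]; exact D.lT)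
  by_cases hm : x = m
  · exact Or.inl hm
  · right
    have h1 := (D.rest x (fun e => hxS (e ▸ wS)) (fun e => hxS (e ▸ vS)) hxb hxl hm
      (fun e => hxS (e ▸ pS))).2.1
    unfold sd at h0 ⊢
    rw [← h1]
    exact h0

end SEAux

open SEAux

variable {G} in
theorem se (hG : G.IsRegularOfDegree 3) {k : ℕ} (hD : DL1 G k) {S : Finset V} (hL : Level G k S)
    (hk : 1 ≤ k) {w v b l m p : V} (h : ZL G S w v b l m p) {a : V}
    (ha : a ∈ upsA G (symmDiff S {w, l})) :
    (a ≠ w ∧ a ≠ l ∧ a ≠ m ∧ a ∈ upsA G S) ∨ (a = w ∧ l ∈ upsA G S) ∨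
      (a = w ∧ G.Adj l v ∧ G.Adj m v) ∨ (a = b ∧ Bad1 G S w b m) ∨ Bad2 G S m := by
  obtain ⟨pS, p0, vS, smv, bS, lS, mS, smm, pw, vw, ml, mb, nwm⟩ := third hG hL hk h
  have D := slide_desc hG hL hk h
  have LT := slide_level hG hL hk h
  have wS := h.wS
  obtain ⟨aT, sa, z, hz, z', hz', hzz, hx, hx'⟩ := mem_upsA.1 ha
  set T := symmDiff S {w, l} with hT
  have zT : z ∈ T := white_of aT hz
  have z'T : z' ∈ T := white_of aT hz'
  have al : a ≠ l := fun e => aT (e ▸ D.lT)
  have ap : a ≠ p := fun e => aT (e ▸ D.pT)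
  have av : a ≠ v := fun e => aT (e ▸ D.vT)
  have am : a ≠ m := by
    intro e
    unfold sd at sa
    rw [e, D.smm] at sa
    simp at sa
  by_cases aw : a = w
  · -- `a = w`
    have hz1 := hz
    have hz1' := hz'
    rw [aw, D.opw, Finset.mem_insert, Finset.mem_singleton] at hz1 hz1'
    have hlv : G.Adj l v := by
      rcases hz1 with e | e <;> rcases hz1' with e' | e'
      · exact absurd (e.trans e'.symm) hzz.ne
      · rw [e, e'] at hzz; exact hzz
      · rw [e, e'] at hzz; exact hzz.symm
      · exact absurd (e.trans e'.symm) hzz.ne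
    have hyp : ∀ x ∈ op G T v, x ≠ a → sd G T x = 0 := by
      rcases hz1 with e | e <;> rcases hz1' with e' | e'
      · exact absurd (e.trans e'.symm) hzz.ne
      · rw [e'] at hx'; exact hx'
      · rw [e] at hx; exact hx
      · exact absurd (e.trans e'.symm) hzz.ne
    have hvp : v = p := by
      have h1 : v ∈ sm G T l := mem_sm.2 ⟨hlv, by simp [D.vT, D.lT]⟩
      rw [D.sml, Finset.mem_singleton] at h1
      exact h1
    by_cases hmv : G.Adj m v
    · exact Or.inr (Or.inr (Or.inl ⟨aw, hlv, hmv⟩))
    · refine Or.inr (Or.inl ⟨aw, mem_upsA.2 ⟨lS, ?_, w, ?_, v, ?_, ?_, ?_, ?_⟩⟩)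
      · unfold sd; rw [h.sl, Finset.card_singleton]
      · rw [h.ol]; simp
      · rw [h.ol, hvp]; simp
      · exact (mem_sm.1 (show v ∈ sm G S w by rw [h.sw]; simp)).1
      · intro x hx0 hxl
        rw [h.ow, Finset.mem_insert, Finset.mem_singleton] at hx0
        rcases hx0 with e | e
        · rw [e]; exact h.sb
        · exact absurd e hxl
      · intro x hx0 hxl
        have hxS : x ∉ S := black_of vS hx0
        have hxT : x ∈ op G T v := by
          rw [D.opv' hvp.symm]
          exact Finset.mem_insert_of_mem (Finset.mem_erase.2 ⟨hxl, hx0⟩)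
        have hxw : x ≠ w := fun e => hxS (e ▸ wS)
        have h0 : sd G T x = 0 := hyp x hxT (fun e => hxw (e.trans aw))
        have hxb : x ≠ b := by
          intro e
          rw [e, sb_one D] at h0
          exact absurd h0 (by norm_num)
        have hxm : x ≠ m := fun e => hmv (by rw [← e]; exact (mem_op.1 hx0).1.symm)
        have h1 := (D.rest x hxw (fun e => hxS (e ▸ vS)) hxb hxl hxm
          (fun e => hxS (e ▸ pS))).2.1
        unfold sd at h0 ⊢
        rw [← h1]
        exact h0
  · by_cases ab : a = b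
    · -- `a = b`
      refine Or.inr (Or.inr (Or.inr (Or.inl ⟨ab, ?_⟩)))
      have hz1 := hz
      have hz1' := hz'
      rw [ab, D.opb, Finset.mem_erase] at hz1 hz1'
      have zS : z ∈ S := white_of bS hz1.2
      have z'S : z' ∈ S := white_of bS hz1'.2
      have zl : z ≠ l := fun e => lS (e ▸ zS)
      have z'l : z' ≠ l := fun e => lS (e ▸ z'S)
      obtain ⟨zp, zv⟩ := nb_rest D zT z'T hzz z'l
      obtain ⟨z'p, z'v⟩ := nb_rest D z'T zT hzz.symm zl
      have r1 := (D.rest z hz1.1 zv (fun e => bS (e ▸ zS)) zl (fun e => mS (e ▸ zS)) zp).2.2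
      have r2 := (D.rest z' hz1'.1 z'v (fun e => bS (e ▸ z'S)) z'l (fun e => mS (e ▸ z'S)) z'p).2.2
      refine ⟨z, z', hz1.2, hz1'.2, hz1.1, hz1'.1, hzz, ?_, ?_⟩
      · intro x hx0
        by_cases e : x = b
        · exact Or.inl e
        · exact Or.inr (x_rest D wS vS pS zS zT r1 hx hx0 (fun e' => e (e'.trans ab)))
      · intro x hx0
        by_cases e : x = b
        · exact Or.inl e
        · exact Or.inr (x_rest D wS vS pS z'S z'T r2 hx' hx0 (fun e' => e (e'.trans ab)))
    · -- `a` is a rest vertex
      obtain ⟨ra, rs, ro⟩ := D.rest a aw av ab al am ap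
      have aS : a ∉ S := fun e => aT (ra.2 e)
      have sa' : sd G S a = 1 := by
        unfold sd at sa ⊢
        rw [← rs]
        exact sa
      have hz1 : z ∈ op G S a := by rw [← ro]; exact hz
      have hz1' : z' ∈ op G S a := by rw [← ro]; exact hz'
      have zS : z ∈ S := white_of aS hz1
      have z'S : z' ∈ S := white_of aS hz1'
      have zl : z ≠ l := fun e => lS (e ▸ zS)
      have z'l : z' ≠ l := fun e => lS (e ▸ z'S)
      obtain ⟨zp, zv⟩ := nb_rest D zT z'T hzz z'l
      obtain ⟨z'p, z'v⟩ := nb_rest D z'T zT hzz.symm zl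
      have zw : z ≠ w := fun e => D.wT (e ▸ zT)
      have z'w : z' ≠ w := fun e => D.wT (e ▸ z'T)
      have r1 := (D.rest z zw zv (fun e => bS (e ▸ zS)) zl (fun e => mS (e ▸ zS)) zp).2.2
      have r2 := (D.rest z' z'w z'v (fun e => bS (e ▸ z'S)) z'l (fun e => mS (e ▸ z'S)) z'p).2.2
      have hdl := hD S hL a z z' aS sa' zS z'S (mem_op.1 hz1).1 (mem_op.1 hz1').1 hzz
      have q1 : ∀ x ∈ op G S z, x ≠ a → x = m ∨ sd G S x = 0 := fun x hx0 hxa =>
        x_rest D wS vS pS zS zT r1 hx hx0 hxa
      have q2 : ∀ x ∈ op G S z', x ≠ a → x = m ∨ sd G S x = 0 := fun x hx0 hxa =>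
        x_rest D wS vS pS z'S z'T r2 hx' hx0 hxa
      by_cases m1 : m ∈ op G S z
      · refine Or.inr (Or.inr (Or.inr (Or.inr ⟨a, z, z', aS, am, sa', hz1, hz1', hzz, m1, ?_⟩)))
        intro x hx0
        by_cases e : x = a
        · exact Or.inl e
        · rcases q2 x hx0 e with e' | e'
          · rw [e'] at hx0
            exact absurd (hdl m (mem_op.1 m1).1.symm (mem_op.1 hx0).1.symm).symm am
          · exact Or.inr e'
      by_cases m2 : m ∈ op G S z'
      · refine Or.inr (Or.inr (Or.inr (Or.inr ⟨a, z', z, aS, am, sa', hz1', hz1, hzz.symm, m2,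
          ?_⟩)))
        intro x hx0
        by_cases e : x = a
        · exact Or.inl e
        · rcases q1 x hx0 e with e' | e'
          · rw [e'] at hx0
            exact absurd (hdl m (mem_op.1 hx0).1.symm (mem_op.1 m2).1.symm).symm am
          · exact Or.inr e'
      refine Or.inl ⟨aw, al, am, mem_upsA.2 ⟨aS, sa', z, hz1, z', hz1', hzz, ?_, ?_⟩⟩
      · intro x hx0 hxa
        rcases q1 x hx0 hxa with e | e
        · exact absurd (e ▸ hx0) m1
        · exact e
      · intro x hx0 hxa
        rcases q2 x hx0 hxa with e | e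
        · exact absurd (e ▸ hx0) m2
        · exact e

variable {G} in
theorem slide_ups_le (hG : G.IsRegularOfDegree 3) {k : ℕ} (hD : DL1 G k) {S : Finset V}
    (hL : Level G k S) (hk : 1 ≤ k) {w v b l m p : V} (h : ZL G S w v b l m p)
    (h1 : ¬ Bad1 G S w b m) (h2 : ¬ Bad2 G S m) (h3 : ¬ (G.Adj l v ∧ G.Adj m v)) :
    (upsA G (symmDiff S {w, l})).card ≤ (upsA G S).card := by
  refine Finset.card_le_card_of_injOn (fun a => if a = w then l else a) ?_ ?_
  · intro a ha
    rcases se hG hD hL hk h ha with e | e | e | e | e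
    · simp only [if_neg e.1]
      exact e.2.2.2
    · simp only [if_pos e.1]
      exact e.2
    · exact absurd e.2 h3
    · exact absurd e.2 h1
    · exact absurd e h2
  · intro a ha a' ha' he
    have key : ∀ c ∈ upsA G (symmDiff S {w, l}), c ≠ w → c ≠ l := by
      intro c hc hcw
      rcases se hG hD hL hk h hc with e | e | e | e | e
      · exact e.2.1
      · exact absurd e.1 hcw
      · exact absurd e.1 hcw
      · exact absurd e.2 h1
      · exact absurd e h2
    by_cases hw : a = w
    · by_cases hw' : a' = w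
      · rw [hw, hw']
      · simp only [if_pos hw, if_neg hw'] at he
        exact absurd he.symm (key a' ha' hw')
    · by_cases hw' : a' = w
      · simp only [if_neg hw, if_pos hw'] at he
        exact absurd he (key a ha hw)
      · simp only [if_neg hw, if_neg hw'] at he
        exact he

variable {G} in
theorem slide_ups_lt (hG : G.IsRegularOfDegree 3) {k : ℕ} (hD : DL1 G k) {S : Finset V}
    (hL : Level G k S) (hk : 1 ≤ k) {w v b l m p : V} (h : ZL G S w v b l m p)
    (h1 : ¬ Bad1 G S w b m) (h2 : ¬ Bad2 G S m) (h3 : ¬ (G.Adj l v ∧ G.Adj m v)) {a0 : V}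
    (ha0 : a0 ∈ upsA G S) (h4 : a0 = m ∨ (a0 ≠ l ∧ ∃ z ∈ op G S a0, b ∈ op G S z)) :
    (upsA G (symmDiff S {w, l})).card < (upsA G S).card := by
  obtain ⟨pS, p0, vS, smv, bS, lS, mS, smm, pw, vw, ml, mb, nwm⟩ := third hG hL hk h
  have D := slide_desc hG hL hk h
  have key : ∀ c ∈ upsA G (symmDiff S {w, l}), c ≠ w → c ≠ l ∧ c ≠ m ∧ c ∈ upsA G S := by
    intro c hc hcw
    rcases se hG hD hL hk h hc with e | e | e | e | e
    · exact ⟨e.2.1, e.2.2.1, e.2.2.2⟩
    · exact absurd e.1 hcw
    · exact absurd e.1 hcw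
    · exact absurd e.2 h1
    · exact absurd e h2
  have keyw : w ∈ upsA G (symmDiff S {w, l}) → l ∈ upsA G S := by
    intro hc
    rcases se hG hD hL hk h hc with e | e | e | e | e
    · exact absurd rfl e.1
    · exact e.2
    · exact absurd e.2 h3
    · exact absurd e.2 h1
    · exact absurd e h2
  have hl0 : l ≠ a0 := by
    rcases h4 with e | e
    · rw [e]; exact ml.symm
    · exact e.1.symm
  have hmiss : ∀ c ∈ upsA G (symmDiff S {w, l}), c ≠ w → c ≠ a0 := by
    intro c hc hcw e
    obtain ⟨g1, g2, g3⟩ := key c hc hcw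
    rcases h4 with e' | ⟨-, z0, hz0, hb0⟩
    · exact g2 (e.trans e')
    · rw [← e] at hz0
      obtain ⟨cT, sc, z, hz, z', hz', hzz, hx, hx'⟩ := mem_upsA.1 hc
      obtain ⟨cS, sc', -⟩ := mem_upsA.1 g3
      have cb : c ≠ b := by
        intro e'
        rw [e', h.sb] at sc'
        exact absurd sc' (by norm_num)
      obtain ⟨ra, rs, ro⟩ := D.rest c hcw (fun e' => cS (e' ▸ vS)) cb g1 g2
        (fun e' => cS (e' ▸ pS))
      have hz0T : z0 ∈ op G (symmDiff S {w, l}) c := by rw [ro]; exact hz0
      have hcard : (op G (symmDiff S {w, l}) c).card = 2 := by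
        have := sd_add_op hG (symmDiff S {w, l}) c
        omega
      have hpair : op G (symmDiff S {w, l}) c = {z, z'} := by
        symm
        apply Finset.eq_of_subset_of_card_le
        · intro q hq
          rw [Finset.mem_insert, Finset.mem_singleton] at hq
          rcases hq with e' | e'
          · rw [e']; exact hz
          · rw [e']; exact hz'
        · rw [hcard, Finset.card_pair hzz.ne]
      have z0T : z0 ∈ symmDiff S {w, l} := white_of cT hz0T
      have hbT : b ∈ op G (symmDiff S {w, l}) z0 :=
        mem_op.2 ⟨(mem_op.1 hb0).1, fun e' => D.bT (e'.2 z0T)⟩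
      have h0 : sd G (symmDiff S {w, l}) b = 0 := by
        rw [hpair, Finset.mem_insert, Finset.mem_singleton] at hz0T
        rcases hz0T with e' | e'
        · rw [e'] at hbT
          exact hx b hbT cb.symm
        · rw [e'] at hbT
          exact hx' b hbT cb.symm
      rw [sb_one D] at h0
      exact absurd h0 (by norm_num)
  have hle : (upsA G (symmDiff S {w, l})).card ≤ ((upsA G S).erase a0).card := by
    refine Finset.card_le_card_of_injOn (fun a => if a = w then l else a) ?_ ?_
    · intro a ha
      have ha' : a ∈ upsA G (symmDiff S {w, l}) := ha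
      by_cases hw : a = w
      · simp only [if_pos hw]
        rw [hw] at ha'
        exact Finset.mem_coe.2 (Finset.mem_erase.2 ⟨hl0, keyw ha'⟩)
      · simp only [if_neg hw]
        exact Finset.mem_coe.2 (Finset.mem_erase.2 ⟨hmiss a ha' hw, (key a ha' hw).2.2⟩)
    · intro a ha a' ha' he
      by_cases hw : a = w
      · by_cases hw' : a' = w
        · rw [hw, hw']
        · simp only [if_pos hw, if_neg hw'] at he
          exact absurd he.symm (key a' ha' hw').1
      · by_cases hw' : a' = w
        · simp only [if_neg hw, if_pos hw'] at he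
          exact absurd he (key a ha hw).1
        · simp only [if_neg hw, if_neg hw'] at he
          exact he
  rw [Finset.card_erase_of_mem ha0] at hle
  have hpos : 0 < (upsA G S).card := Finset.card_pos.2 ⟨a0, ha0⟩
  omega

end Pool.Agent.Lib.AndoC
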