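import Pool.Agent.Lib.AndoC.Basic

/-!
# AndoC.Slide: the slide at a vertex of type ZL

Let `h : ZL S w v b l m p` (w = (b, l), v = w*, m = l*, op S l = {w, p}) and T = symmDiff S {w, l}.
`slide_desc`: T is described by `Slid`. By `third`: p is white, sd p = 0 or p = v; sm S v = {w}, sm S m = {l}.
 Neighbourhoods: N(w) = {v, b, l}, N(l) = {m, w, p}.  With `sm_flip_mem`, `op_flip_mem` for w, l and `sm_flip_not_mem`, `op_flip_not_mem` for the others:
  sm T w = (op S w \ {w, l}) ∪ (sm S w ∩ {w, l}) = {b};  op T w = (sm S w \ {w,l}) ∪ (op S w ∩ {w,l}) = {v, l};  sm T l = {w, p} \ {w, l} = {p}; op T l = {m} ∪ {w}.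
  b: op S b contains w, not l (l is black, sd b = 0: `sm S b = ∅`), so sm T b = {w}, op T b = (op S b).erase w.
  m: sm S m = {l}; w is not adjacent to m (`third`); so sm T m = ∅, op T m = insert l (op S m).
  v: sm S v = {w}; v adjacent to l iff v = p.  If p /= v: sm T v = ∅ and op T v = insert w (op S v).  If p = v: sm T v = {l} and op T v = insert w ((op S v).erase l).
  p /= v: sm S p = ∅, p is adjacent to l, not to w (sd p = 0 and w white): sm T p = {l}, op T p = (op S p).erase l.
  other x: not in {w, l}, not adjacent to w or l (N(w), N(l) are listed above), so nothing changes.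
`slide_level`: mm T = mm S and imb T = imb S (cost S {w, l} = 0, iot S {w, l} = 0: use `mm_flip`, `imb_flip`, `Fact2Aux.cost_insert`, .. of Ando/Cost, Ando/Fact2: cost = (3 - 2) + (3 - 2) - 2 = 0),
 all sd T <= 1 by `slide_desc`.  So T is `Level` with the same k (the four fields: imb_eq, opt, tf, low; `opt` and `low` are statements about mm S + |imb S| and |imb S|).
-/

set_option autoImplicit false
set_option linter.unusedSectionVars false

namespace Pool.Agent.Lib.AndoC

open Pool.Agent.Lib.Ando

variable {V : Type*} [Fintype V] [DecidableEq V] (G : SimpleGraph V) [DecidableRel G.Adj]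

variable {G} in
theorem slide_desc (hG : G.IsRegularOfDegree 3) {k : ℕ} {S : Finset V} (hL : Level G k S)
    (hk : 1 ≤ k) {w v b l m p : V} (h : ZL G S w v b l m p) :
    Slid G S (symmDiff S {w, l}) w v b l m p := by
  obtain ⟨pS, sp, vS, smv, bS, lS, mS, smm, pw, vw, ml, mb, nwm⟩ := third hG hL hk h
  have wS := h.wS
  have sw := h.sw
  have ow := h.ow
  have bl := h.bl
  have sb := h.sb
  have sl := h.sl
  have ol := h.ol
  have wl : w ≠ l := fun e => lS (e ▸ wS)
  have bw : b ≠ w := fun e => bS (e ▸ wS)
  have mw : m ≠ w := fun e => mS (e ▸ wS)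
  have vl : v ≠ l := fun e => lS (e ▸ vS)
  have pl : p ≠ l := fun e => lS (e ▸ pS)
  have vb : v ≠ b := fun e => bS (e ▸ vS)
  have pb : p ≠ b := fun e => bS (e ▸ pS)
  have smb : sm G S b = ∅ := Finset.card_eq_zero.1 sb
  have hwF : w ∈ ({w, l} : Finset V) := by simp
  have hlF : l ∈ ({w, l} : Finset V) := by simp
  have hbF : b ∉ ({w, l} : Finset V) := by simp [bw, bl]
  have hmF : m ∉ ({w, l} : Finset V) := by simp [mw, ml]
  have hvF : v ∉ ({w, l} : Finset V) := by simp [vw, vl]
  have hpF : p ∉ ({w, l} : Finset V) := by simp [pw, pl]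
  have hwb : w ∈ op G S b := op_symm (by rw [ow]; simp)
  have hlb : l ∉ op G S b := fun e => (mem_op.1 e).2 ⟨fun e' => absurd e' lS, fun e' => absurd e' bS⟩
  have hwm : w ∉ op G S m := fun e => nwm (mem_op.1 e).1.symm
  have hlm : l ∉ op G S m := fun e => (mem_op.1 e).2 ⟨fun e' => absurd e' lS, fun e' => absurd e' mS⟩
  have hwv : w ∉ op G S v := fun e => (mem_op.1 e).2 ⟨fun _ => vS, fun _ => wS⟩
  have hwp : w ∉ op G S p := fun e => (mem_op.1 e).2 ⟨fun _ => pS, fun _ => wS⟩
  have hlp : l ∈ op G S p := op_symm (by rw [ol]; simp)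
  have hlv : p ≠ v → l ∉ op G S v := by
    intro e e'
    have := op_symm e'
    rw [ol, Finset.mem_insert, Finset.mem_singleton] at this
    rcases this with h1 | h1
    · exact vw h1
    · exact e h1.symm
  have smp : p ≠ v → sm G S p = ∅ := by
    intro e
    rcases sp with h1 | h1
    · exact Finset.card_eq_zero.1 h1
    · exact absurd h1 e
  refine ⟨rfl, ?_, ?_, ?_, ?_, ?_, ?_, ?_, ?_, ?_, ?_, ?_, ?_, ?_, ?_, ?_, ?_, ?_, ?_, ?_, ?_⟩
  · rw [Finset.mem_symmDiff]; tauto
  · rw [Finset.mem_symmDiff]; tauto
  · rw [Finset.mem_symmDiff]; tauto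
  · rw [Finset.mem_symmDiff]; tauto
  · rw [Finset.mem_symmDiff]; tauto
  · rw [Finset.mem_symmDiff]; tauto
  · rw [sm_flip_mem G hwF, ow, sw]
    ext y
    simp only [Finset.mem_union, Finset.mem_sdiff, Finset.mem_inter, Finset.mem_insert,
      Finset.mem_singleton]
    grind
  · rw [sm_flip_not_mem G hbF, smb]
    ext y
    simp only [Finset.mem_union, Finset.mem_sdiff, Finset.mem_inter, Finset.mem_insert,
      Finset.mem_singleton, Finset.notMem_empty]
    grind
  · rw [sm_flip_mem G hlF, ol, sl]
    ext y
    simp only [Finset.mem_union, Finset.mem_sdiff, Finset.mem_inter, Finset.mem_insert,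
      Finset.mem_singleton]
    grind
  · rw [sm_flip_not_mem G hpF]
    by_cases e : p = v
    · subst e
      rw [smv]
      ext y
      simp only [Finset.mem_union, Finset.mem_sdiff, Finset.mem_inter, Finset.mem_insert,
        Finset.mem_singleton]
      grind
    · rw [smp e]
      ext y
      simp only [Finset.mem_union, Finset.mem_sdiff, Finset.mem_inter, Finset.mem_insert,
        Finset.mem_singleton, Finset.notMem_empty]
      grind
  · rw [sm_flip_not_mem G hmF, smm]
    ext y
    simp only [Finset.mem_union, Finset.mem_sdiff, Finset.mem_inter, Finset.mem_insert,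
      Finset.mem_singleton, Finset.notMem_empty]
    grind
  · intro e
    have := hlv e
    rw [sm_flip_not_mem G hvF, smv]
    ext y
    simp only [Finset.mem_union, Finset.mem_sdiff, Finset.mem_inter, Finset.mem_insert,
      Finset.mem_singleton, Finset.notMem_empty]
    grind
  · rw [op_flip_mem G hwF, ow, sw]
    ext y
    simp only [Finset.mem_union, Finset.mem_sdiff, Finset.mem_inter, Finset.mem_insert,
      Finset.mem_singleton]
    grind
  · rw [op_flip_mem G hlF, ol, sl]
    ext y
    simp only [Finset.mem_union, Finset.mem_sdiff, Finset.mem_inter, Finset.mem_insert,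
      Finset.mem_singleton]
    grind
  · rw [op_flip_not_mem G hbF, smb]
    ext y
    simp only [Finset.mem_union, Finset.mem_sdiff, Finset.mem_inter, Finset.mem_insert,
      Finset.mem_singleton, Finset.notMem_empty, Finset.mem_erase]
    grind
  · rw [op_flip_not_mem G hmF, smm]
    ext y
    simp only [Finset.mem_union, Finset.mem_sdiff, Finset.mem_inter, Finset.mem_insert,
      Finset.mem_singleton]
    grind
  · intro e
    rw [op_flip_not_mem G hpF, smp e]
    ext y
    simp only [Finset.mem_union, Finset.mem_sdiff, Finset.mem_inter, Finset.mem_insert,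
      Finset.mem_singleton, Finset.notMem_empty, Finset.mem_erase]
    grind
  · intro e
    have := hlv e
    rw [op_flip_not_mem G hvF, smv]
    ext y
    simp only [Finset.mem_union, Finset.mem_sdiff, Finset.mem_inter, Finset.mem_insert,
      Finset.mem_singleton]
    grind
  · intro e
    rw [op_flip_not_mem G hvF, smv]
    ext y
    simp only [Finset.mem_union, Finset.mem_sdiff, Finset.mem_inter, Finset.mem_insert,
      Finset.mem_singleton, Finset.mem_erase]
    grind
  · intro x xw xv xb xl xm xp
    have hxF : x ∉ ({w, l} : Finset V) := by simp [xw, xl]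
    have h1 : w ∉ sm G S x := by
      intro e
      have := sm_symm e
      rw [sw, Finset.mem_singleton] at this
      exact xv this
    have h2 : l ∉ sm G S x := by
      intro e
      have := sm_symm e
      rw [sl, Finset.mem_singleton] at this
      exact xm this
    have h3 : w ∉ op G S x := by
      intro e
      have := op_symm e
      rw [ow, Finset.mem_insert, Finset.mem_singleton] at this
      rcases this with e' | e'
      · exact xb e'
      · exact xl e'
    have h4 : l ∉ op G S x := by
      intro e
      have := op_symm e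
      rw [ol, Finset.mem_insert, Finset.mem_singleton] at this
      rcases this with e' | e'
      · exact xw e'
      · exact xp e'
    refine ⟨?_, ?_, ?_⟩
    · rw [Finset.mem_symmDiff]; tauto
    · rw [sm_flip_not_mem G hxF]
      ext y
      simp only [Finset.mem_union, Finset.mem_sdiff, Finset.mem_inter, Finset.mem_insert,
        Finset.mem_singleton]
      grind
    · rw [op_flip_not_mem G hxF]
      ext y
      simp only [Finset.mem_union, Finset.mem_sdiff, Finset.mem_inter, Finset.mem_insert,
        Finset.mem_singleton]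
      grind

variable {G} in
theorem slide_level (hG : G.IsRegularOfDegree 3) {k : ℕ} {S : Finset V} (hL : Level G k S)
    (hk : 1 ≤ k) {w v b l m p : V} (h : ZL G S w v b l m p) :
    Level G k (symmDiff S {w, l}) := by
  obtain ⟨pS, sp, vS, smv, bS, lS, mS, smm, pw, vw, ml, mb, nwm⟩ := third hG hL hk h
  have hd := slide_desc hG hL hk h
  have wl : w ≠ l := fun e => lS (e ▸ h.wS)
  have hlw : l ∈ op G S w := by rw [h.ow]; simp
  have sdw : sd G S w = 1 := by unfold sd; rw [h.sw, Finset.card_singleton]
  have sdl : sd G S l = 1 := by unfold sd; rw [h.sl, Finset.card_singleton]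
  have hc1 : cost G S {l} = 1 := by
    have := Fact2Aux.cost_insert G S ∅ l (by simp)
    rw [Fact2Aux.cost_empty, sdl, Finset.sum_empty] at this
    simpa using this
  have hc : cost G S {w, l} = 0 := by
    rw [Fact2Aux.cost_insert G S {l} w (by simpa using wl), hc1, sdw, Finset.sum_singleton,
      Fact2Aux.sg_bi G (mem_op.1 hlw).1 (fun e => lS (e.1 h.wS))]
    norm_num
  have hi1 : iot S {l} = 1 := by
    have := Fact2Aux.iot_insert S ∅ l (by simp)
    rw [Fact2Aux.iot_empty, if_neg lS] at this
    simpa using this
  have hi : iot S {w, l} = 0 := by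
    rw [Fact2Aux.iot_insert S {l} w (by simpa using wl), hi1, if_pos h.wS]
    norm_num
  have himb : imb (symmDiff S {w, l}) = imb S := by
    rw [imb_flip, hi]; ring
  have hmm : mm G (symmDiff S {w, l}) = mm G S := by
    rw [mm_flip hG, hc]; ring
  refine ⟨by rw [himb]; exact hL.imb_eq, fun T => ?_, fun x => ?_, fun T hT hm => ?_⟩
  · rw [hmm, himb]
    exact hL.opt T
  · by_cases xw : x = w
    · subst xw; unfold sd; rw [hd.smw, Finset.card_singleton]
    by_cases xl : x = l
    · subst xl; unfold sd; rw [hd.sml, Finset.card_singleton]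
    by_cases xb : x = b
    · subst xb; unfold sd; rw [hd.smb, Finset.card_singleton]
    by_cases xm : x = m
    · subst xm; unfold sd; rw [hd.smm, Finset.card_empty]; exact zero_le_one
    by_cases xp : x = p
    · subst xp; unfold sd; rw [hd.smp, Finset.card_singleton]
    by_cases xv : x = v
    · subst xv; unfold sd; rw [hd.smv (fun e => xp e.symm), Finset.card_empty]; exact zero_le_one
    · have := (hd.rest x xw xv xb xl xm xp).2.1
      unfold sd
      rw [this]
      exact hL.tf x
  · rw [hmm, himb] at hm
    rw [himb]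
    exact hL.low T hT hm

end Pool.Agent.Lib.AndoC
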