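import Pool.Agent.Lib.AndoC.Slide
import Pool.Agent.Lib.AndoC.Fact3

/-!
# AndoC.Tail: forward slides along the tail of a chain

`tail_false`: induction on d, for all i, S with n = i + 1 + d.
d = 0: i = n - 1: w i = (m i, y), both sd 0: a site; e = (y, g) is a site (sd g = 0), e /= w i, e is not adjacent to w i (`sm S (w i) = {w' i}`, `w' i /= e`; both white).  `fact3g` at y (y is black,
 as a member of op S (w i)): m i = g, contradiction to `gm`.  (y /= m i by `ym`, y /= g.)
d + 1: i + 1 < n.  ZL S (w i) (w' i) (m i) (l (i+1)) (m (i+1)) p by `zl_of` (sd (m i) = 0, sd (l (i+1)) = 1; identify the existential partners with `sw`, `sl`).  T = symmDiff S {w i, l (i+1)},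
 `slide_level`, `slide_desc`.  Show `Tl T (i+1) n ..` and apply the induction hypothesis:
  m (i+1) not in T, sm T (m (i+1)) = ∅.
  l j, m j for j > i + 1 are `rest` vertices: black in S (so /= w i, w' i, p), /= m i, l (i+1), m (i+1) by dl, dl'.
  w j for j >= i + 1: white, /= w i, /= w' i (dw), /= p because p is adjacent to l (i+1), and l (i+1) in op S (w j) = {m j, l (j+1)} or {m (n-1), y} is excluded by dl, dl', sd y = 0.
  y: black, sd y = 0, y /= m i: `rest`.  g: g /= m i, sd g = 0 (so /= l (i+1), m (i+1)): `rest`.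
  e: white, /= w i, w' i (`we`), /= p (l (i+1) in op S e = {y, g}, sd = 1 against 0): `rest`.
-/

set_option autoImplicit false
set_option linter.unusedSectionVars false

namespace Pool.Agent.Lib.AndoC

open Pool.Agent.Lib.Ando

variable {V : Type*} [Fintype V] [DecidableEq V] (G : SimpleGraph V) [DecidableRel G.Adj]

variable {G} in
theorem tail_false (hG : G.IsRegularOfDegree 3) {k : ℕ} (hk : 1 ≤ k) (hA : NoTriple G k)
    {n : ℕ} {l m w w' : ℕ → V} {y e e' g : V} :
    ∀ (d i : ℕ) (S : Finset V), n = i + 1 + d → Level G k S → Tl G S i n l m w w' y e e' g →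
      False := by
  intro d
  induction d with
  | zero =>
    intro i S hn hL ht
    have hi : i = n - 1 := by omega
    have hin := ht.hin
    have hwS := ht.wS i le_rfl hin
    have hsw := ht.sw i le_rfl hin
    have hop : op G S (w i) = {y, m i} := by
      have h1 := ht.oy
      rw [← hi] at h1
      rw [h1, Finset.pair_comm]
    have hyw : y ∈ op G S (w i) := by rw [hop]; simp
    have hyS : y ∉ S := StructAux.op_black hwS hyw
    have hsite1 : w i ∈ sites G S := by
      rw [StructAux.mem_sites]
      refine ⟨hwS, by unfold sd; rw [hsw]; simp, fun b hb => ?_⟩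
      rw [hop, Finset.mem_insert, Finset.mem_singleton] at hb
      rcases hb with rfl | rfl
      · exact ht.sy
      · exact ht.sm0
    have hsite2 : e ∈ sites G S := by
      rw [StructAux.mem_sites]
      refine ⟨ht.eS, by unfold sd; rw [ht.se]; simp, fun b hb => ?_⟩
      rw [ht.oe, Finset.mem_insert, Finset.mem_singleton] at hb
      rcases hb with rfl | rfl
      · exact ht.sy
      · exact ht.sg
    have hne := ht.we i le_rfl hin
    have hna : ¬ G.Adj (w i) e := by
      intro hadj
      have h1 : e ∈ sm G S (w i) := by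
        rw [mem_sm]
        exact ⟨hadj, fun _ => hwS, fun _ => ht.eS⟩
      rw [hsw, Finset.mem_singleton] at h1
      exact hne.2 h1.symm
    have h2 := fact3g hG hk hA hL hyS ht.sy hsite1 hsite2 hop ht.oe (ht.ym i le_rfl hin) ht.yg
      hne.1 hna
    exact ht.gm i le_rfl hin h2.symm
  | succ d ih =>
    intro i S hn hL ht
    have hin := ht.hin
    have hi1 : i + 1 < n := by omega
    have hii : i < i + 1 := Nat.lt_succ_self i
    have hwS := ht.wS i le_rfl hin
    have hsw := ht.sw i le_rfl hin
    have hop := ht.ow i le_rfl hi1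
    have hsl := ht.sl (i + 1) hii hi1
    have hsdl : sd G S (l (i + 1)) = 1 := by unfold sd; rw [hsl]; simp
    have hsdm : sd G S (m (i + 1)) = 1 := by unfold sd; rw [ht.sm' (i + 1) hii hi1]; simp
    obtain ⟨v, m', p, h⟩ := zl_of hG hwS (by unfold sd; rw [hsw]; simp)
      (by rw [hop]; simp : m i ∈ op G S (w i)) (by rw [hop]; simp : l (i + 1) ∈ op G S (w i))
      ht.sm0 hsdl
    have hv : v = w' i := by
      have h1 := h.sw
      rw [hsw] at h1
      exact (Finset.singleton_injective h1).symm
    have hm' : m' = m (i + 1) := by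
      have h1 := h.sl
      rw [hsl] at h1
      exact (Finset.singleton_injective h1).symm
    subst hv
    subst hm'
    have hs := slide_desc hG hL hk h
    have hLT := slide_level hG hL hk h
    obtain ⟨hpS, _, hw'S, _, hmiS, hlS, hm1S, _, _, _, hml, _, _⟩ := third hG hL hk h
    set T := symmDiff S {w i, l (i + 1)} with hT
    -- `p` is adjacent to `l (i + 1)`
    have hlp : l (i + 1) ∈ op G S p := by
      apply op_symm
      rw [h.ol]
      simp
    -- black vertices
    have restB : ∀ x, x ∉ S → x ≠ m i → x ≠ l (i + 1) → x ≠ m (i + 1) →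
        (x ∈ T ↔ x ∈ S) ∧ sm G T x = sm G S x ∧ op G T x = op G S x := by
      intro x hx h1 h2 h3
      refine hs.rest x ?_ ?_ h1 h2 h3 ?_
      · rintro rfl; exact hx hwS
      · rintro rfl; exact hx hw'S
      · rintro rfl; exact hx hpS
    have restW : ∀ x, x ∈ S → x ≠ w i → x ≠ w' i → l (i + 1) ∉ op G S x →
        (x ∈ T ↔ x ∈ S) ∧ sm G T x = sm G S x ∧ op G T x = op G S x := by
      intro x hx h1 h2 h3
      refine hs.rest x h1 h2 ?_ ?_ ?_ ?_
      · rintro rfl; exact hmiS hx
      · rintro rfl; exact hlS hx
      · rintro rfl; exact hm1S hx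
      · rintro rfl; exact h3 hlp
    have hyS : y ∉ S := StructAux.op_black ht.eS (by rw [ht.oe]; simp)
    have hgS : g ∉ S := StructAux.op_black ht.eS (by rw [ht.oe]; simp)
    have hly : l (i + 1) ≠ y := by
      intro h1
      rw [h1, ht.sy] at hsdl
      omega
    have hmy : m (i + 1) ≠ y := by
      intro h1
      rw [h1, ht.sy] at hsdm
      omega
    have hlg : l (i + 1) ≠ g := by
      intro h1
      rw [h1, ht.sg] at hsdl
      omega
    have hmg : m (i + 1) ≠ g := by
      intro h1
      rw [h1, ht.sg] at hsdm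
      omega
    have hmS : ∀ j, i < j → j < n → m j ∉ S := by
      intro j h1 h2 h3
      have h4 : l j ∈ sm G S (m j) := by rw [ht.sm' j h1 h2]; simp
      rw [mem_sm] at h4
      exact ht.lS j h1 h2 (h4.2.2 h3)
    have rl : ∀ j, i + 1 < j → j < n →
        (l j ∈ T ↔ l j ∈ S) ∧ sm G T (l j) = sm G S (l j) ∧ op G T (l j) = op G S (l j) := by
      intro j h1 h2
      refine restB _ (ht.lS j (by omega) h2) ?_ ?_ ?_
      · exact (ht.dl j i (by omega) h2 le_rfl hin (by omega)).1
      · exact ht.dl' j (i + 1) (by omega) h2 hii hi1 (by omega)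
      · exact (ht.dl j (i + 1) (by omega) h2 (by omega) hi1 (by omega)).1
    have rm : ∀ j, i + 1 < j → j < n →
        (m j ∈ T ↔ m j ∈ S) ∧ sm G T (m j) = sm G S (m j) ∧ op G T (m j) = op G S (m j) := by
      intro j h1 h2
      refine restB _ (hmS j (by omega) h2) ?_ ?_ ?_
      · exact (ht.dl j i (by omega) h2 le_rfl hin (by omega)).2
      · exact (ht.dl (i + 1) j hii hi1 (by omega) h2 (by omega)).1.symm
      · exact (ht.dl j (i + 1) (by omega) h2 (by omega) hi1 (by omega)).2
    have hlm : ∀ j, i < j → j < n → l (i + 1) ≠ m j := by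
      intro j h1 h2
      by_cases hj : j = i + 1
      · rw [hj]; exact hml.symm
      · exact (ht.dl (i + 1) j hii hi1 (by omega) h2 (by omega)).1
    have rw' : ∀ j, i + 1 ≤ j → j < n →
        (w j ∈ T ↔ w j ∈ S) ∧ sm G T (w j) = sm G S (w j) ∧ op G T (w j) = op G S (w j) := by
      intro j h1 h2
      have hd := ht.dw j i (by omega) h2 le_rfl hin (by omega)
      refine restW _ (ht.wS j (by omega) h2) hd.1 hd.2 ?_
      intro h3
      by_cases hj : j + 1 < n
      · rw [ht.ow j (by omega) hj, Finset.mem_insert, Finset.mem_singleton] at h3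
        rcases h3 with h3 | h3
        · exact hlm j (by omega) h2 h3
        · exact ht.dl' (i + 1) (j + 1) hii hi1 (by omega) hj (by omega) h3
      · have hj' : j = n - 1 := by omega
        rw [hj', ht.oy, Finset.mem_insert, Finset.mem_singleton] at h3
        rcases h3 with h3 | h3
        · exact hlm (n - 1) (by omega) (by omega) h3
        · exact hly h3
    have ry := restB y hyS (ht.ym i le_rfl hin) hly.symm hmy.symm
    have rg := restB g hgS (ht.gm i le_rfl hin) hlg.symm hmg.symm
    have hwe := ht.we i le_rfl hin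
    have re := restW e ht.eS hwe.1.symm hwe.2.symm (by
      intro h3
      rw [ht.oe, Finset.mem_insert, Finset.mem_singleton] at h3
      rcases h3 with h3 | h3
      · exact hly h3
      · exact hlg h3)
    refine ih (i + 1) T (by omega) hLT ?_
    exact
      { hin := hi1
        mS := hs.mT
        sm0 := by unfold sd; rw [hs.smm]; simp
        lS := fun j h1 h2 h3 => ht.lS j (by omega) h2 ((rl j h1 h2).1.1 h3)
        sl := fun j h1 h2 => by rw [(rl j h1 h2).2.1]; exact ht.sl j (by omega) h2
        sm' := fun j h1 h2 => by rw [(rm j h1 h2).2.1]; exact ht.sm' j (by omega) h2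
        wS := fun j h1 h2 => (rw' j h1 h2).1.2 (ht.wS j (by omega) h2)
        sw := fun j h1 h2 => by rw [(rw' j h1 h2).2.1]; exact ht.sw j (by omega) h2
        ow := fun j h1 h2 => by
          rw [(rw' j h1 (by omega)).2.2]; exact ht.ow j (by omega) h2
        oy := by rw [(rw' (n - 1) (by omega) (by omega)).2.2]; exact ht.oy
        sy := by unfold sd; rw [ry.2.1]; exact ht.sy
        dl := fun j j' h1 h2 h3 h4 h5 => ht.dl j j' (by omega) h2 (by omega) h4 h5
        dl' := fun j j' h1 h2 h3 h4 h5 => ht.dl' j j' (by omega) h2 (by omega) h4 h5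
        dw := fun j j' h1 h2 h3 h4 h5 => ht.dw j j' (by omega) h2 (by omega) h4 h5
        eS := re.1.2 ht.eS
        se := by rw [re.2.1]; exact ht.se
        oe := by rw [re.2.2]; exact ht.oe
        yg := ht.yg
        sg := by unfold sd; rw [rg.2.1]; exact ht.sg
        we := fun j h1 h2 => ht.we j (by omega) h2
        gm := fun j h1 h2 => ht.gm j (by omega) h2
        ym := fun j h1 h2 => ht.ym j (by omega) h2 }

end Pool.Agent.Lib.AndoC
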